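import Pool.Agent.H326R2.Pi.Stmts

/-!
# The linear forms as integrals: size of the form and of the coefficient of `π`
-/

open Polynomial

namespace Pool.Agent.TH67.RP

open Pool.Agent.H326R2.Pi

/-- `w = z + 2/z` -/
noncomputable def ww (z : ℂ) : ℂ := z + 2 / z

/-- `s = z - 2/z` -/
noncomputable def ss (z : ℂ) : ℂ := z - 2 / z

/-- the integrand `Q(w) / (z s^(2m))` -/
noncomputable def Fq (m : ℕ) (Q : ℚ[X]) (z : ℂ) : ℂ := aeval (ww z) Q / (z * ss z ^ (2 * m))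

/-- the algebraic part of the primitive -/
noncomputable def Alg (m : ℕ) (Ψ : ℚ[X]) (z : ℂ) : ℂ := aeval (ww z) Ψ * (ss z / ss z ^ (2 * m))

theorem hasDerivAt_ww {z : ℂ} (hz0 : z ≠ 0) : HasDerivAt ww (ss z / z) z := by
  have h1 := (hasDerivAt_id z).add ((hasDerivAt_inv hz0).const_mul 2)
  refine (h1.congr_deriv ?_).congr_of_eventuallyEq ?_
  · unfold ss
    field_simp
    ring
  · refine Filter.Eventually.of_forall fun x => ?_
    show x + 2 / x = x + 2 * x⁻¹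
    rw [div_eq_mul_inv]

theorem hasDerivAt_ss {z : ℂ} (hz0 : z ≠ 0) : HasDerivAt ss (ww z / z) z := by
  have h1 := (hasDerivAt_id z).sub ((hasDerivAt_inv hz0).const_mul 2)
  refine (h1.congr_deriv ?_).congr_of_eventuallyEq ?_
  · unfold ww
    field_simp
    ring
  · refine Filter.Eventually.of_forall fun x => ?_
    show x - 2 / x = x - 2 * x⁻¹
    rw [div_eq_mul_inv]

theorem ww_sq {z : ℂ} (hz0 : z ≠ 0) : ww z ^ 2 - 8 = ss z ^ 2 := by
  unfold ww ss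
  field_simp
  ring

/-- the derivative of the algebraic part -/
theorem hasDerivAt_Alg (m : ℕ) (hm : 1 ≤ m) (k : ℤ) (Ψ Q : ℚ[X])
    (hΨ : LL m Ψ = Q - C (k : ℚ) * (X ^ 2 - 8) ^ m) {z : ℂ} (hz0 : z ≠ 0) (hs0 : ss z ≠ 0) :
    HasDerivAt (Alg m Ψ) (Fq m Q z - (k : ℂ) * z⁻¹) z := by
  have hΨ' : HasDerivAt (fun z : ℂ => aeval (ww z) Ψ)
      (aeval (ww z) (derivative Ψ) * (ss z / z)) z :=
    HasDerivAt.comp (h₂ := fun w : ℂ => aeval w Ψ) z
      (Polynomial.hasDerivAt_aeval Ψ (ww z)) (hasDerivAt_ww hz0)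
  have hs := hasDerivAt_ss hz0
  have hq : HasDerivAt (fun z : ℂ => ss z / ss z ^ (2 * m))
      ((ww z / z * ss z ^ (2 * m) - ss z *
        (((2 * m : ℕ) : ℂ) * ss z ^ (2 * m - 1) * (ww z / z))) / (ss z ^ (2 * m)) ^ 2) z :=
    hs.div (hs.pow (2 * m)) (pow_ne_zero _ hs0)
  have hall := hΨ'.mul hq
  refine hall.congr_deriv ?_
  have h1 : ss z ^ 2 * aeval (ww z) (derivative Ψ) - (2 * (m : ℂ) - 1) * ww z * aeval (ww z) Ψ =
      aeval (ww z) Q - k * ss z ^ (2 * m) := by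
    have h2 := congrArg (aeval (ww z)) hΨ
    unfold LL at h2
    simp only [map_sub, map_mul, map_pow, aeval_X, map_ofNat, map_natCast, map_one,
      aeval_C, ww_sq hz0] at h2
    have h3 : (algebraMap ℚ ℂ) (k : ℚ) = (k : ℂ) := by simp
    rw [h3, ← pow_mul] at h2
    exact h2
  have e2 : ss z * ss z ^ (2 * m - 1) = ss z ^ (2 * m) := by
    rw [← pow_succ']
    congr 1
    omega
  have e1 : (ww z / z * ss z ^ (2 * m) - ss z *
        (((2 * m : ℕ) : ℂ) * ss z ^ (2 * m - 1) * (ww z / z))) / (ss z ^ (2 * m)) ^ 2 =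
      -((2 * (m : ℂ) - 1) * ww z) / (z * ss z ^ (2 * m)) := by
    have e3 : ss z * (((2 * m : ℕ) : ℂ) * ss z ^ (2 * m - 1) * (ww z / z)) =
        ((2 * m : ℕ) : ℂ) * (ss z * ss z ^ (2 * m - 1)) * (ww z / z) := by ring
    rw [e3, e2]
    have hp : ss z ^ (2 * m) ≠ 0 := pow_ne_zero _ hs0
    generalize ss z ^ (2 * m) = p at hp ⊢
    push_cast
    field_simp
    ring
  rw [e1]
  unfold Fq
  have hp : ss z ^ (2 * m) ≠ 0 := pow_ne_zero _ hs0
  have h4 : aeval (ww z) Q = ss z ^ 2 * aeval (ww z) (derivative Ψ) -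
      (2 * (m : ℂ) - 1) * ww z * aeval (ww z) Ψ + k * ss z ^ (2 * m) := by rw [h1]; ring
  rw [h4]
  generalize ss z ^ (2 * m) = p at hp ⊢
  generalize aeval (ww z) (derivative Ψ) = A
  generalize aeval (ww z) Ψ = B
  generalize ss z = s at hs0 ⊢
  generalize ww z = w
  field_simp
  ring

/-- the coefficient of `π` is small if the integrand is small on a circle -/
theorem coeff_bound (m : ℕ) (hm : 1 ≤ m) (k : ℤ) (Ψ Q : ℚ[X])
    (hΨ : LL m Ψ = Q - C (k : ℚ) * (X ^ 2 - 8) ^ m) (R M : ℝ) (hR : 0 < R)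
    (h : ∀ z : ℂ, ‖z‖ = R → ss z ≠ 0 ∧ ‖aeval (ww z) Q / ss z ^ (2 * m)‖ ≤ M) : |(k : ℝ)| ≤ M := by
  have hz : ∀ z ∈ Metric.sphere (0 : ℂ) R, z ≠ 0 := by
    intro z hz h0
    rw [mem_sphere_zero_iff_norm, h0, norm_zero] at hz
    exact hR.ne hz
  have hn : ∀ z ∈ Metric.sphere (0 : ℂ) R, ‖z‖ = R := fun z hz => mem_sphere_zero_iff_norm.mp hz
  have h0 : (∮ z in C(0, R), (Fq m Q z - (k : ℂ) * z⁻¹)) = 0 := by
    apply circleIntegral.integral_eq_zero_of_hasDerivWithinAt hR.le (f := Alg m Ψ)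
    intro z hz'
    exact (hasDerivAt_Alg m hm k Ψ Q hΨ (hz z hz') (h z (hn z hz')).1).hasDerivWithinAt
  have hc1 : ContinuousOn (fun z : ℂ => (k : ℂ) * z⁻¹) (Metric.sphere (0 : ℂ) R) := by
    intro z hz'
    exact (continuousAt_const.mul (continuousAt_inv₀ (hz z hz'))).continuousWithinAt
  have hc2 : ContinuousOn (Fq m Q) (Metric.sphere (0 : ℂ) R) := by
    intro z hz'
    have h1 := hz z hz'
    have h2 := (h z (hn z hz')).1
    unfold Fq
    refine ContinuousAt.continuousWithinAt ?_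
    refine ContinuousAt.div ?_ ?_ (mul_ne_zero h1 (pow_ne_zero _ h2))
    · exact (Polynomial.continuous_aeval Q).continuousAt.comp (hasDerivAt_ww h1).continuousAt
    · exact continuousAt_id.mul ((hasDerivAt_ss h1).continuousAt.pow _)
  have i1 := hc1.circleIntegrable hR.le
  have i2 := hc2.circleIntegrable hR.le
  rw [circleIntegral.integral_sub i2 i1, circleIntegral.integral_const_mul] at h0
  have h1 : (∮ z in C(0, R), z⁻¹) = 2 * Real.pi * Complex.I := by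
    have := circleIntegral.integral_sub_center_inv (0 : ℂ) hR.ne'
    simpa using this
  rw [h1, sub_eq_zero] at h0
  have h2 : ‖∮ z in C(0, R), Fq m Q z‖ ≤ 2 * Real.pi * R * (M / R) := by
    apply circleIntegral.norm_integral_le_of_norm_le_const hR.le
    intro z hz'
    have e : Fq m Q z = (aeval (ww z) Q / ss z ^ (2 * m)) / z := by
      unfold Fq
      rw [div_div, mul_comm z]
    rw [e, norm_div, hn z hz']
    gcongr
    exact (h z (hn z hz')).2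
  rw [h0, norm_mul, norm_mul, norm_mul, Complex.norm_I, Complex.norm_real, Complex.norm_ofNat,
    mul_one, Real.norm_of_nonneg Real.pi_pos.le] at h2
  have e3 : ‖(k : ℂ)‖ = |(k : ℝ)| := by
    rw [Complex.norm_intCast]
  rw [e3] at h2
  have h4 : 2 * Real.pi * R * (M / R) = M * (2 * Real.pi) := by
    field_simp
  rw [h4] at h2
  exact le_of_mul_le_mul_right h2 (by positivity)

theorem aeval_cast (Ψ : ℚ[X]) (q : ℚ) :
    Polynomial.aeval ((q : ℚ) : ℂ) Ψ = ((Ψ.eval q : ℚ) : ℂ) := by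
  have h := Polynomial.aeval_algebraMap_apply ℂ q Ψ
  simp only [eq_ratCast] at h
  rw [h, Polynomial.coe_aeval_eq_eval]

theorem log_im : (Complex.log (1 + Complex.I)).im = Real.pi / 4 := by
  rw [Complex.log_im]
  have h : (1 + Complex.I : ℂ) = ((Real.sqrt 2 : ℝ) : ℂ) * (Complex.cos ((Real.pi / 4 : ℝ) : ℂ)
      + Complex.sin ((Real.pi / 4 : ℝ) : ℂ) * Complex.I) := by
    rw [← Complex.ofReal_cos, ← Complex.ofReal_sin, Real.cos_pi_div_four, Real.sin_pi_div_four]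
    have h2 := Real.mul_self_sqrt (show (0 : ℝ) ≤ 2 by norm_num)
    apply Complex.ext
    · simp
      nlinarith
    · simp
      nlinarith
  rw [h, Complex.arg_mul_cos_add_sin_mul_I (by positivity)]
  constructor <;> linarith [Real.pi_pos]

/-- the primitive -/
noncomputable def Pri (m : ℕ) (k : ℤ) (Ψ : ℚ[X]) (z : ℂ) : ℂ :=
  (k : ℂ) * Complex.log z + Alg m Ψ z

theorem hasDerivAt_Pri (m : ℕ) (hm : 1 ≤ m) (k : ℤ) (Ψ Q : ℚ[X])
    (hΨ : LL m Ψ = Q - C (k : ℚ) * (X ^ 2 - 8) ^ m) {z : ℂ} (hz : 0 < z.re) (hs0 : ss z ≠ 0) :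
    HasDerivAt (Pri m k Ψ) (Fq m Q z) z := by
  have hz0 : z ≠ 0 := by
    intro h
    rw [h] at hz
    simp at hz
  have hlog : HasDerivAt (fun z : ℂ => (k : ℂ) * Complex.log z) ((k : ℂ) * z⁻¹) z :=
    (Complex.hasDerivAt_log (Or.inl hz)).const_mul _
  have h1 := hlog.add (hasDerivAt_Alg m hm k Ψ Q hΨ hz0 hs0)
  refine h1.congr_deriv ?_
  ring

theorem Pri_one_add_I (m : ℕ) (k : ℤ) (Ψ : ℚ[X]) :
    (Pri m k Ψ (1 + Complex.I)).im =
      (k : ℝ) * (Real.pi / 4) + 2 * ((Ψ.eval 2 : ℚ) : ℝ) / (-4) ^ m := by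
  have hz : (2 : ℂ) / (1 + Complex.I) = 1 - Complex.I := by
    have hne : (1 + Complex.I : ℂ) ≠ 0 := by
      intro h
      have := congrArg Complex.re h
      simp at this
    rw [div_eq_iff hne]
    ring_nf
    rw [Complex.I_sq]
    norm_num
  have h1 : ww (1 + Complex.I) = ((2 : ℚ) : ℂ) := by
    unfold ww
    rw [hz]; push_cast; ring
  have h2 : ss (1 + Complex.I) = 2 * Complex.I := by
    unfold ss
    rw [hz]; ring
  have h3 : (2 * Complex.I : ℂ) ^ (2 * m) = (((-4) ^ m : ℝ) : ℂ) := by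
    rw [pow_mul, mul_pow, Complex.I_sq]
    push_cast
    norm_num
  unfold Pri Alg
  rw [h1, h2, h3, aeval_cast, Complex.add_im]
  have h4 : ((k : ℂ) * Complex.log (1 + Complex.I)).im = (k : ℝ) * (Real.pi / 4) := by
    have : (k : ℂ) = ((k : ℝ) : ℂ) := by push_cast; rfl
    rw [this, Complex.im_ofReal_mul, log_im]
  have h5 : (((Ψ.eval 2 : ℚ) : ℂ) * (2 * Complex.I / (((-4) ^ m : ℝ) : ℂ))).im =
      2 * ((Ψ.eval 2 : ℚ) : ℝ) / (-4) ^ m := by
    have : (((Ψ.eval 2 : ℚ) : ℂ) * (2 * Complex.I / (((-4) ^ m : ℝ) : ℂ))) =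
        ((2 * ((Ψ.eval 2 : ℚ) : ℝ) / ((-4) ^ m : ℝ) : ℝ) : ℂ) * Complex.I := by
      push_cast; ring
    rw [this, Complex.im_ofReal_mul, Complex.I_im, mul_one]
  rw [h4, h5]

theorem Pri_one (m : ℕ) (k : ℤ) (Ψ : ℚ[X]) : (Pri m k Ψ 1).im = 0 := by
  have h1 : ww 1 = ((3 : ℚ) : ℂ) := by unfold ww; push_cast; norm_num
  have h2 : ss 1 = -1 := by unfold ss; norm_num
  have h3 : (-1 : ℂ) ^ (2 * m) = 1 := by
    rw [pow_mul]; norm_num
  unfold Pri Alg
  rw [h1, h2, h3, aeval_cast, Complex.log_one]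
  have : ((k : ℂ) * 0 + ((Ψ.eval 3 : ℚ) : ℂ) * (-1 / 1)) = ((-(Ψ.eval 3 : ℚ) : ℝ) : ℂ) := by
    push_cast; ring
  rw [this, Complex.ofReal_im]

/-- the linear form is small if the integrand is small on two segments -/
theorem form_bound (m : ℕ) (hm : 1 ≤ m) (k : ℤ) (Ψ Q : ℚ[X])
    (hΨ : LL m Ψ = Q - C (k : ℚ) * (X ^ 2 - 8) ^ m) (v : ℂ) (M : ℝ) (hM : 0 ≤ M)
    (d1 : ‖v - (1 + Complex.I)‖ ≤ 1) (d2 : ‖1 - v‖ ≤ 1)
    (h : ∀ z : ℂ, (z ∈ segment ℝ (1 + Complex.I) v ∨ z ∈ segment ℝ v 1) →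
      0 < z.re ∧ ss z ≠ 0 ∧ ‖Fq m Q z‖ ≤ M) :
    |(k : ℝ) * Real.pi + 8 * ((Ψ.eval 2 : ℚ) : ℝ) / (-4) ^ m| ≤ 8 * M := by
  have h1 : ‖Pri m k Ψ v - Pri m k Ψ (1 + Complex.I)‖ ≤ M * ‖v - (1 + Complex.I)‖ := by
    apply Convex.norm_image_sub_le_of_norm_hasDerivWithin_le (f' := Fq m Q)
      (s := segment ℝ (1 + Complex.I) v)
    · intro x hx
      obtain ⟨a, b, -⟩ := h x (Or.inl hx)
      exact (hasDerivAt_Pri m hm k Ψ Q hΨ a b).hasDerivWithinAt
    · intro x hx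
      exact (h x (Or.inl hx)).2.2
    · exact convex_segment _ _
    · exact left_mem_segment _ _ _
    · exact right_mem_segment _ _ _
  have h2 : ‖Pri m k Ψ 1 - Pri m k Ψ v‖ ≤ M * ‖1 - v‖ := by
    apply Convex.norm_image_sub_le_of_norm_hasDerivWithin_le (f' := Fq m Q)
      (s := segment ℝ v 1)
    · intro x hx
      obtain ⟨a, b, -⟩ := h x (Or.inr hx)
      exact (hasDerivAt_Pri m hm k Ψ Q hΨ a b).hasDerivWithinAt
    · intro x hx
      exact (h x (Or.inr hx)).2.2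
    · exact convex_segment _ _
    · exact left_mem_segment _ _ _
    · exact right_mem_segment _ _ _
  have i1 := Pri_one_add_I m k Ψ
  have i2 := Pri_one m k Ψ
  have e : (k : ℝ) * Real.pi + 8 * ((Ψ.eval 2 : ℚ) : ℝ) / (-4) ^ m =
      -4 * ((Pri m k Ψ v - Pri m k Ψ (1 + Complex.I)).im +
        (Pri m k Ψ 1 - Pri m k Ψ v).im) := by
    rw [Complex.sub_im, Complex.sub_im, i1, i2]
    ring
  have a1 := (Complex.abs_im_le_norm (Pri m k Ψ v - Pri m k Ψ (1 + Complex.I))).trans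
    (h1.trans (mul_le_mul_of_nonneg_left d1 hM))
  have a2 := (Complex.abs_im_le_norm (Pri m k Ψ 1 - Pri m k Ψ v)).trans
    (h2.trans (mul_le_mul_of_nonneg_left d2 hM))
  rw [e, abs_mul]
  have a3 := abs_add_le (Pri m k Ψ v - Pri m k Ψ (1 + Complex.I)).im
    (Pri m k Ψ 1 - Pri m k Ψ v).im
  have a4 : |(-4 : ℝ)| = 4 := by norm_num
  rw [a4]
  linarith

end Pool.Agent.TH67.RP
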