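import Mathlib
set_option linter.style.longLine false
namespace Pool.Agent.TH67.RP

lemma cert1 (a b : ℝ) (ha : 0 ≤ a) (hb : 0 ≤ b) :
    10000000 * ((((0*a + 1*b)^2 + (0*a - 5*b)^2) * ((0*a + 1*b)^2 + (18*a + 13*b)^2))^2 * (((0*a + 1*b)^2 + (9*a + 4*b)^2) * ((-9*a - 8*b)^2 + (9*a + 4*b)^2))^3)
      ≤ 2887 * (((9*a + 10*b)^2 + (9*a + 4*b)^2)^2 * (((9*a + 10*b)^2 + (9*a + 4*b)^2 + 2*(9*a + 9*b)^2)^2 - 8*((9*a + 10*b)^2*(9*a + 9*b)^2))^3 * (9*a + 9*b)^4) := by
  rw [← sub_nonneg]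
  have e : 2887 * (((9*a + 10*b)^2 + (9*a + 4*b)^2)^2 * (((9*a + 10*b)^2 + (9*a + 4*b)^2 + 2*(9*a + 9*b)^2)^2 - 8*((9*a + 10*b)^2*(9*a + 9*b)^2))^3 * (9*a + 9*b)^4) -
      10000000 * ((((0*a + 1*b)^2 + (0*a - 5*b)^2) * ((0*a + 1*b)^2 + (18*a + 13*b)^2))^2 * (((0*a + 1*b)^2 + (9*a + 4*b)^2) * ((-9*a - 8*b)^2 + (9*a + 4*b)^2))^3) =
      71883121009248979862501376*(a^20*b^0) + 1134155909257039460052799488*(a^19*b^1) + 8495519968167166471897847808*(a^18*b^2) + 40166986432592030788682661888*(a^17*b^3) + 132819912041082863848617157632*(a^16*b^4) + 323117659971552371728194072576*(a^15*b^5) + 596316688453456440600022622208*(a^14*b^6) + 852153363407202499529856884736*(a^13*b^7) + 955998094822155836007852722688*(a^12*b^8) + 849014376704262220739121239040*(a^11*b^9) + 598921166127444661653571431936*(a^10*b^10) + 335065265261667084666889046016*(a^9*b^11) + 147588437748549082969476110592*(a^8*b^12) + 50453192492347015852299482112*(a^7*b^13)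 + 13060051077038042249381606400*(a^6*b^14) + 2456535345684288286310157312*(a^5*b^15) + 312387118124474614415862528*(a^4*b^16) + 23356470008219288174134272*(a^3*b^17) + 773834367012764124248064*(a^2*b^18) + 28198914810014436341760*(a^1*b^19) + 4470421793661034707968*(a^0*b^20) := by ring
  rw [e]
  positivity

lemma cert2 (a b : ℝ) (ha : 0 ≤ a) (hb : 0 ≤ b) :
    10000000 * ((((1*a + 0*b)^2 + (-5*a - 9*b)^2) * ((1*a + 0*b)^2 + (13*a + 9*b)^2))^2 * (((1*a + 0*b)^2 + (4*a + 0*b)^2) * ((-8*a - 9*b)^2 + (4*a + 0*b)^2))^3)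
      ≤ 2887 * (((10*a + 9*b)^2 + (4*a + 0*b)^2)^2 * (((10*a + 9*b)^2 + (4*a + 0*b)^2 + 2*(9*a + 9*b)^2)^2 - 8*((10*a + 9*b)^2*(9*a + 9*b)^2))^3 * (9*a + 9*b)^4) := by
  rw [← sub_nonneg]
  have e : 2887 * (((10*a + 9*b)^2 + (4*a + 0*b)^2)^2 * (((10*a + 9*b)^2 + (4*a + 0*b)^2 + 2*(9*a + 9*b)^2)^2 - 8*((10*a + 9*b)^2*(9*a + 9*b)^2))^3 * (9*a + 9*b)^4) -
      10000000 * ((((1*a + 0*b)^2 + (-5*a - 9*b)^2) * ((1*a + 0*b)^2 + (13*a + 9*b)^2))^2 * (((1*a + 0*b)^2 + (4*a + 0*b)^2) * ((-8*a - 9*b)^2 + (4*a + 0*b)^2))^3) =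
      4470421793661034707968*(a^20*b^0) + 163622296158873070381056*(a^19*b^1) + 3742083813740157820454400*(a^18*b^2) + 37626280929483895884105216*(a^17*b^3) + 216512222285805164884857024*(a^16*b^4) + 823817906100921086423384832*(a^15*b^5) + 2245940965371702135230868672*(a^14*b^6) + 4607336569669665944119691904*(a^13*b^7) + 7343699972542200864322277904*(a^12*b^8) + 9297898286232163416409748160*(a^11*b^9) + 9498779508631154340953581920*(a^10*b^10) + 7917361046347395441050311392*(a^9*b^11) + 5422820804992477433289193668*(a^8*b^12) + 3060796848000635168671138704*(a^7*b^13) + 1419784421598517706692801164*(a^6*b^14) + 535680640977836429058784056*(a^5*b^15) + 161020706903189165926811763*(a^4*b^16) + 37208212400623478648017212*(a^3*b^17) + 6219921386518372980241758*(a^2*b^18) + 670784332334571643682196*(a^1*b^19) + 35099180180297353448487*(a^0*b^20) := by ring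
  rw [e]
  positivity

end Pool.Agent.TH67.RP
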