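import Pool.Agent.TH67.RP.Low
import Mathlib.NumberTheory.DiophantineApproximation.ContinuedFractions
import Mathlib.Algebra.ContinuedFractions.Computation.TerminatesIffRat
import Mathlib.Algebra.ContinuedFractions.Computation.ApproximationCorollaries

/-!
# Convergents of `π`
-/

open Filter Topology

namespace Pool.Agent.TH67.RP

open GenContFract in
/-- the continuants are integers -/
theorem contsAux_int (v : ℝ) (n : ℕ) : ∃ a b : ℤ, ((GenContFract.of v).contsAux n).a = a ∧
    ((GenContFract.of v).contsAux n).b = b := by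
  induction n using Nat.strong_induction_on with
  | _ n ih =>
    match n, ih with
    | 0, _ => exact ⟨1, 0, by simp [contsAux], by simp [contsAux]⟩
    | 1, _ => exact ⟨⌊v⌋, 1, by simp [contsAux, of_h_eq_floor], by simp [contsAux]⟩
    | n + 2, ih =>
      obtain ⟨a0, b0, h0, h0'⟩ := ih n (by omega)
      obtain ⟨a1, b1, h1, h1'⟩ := ih (n + 1) (by omega)
      rcases hs : (GenContFract.of v).s.get? n with _ | gp
      · refine ⟨a1, b1, ?_, ?_⟩ <;> simp [contsAux, hs, h1, h1']
      · obtain ⟨e1, z, e2⟩ := of_partNum_eq_one_and_exists_int_partDen_eq hs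
        refine ⟨z * a1 + a0, z * b1 + b0, ?_, ?_⟩
        · simp [contsAux, hs, nextConts, nextNum, e1, e2, h0, h1]
        · simp [contsAux, hs, nextConts, nextDen, e1, e2, h0', h1']

/-- a convergent is close -/
theorem convergent_close (v : ℝ) (hv : Irrational v) (n : ℕ) :
    |v - (v.convergent n : ℝ)| ≤ 1 / ((v.convergent n).den : ℝ) ^ 2 := by
  have hterm : ∀ n, ¬ (GenContFract.of v).TerminatedAt n := by
    intro n h
    obtain ⟨q, hq⟩ := (GenContFract.terminates_iff_rat v).mp ⟨n, h⟩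
    exact hv ⟨q, hq.symm⟩
  obtain ⟨a, b, ha, hb⟩ := contsAux_int v (n + 1)
  have h1 := GenContFract.abs_sub_convs_le (hterm n)
  have hden : (GenContFract.of v).dens n = b := hb
  have hnum : (GenContFract.of v).nums n = a := ha
  have hpos : (0 : ℝ) < b := by
    rw [← hden]
    have h2 := GenContFract.succ_nth_fib_le_of_nth_den (v := v) (n := n) (Or.inr (hterm _))
    refine lt_of_lt_of_le ?_ h2
    exact_mod_cast Nat.fib_pos.mpr n.succ_pos
  have hmono : (b : ℝ) ≤ (GenContFract.of v).dens (n + 1) := by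
    rw [← hden]; exact GenContFract.of_den_mono
  rw [hden] at h1
  have hc : (GenContFract.of v).convs n = (a : ℝ) / b := by
    have : (GenContFract.of v).convs n = (GenContFract.of v).nums n / (GenContFract.of v).dens n :=
      rfl
    rw [this, hden, hnum]
  have hr : v.convergent n = (a : ℚ) / b := by
    have h3 := Real.convs_eq_convergent v n
    rw [hc] at h3
    have h4 : (((a : ℚ) / b : ℚ) : ℝ) = ((v.convergent n : ℚ) : ℝ) := by
      push_cast
      exact h3
    exact_mod_cast h4.symm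
  have hbZ : 0 < b := by exact_mod_cast hpos
  have hle : ((v.convergent n).den : ℝ) ≤ b := by
    rw [hr]
    have h5 := Int.le_of_dvd hbZ (Rat.den_dvd a b)
    exact_mod_cast h5
  have hd0 : (0 : ℝ) < (v.convergent n).den := by exact_mod_cast (v.convergent n).den_pos
  rw [Real.convs_eq_convergent] at h1
  refine h1.trans ?_
  apply one_div_le_one_div_of_le (by positivity)
  calc ((v.convergent n).den : ℝ) ^ 2 ≤ (b : ℝ) ^ 2 := pow_le_pow_left₀ hd0.le hle 2
    _ = b * b := sq _
    _ ≤ b * (GenContFract.of v).dens (n + 1) := mul_le_mul_of_nonneg_left hmono hpos.le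

/-- finitely many rational numbers with bounded denominator near `π` -/
theorem finite_bdd (N : ℕ) : {r : ℚ | r.den < N ∧ |Real.pi - (r : ℝ)| ≤ 1}.Finite := by
  let f : ℚ → ℤ × ℕ := fun q => (q.num, q.den)
  have hinj : Function.Injective f := by
    intro a b hab
    simp only [f, Prod.mk_inj] at hab
    rw [← Rat.num_div_den a, ← Rat.num_div_den b, hab.1, hab.2]
  refine Set.Finite.of_finite_image ?_ hinj.injOn
  refine Set.Finite.subset ((Set.finite_Icc (-(5 * N : ℤ)) (5 * N)).prod (Set.finite_Iio N)) ?_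
  rintro _ ⟨r, ⟨h1, h2⟩, rfl⟩
  have h3 := abs_le.mp h2
  have hp3 := Real.pi_gt_three
  have hp4 := Real.pi_le_four
  have hd0 : (0 : ℝ) < r.den := by exact_mod_cast r.den_pos
  have hdN : (r.den : ℝ) ≤ N := by exact_mod_cast h1.le
  have hr : (r : ℝ) = (r.num : ℝ) / r.den := by exact_mod_cast (Rat.num_div_den r).symm
  have hnum : (r.num : ℝ) = (r : ℝ) * r.den := by rw [hr]; field_simp
  have b1 : (r.num : ℝ) ≤ 5 * N := by rw [hnum]; nlinarith
  have b2 : -(5 * N : ℝ) ≤ r.num := by rw [hnum]; nlinarith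
  refine Set.mem_prod.mpr ⟨Set.mem_Icc.mpr ⟨?_, ?_⟩, h1⟩
  · have : ((-(5 * N : ℤ) : ℤ) : ℝ) ≤ r.num := by push_cast; exact b2
    exact_mod_cast this
  · have : (r.num : ℝ) ≤ ((5 * N : ℤ) : ℝ) := by push_cast; exact b1
    exact_mod_cast this

/-- good approximations with such denominators are finite in number -/
theorem finite_close (κ μ : ℝ) (hμ : μ < 2)
    (h : ∀ᶠ q : ℕ in atTop, Smooth κ q → ∀ p : ℤ, (q : ℝ) ^ (-μ) ≤ |Real.pi - p / q|) :
    {r : ℚ | |Real.pi - (r : ℝ)| ≤ 1 / (r.den : ℝ) ^ 2 ∧ Smooth κ r.den}.Finite := by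
  obtain ⟨N, hN⟩ := eventually_atTop.mp h
  refine (finite_bdd (max N 2)).subset ?_
  rintro r ⟨h1, h2⟩
  have hd0 : (0 : ℝ) < r.den := by exact_mod_cast r.den_pos
  have hd1 : (1 : ℝ) ≤ r.den := by exact_mod_cast r.den_pos
  refine ⟨?_, ?_⟩
  · by_contra hcon
    push Not at hcon
    have hd2 : (2 : ℝ) ≤ r.den := by
      have : 2 ≤ r.den := le_trans (le_max_right _ _) hcon
      exact_mod_cast this
    have h3 := hN r.den (le_trans (le_max_left _ _) hcon) h2 r.num
    have hr : (r : ℝ) = (r.num : ℝ) / r.den := by exact_mod_cast (Rat.num_div_den r).symm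
    rw [← hr] at h3
    have h4 : 1 / (r.den : ℝ) ^ 2 = (r.den : ℝ) ^ (-2 : ℝ) := by
      rw [Real.rpow_neg hd0.le, one_div]
      norm_num
    have h5 : (r.den : ℝ) ^ (-2 : ℝ) < (r.den : ℝ) ^ (-μ) :=
      Real.rpow_lt_rpow_of_exponent_lt (by linarith) (by linarith)
    rw [h4] at h1
    linarith
  · refine h1.trans ?_
    rw [div_le_one (by positivity)]
    exact one_le_pow₀ hd1

/-- only finitely many convergents of `π` have such a denominator -/
theorem finite_conv (κ μ : ℝ) (hμ : μ < 2)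
    (h : ∀ᶠ q : ℕ in atTop, Smooth κ q → ∀ p : ℤ, (q : ℝ) ^ (-μ) ≤ |Real.pi - p / q|) :
    {n : ℕ | Smooth κ (Real.pi.convergent n).den}.Finite := by
  have hfin := finite_close κ μ hμ h
  obtain ⟨S, hS⟩ : ∃ S : Set ℚ, S =
    {r : ℚ | |Real.pi - (r : ℝ)| ≤ 1 / (r.den : ℝ) ^ 2 ∧ Smooth κ r.den} := ⟨_, rfl⟩
  rw [← hS] at hfin
  have hcl : IsClosed ((fun r : ℚ => (r : ℝ)) '' S) := (hfin.image _).isClosed
  have hpi : Real.pi ∈ ((fun r : ℚ => (r : ℝ)) '' S)ᶜ := by
    rintro ⟨r, -, hr⟩
    exact irrational_pi ⟨r, hr⟩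
  have ht : Tendsto (fun n => (Real.pi.convergent n : ℝ)) atTop (𝓝 Real.pi) := by
    have h1 := GenContFract.of_convergence Real.pi
    refine h1.congr fun n => ?_
    exact Real.convs_eq_convergent Real.pi n
  have hev := ht.eventually (hcl.isOpen_compl.mem_nhds hpi)
  obtain ⟨N, hN⟩ := eventually_atTop.mp hev
  refine (Set.finite_Iio N).subset ?_
  intro n hn
  by_contra hcon
  have hcon' : N ≤ n := by simpa using hcon
  apply hN n hcon'
  refine ⟨Real.pi.convergent n, ?_, rfl⟩
  rw [hS]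
  exact ⟨convergent_close _ irrational_pi n, hn⟩

end Pool.Agent.TH67.RP
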