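import Mathlib
set_option linter.style.longLine false

/-! # One-variable certificates -/

namespace Pool.Agent.TH67.RP

lemma u0 (a b : ℝ) (ha : 0 ≤ a) (hb : 0 ≤ b) :
    ((a + b) - (0*a + 7/100*b))^4 * ((a + b) + (0*a + 7/100*b)) * (0*a + 7/100*b)^2 ≤
      979/400000 * ((0*(a + b) + 2049/200*(0*a + 7/100*b)) * ((0*a + 7/100*b)^2 + 6*((0*a + 7/100*b)*(a + b)) + (a + b)^2)^3) := by
  rw [← sub_nonneg]
  have e : 979/400000 * ((0*(a + b) + 2049/200*(0*a + 7/100*b)) * ((0*a + 7/100*b)^2 + 6*((0*a + 7/100*b)*(a + b)) + (a + b)^2)^3) -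
      ((a + b) - (0*a + 7/100*b))^4 * ((a + b) + (0*a + 7/100*b)) * (0*a + 7/100*b)^2 =
      14041797/8000000000*(a^6*b^1) + 3137172311/400000000000*(a^5*b^2) + 1189596094883/80000000000000*(a^4*b^3) + 32517368129673/2000000000000000*(a^3*b^4) + 9326879955987867/800000000000000000*(a^2*b^5) + 213522093968746311/40000000000000000000*(a^1*b^6) + 9247067252825967453/8000000000000000000000*(a^0*b^7) := by ring
  rw [e]
  positivity

lemma u1 (a b : ℝ) (ha : 0 ≤ a) (hb : 0 ≤ b) :
    ((a + b) - (7/100*a + 21/200*b))^4 * ((a + b) + (7/100*a + 21/200*b)) * (7/100*a + 21/200*b)^2 ≤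
      979/400000 * ((163/250*(a + b) + 927/1000*(7/100*a + 21/200*b)) * ((7/100*a + 21/200*b)^2 + 6*((7/100*a + 21/200*b)*(a + b)) + (a + b)^2)^3) := by
  rw [← sub_nonneg]
  have e : 979/400000 * ((163/250*(a + b) + 927/1000*(7/100*a + 21/200*b)) * ((7/100*a + 21/200*b)^2 + 6*((7/100*a + 21/200*b)*(a + b)) + (a + b)^2)^3) -
      ((a + b) - (7/100*a + 21/200*b))^4 * ((a + b) + (7/100*a + 21/200*b)) * (7/100*a + 21/200*b)^2 =
      46161697040831579219/40000000000000000000000*(a^7*b^0) + 571584228872940543799/80000000000000000000000*(a^6*b^1) + 2970390240368848805991/160000000000000000000000*(a^5*b^2) + 1675713792206539407791/64000000000000000000000*(a^4*b^3) + 2762858412029207698773/128000000000000000000000*(a^3*b^4) + 13271725416698671997557/1280000000000000000000000*(a^2*b^5) + 6862128154780270536157/2560000000000000000000000*(a^1*b^6) + 1474381683902609987753/5120000000000000000000000*(a^0*b^7) := by ring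
  rw [e]
  positivity

lemma u2 (a b : ℝ) (ha : 0 ≤ a) (hb : 0 ≤ b) :
    ((a + b) - (21/200*a + 7/50*b))^4 * ((a + b) + (21/200*a + 7/50*b)) * (21/200*a + 7/50*b)^2 ≤
      979/400000 * ((163/250*(a + b) + 927/1000*(21/200*a + 7/50*b)) * ((21/200*a + 7/50*b)^2 + 6*((21/200*a + 7/50*b)*(a + b)) + (a + b)^2)^3) := by
  rw [← sub_nonneg]
  have e : 979/400000 * ((163/250*(a + b) + 927/1000*(21/200*a + 7/50*b)) * ((21/200*a + 7/50*b)^2 + 6*((21/200*a + 7/50*b)*(a + b)) + (a + b)^2)^3) -
      ((a + b) - (21/200*a + 7/50*b))^4 * ((a + b) + (21/200*a + 7/50*b)) * (21/200*a + 7/50*b)^2 =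
      1474381683902609987753/5120000000000000000000000*(a^7*b^0) + 1729271816268999689057/1280000000000000000000000*(a^6*b^1) + 765242962492964630857/320000000000000000000000*(a^5*b^2) + 30394290955865325573/16000000000000000000000*(a^4*b^3) + 2493134105265023591/4000000000000000000000*(a^3*b^4) + 840984034077594491/5000000000000000000000*(a^2*b^5) + 248005199674793099/1250000000000000000000*(a^1*b^6) + 25688579460391819/312500000000000000000*(a^0*b^7) := by ring
  rw [e]
  positivity

lemma u3 (a b : ℝ) (ha : 0 ≤ a) (hb : 0 ≤ b) :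
    ((a + b) - (7/50*a + 1*b))^4 * ((a + b) + (7/50*a + 1*b)) * (7/50*a + 1*b)^2 ≤
      979/400000 * ((373/500*(a + b) + 253/1000*(7/50*a + 1*b)) * ((7/50*a + 1*b)^2 + 6*((7/50*a + 1*b)*(a + b)) + (a + b)^2)^3) := by
  rw [← sub_nonneg]
  have e : 979/400000 * ((373/500*(a + b) + 253/1000*(7/50*a + 1*b)) * ((7/50*a + 1*b)^2 + 6*((7/50*a + 1*b)*(a + b)) + (a + b)^2)^3) -
      ((a + b) - (7/50*a + 1*b))^4 * ((a + b) + (7/50*a + 1*b)) * (7/50*a + 1*b)^2 =
      23917924927917541/312500000000000000000*(a^7*b^0) + 3920453209537141/6250000000000000000*(a^6*b^1) + 2715538962878267/7812500000000000*(a^5*b^2) + 1015969319912711/312500000000000*(a^4*b^3) + 6520094996349/781250000000*(a^3*b^4) + 28445864139/3125000000*(a^2*b^5) + 2054921/390625*(a^1*b^6) + 978021/781250*(a^0*b^7) := by ring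
  rw [e]
  positivity

lemma w1 (a b : ℝ) (ha : 0 ≤ a) (hb : 0 ≤ b) :
    (163/250*(a + b) + 927/1000*(7/100*a + 7/50*b))^8 ≤ (7/100*a + 7/50*b) * (a + b)^7 := by
  rw [← sub_nonneg]
  have e : (7/100*a + 7/50*b) * (a + b)^7 - (163/250*(a + b) + 927/1000*(7/100*a + 7/50*b))^8 =
      2377981972180054680029274750134806719/10000000000000000000000000000000000000000*(a^8*b^0) + 13366021109382836381978606490647372119/625000000000000000000000000000000000000*(a^7*b^1) + 79398175368782656186390272479605042633/625000000000000000000000000000000000000*(a^6*b^2) + 50553693237321559063033510872731960433/156250000000000000000000000000000000000*(a^5*b^3) + 27730342206665770511723094289280358233/62500000000000000000000000000000000000*(a^4*b^4) + 13470426768979317657279973673418236033/39062500000000000000000000000000000000*(a^3*b^5) + 5653709679624943128031035318113593833/39062500000000000000000000000000000000*(a^2*b^6) + 257717600400159821155278135019204519/9765625000000000000000000000000000000*(a^1*b^7)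 + 18248275548436262873504540721249919/39062500000000000000000000000000000000*(a^0*b^8) := by ring
  rw [e]
  positivity

lemma w3 (a b : ℝ) (ha : 0 ≤ a) (hb : 0 ≤ b) :
    (373/500*(a + b) + 253/1000*(7/50*a + 1*b))^8 ≤ (7/50*a + 1*b) * (a + b)^7 := by
  rw [← sub_nonneg]
  have e : (7/50*a + 1*b) * (a + b)^7 - (373/500*(a + b) + 253/1000*(7/50*a + 1*b))^8 =
      38295051594697635611484865502762239/39062500000000000000000000000000000000*(a^8*b^0) + 54508961817411966368300616330200391/97656250000000000000000000000000000*(a^7*b^1) + 13976420682582014302514043919968553/3906250000000000000000000000000000*(a^6*b^2) + 376289592489299794942835603799457/39062500000000000000000000000000*(a^5*b^3) + 8690315941409497969027994374233/625000000000000000000000000000*(a^4*b^4) + 177390911749586354868290199377/15625000000000000000000000000*(a^3*b^5) + 3115653447258497824816920713/625000000000000000000000000*(a^2*b^6) + 5826677875118335217542071/6250000000000000000000000*(a^1*b^7) + 7972055930055972007999/1000000000000000000000000*(a^0*b^8)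 := by ring
  rw [e]
  positivity

/-- from the certificates to the inequality -/
theorem eighth (t l : ℝ) (ht : 0 < t) (ht1 : t ≤ 1) (_hl : 0 ≤ l) (h8 : l ^ 8 ≤ t)
    (h : (1 - t) ^ 4 * (1 + t) * t ^ 2 ≤ 979/400000 * (l * (t ^ 2 + 6 * t + 1) ^ 3)) :
    (1 - t) ^ 32 * (1 + t) ^ 8 * t ^ 15 ≤ (979/400000) ^ 8 * (t ^ 2 + 6 * t + 1) ^ 24 := by
  have h0 : 0 ≤ (1 - t) ^ 4 * (1 + t) * t ^ 2 := by
    have : 0 ≤ 1 - t := by linarith
    positivity
  have h1 := pow_le_pow_left₀ h0 h 8
  have h2 : (979/400000 * (l * (t ^ 2 + 6 * t + 1) ^ 3)) ^ 8 =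
      (979/400000 : ℝ) ^ 8 * (t ^ 2 + 6 * t + 1) ^ 24 * l ^ 8 := by
    generalize t ^ 2 + 6 * t + 1 = A
    ring
  have h3 : (979/400000 : ℝ) ^ 8 * (t ^ 2 + 6 * t + 1) ^ 24 * l ^ 8 ≤
      (979/400000 : ℝ) ^ 8 * (t ^ 2 + 6 * t + 1) ^ 24 * t :=
    mul_le_mul_of_nonneg_left h8 (by positivity)
  have h4 : ((1 - t) ^ 4 * (1 + t) * t ^ 2) ^ 8 =
      ((1 - t) ^ 32 * (1 + t) ^ 8 * t ^ 15) * t := by
    generalize 1 - t = A
    generalize 1 + t = B
    ring
  rw [h4, h2] at h1
  exact le_of_mul_le_mul_right (h1.trans h3) ht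

theorem uni (t : ℝ) (ht0 : 0 ≤ t) (ht1 : t ≤ 1) :
    (1 - t) ^ 32 * (1 + t) ^ 8 * t ^ 15 ≤ (979/400000) ^ 8 * (t ^ 2 + 6 * t + 1) ^ 24 := by
  rcases eq_or_lt_of_le ht0 with h0 | h0
  · rw [← h0]; norm_num
  rcases le_total t (7/100) with c0 | c0
  · have key := u0 (1 - t * (100/7)) (t * (100/7)) (by linarith) (by linarith)
    have e1 : (1 - t * (100/7)) + t * (100/7) = 1 := by ring
    have e2 : (0 * (1 - t * (100/7)) + 7/100 * (t * (100/7))) = t := by ring
    rw [e1, e2] at key
    refine eighth t (2049/200 * t) h0 ht1 (by linarith) ?_ ?_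
    · have h7 : t ^ 7 ≤ (7/100) ^ 7 := pow_le_pow_left₀ ht0 c0 7
      have h8 : (2049/200 * t) ^ 8 = (2049/200) ^ 8 * t ^ 7 * t := by ring
      rw [h8]
      have h9 : (2049/200 : ℝ) ^ 8 * t ^ 7 ≤ 1 := by
        have : (2049/200 : ℝ) ^ 8 * t ^ 7 ≤ (2049/200 : ℝ) ^ 8 * (7/100) ^ 7 :=
          mul_le_mul_of_nonneg_left h7 (by norm_num)
        refine this.trans ?_
        norm_num
      exact mul_le_of_le_one_left ht0 h9
    · simpa using key
  rcases le_total t (14/100) with c1 | c1
  · have h8 : (652/1000 + 927/1000 * t) ^ 8 ≤ t := by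
      have key := w1 ((14/100 - t) * (100/7)) ((t - 7/100) * (100/7)) (by linarith) (by linarith)
      have e1 : (14/100 - t) * (100/7) + (t - 7/100) * (100/7) = 1 := by ring
      have e2 : (7/100 * ((14/100 - t) * (100/7)) + 7/50 * ((t - 7/100) * (100/7))) = t := by ring
      rw [e1, e2] at key
      have e3 : (652/1000 + 927/1000 * t : ℝ) = 163/250 * 1 + 927/1000 * t := by ring
      rw [e3]
      linarith
    rcases le_total t (21/200) with c2 | c2
    · have key := u1 ((21/200 - t) * (200/7)) ((t - 7/100) * (200/7)) (by linarith) (by linarith)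
      have e1 : (21/200 - t) * (200/7) + (t - 7/100) * (200/7) = 1 := by ring
      have e2 : (7/100 * ((21/200 - t) * (200/7)) + 21/200 * ((t - 7/100) * (200/7))) = t := by ring
      rw [e1, e2] at key
      have e3 : (652/1000 + 927/1000 * t : ℝ) = 163/250 * 1 + 927/1000 * t := by ring
      refine eighth t (652/1000 + 927/1000 * t) h0 ht1 (by linarith) h8 ?_
      rw [e3]
      simpa using key
    · have key := u2 ((14/100 - t) * (200/7)) ((t - 21/200) * (200/7)) (by linarith) (by linarith)
      have e1 : (14/100 - t) * (200/7) + (t - 21/200) * (200/7) = 1 := by ring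
      have e2 : (21/200 * ((14/100 - t) * (200/7)) + 7/50 * ((t - 21/200) * (200/7))) = t := by ring
      rw [e1, e2] at key
      have e3 : (652/1000 + 927/1000 * t : ℝ) = 163/250 * 1 + 927/1000 * t := by ring
      refine eighth t (652/1000 + 927/1000 * t) h0 ht1 (by linarith) h8 ?_
      rw [e3]
      simpa using key
  · have e1 : (1 - t) * (50/43) + (t - 7/50) * (50/43) = 1 := by ring
    have e2 : (7/50 * ((1 - t) * (50/43)) + 1 * ((t - 7/50) * (50/43))) = t := by ring
    have h8 : (373/500 * 1 + 253/1000 * t) ^ 8 ≤ t := by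
      have key := w3 ((1 - t) * (50/43)) ((t - 7/50) * (50/43)) (by linarith) (by linarith)
      rw [e1, e2] at key
      linarith
    have key := u3 ((1 - t) * (50/43)) ((t - 7/50) * (50/43)) (by linarith) (by linarith)
    rw [e1, e2] at key
    refine eighth t (373/500 * 1 + 253/1000 * t) h0 ht1 (by linarith) h8 ?_
    simpa using key

end Pool.Agent.TH67.RP
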