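import Pool.Agent.TH67.RP.Gen
import Pool.Agent.TH67.RP.Uni

/-!
# The parameters `(32, 30, 48)`: the straight path from `1 + i` to `1`
-/

open Filter

namespace Pool.Agent.TH67.RP

/-- the inequality on the path -/
theorem line (y : ℝ) (hy0 : 0 ≤ y) (hy1 : y ≤ 1) (z : ℂ) (hz : z = 1 + (y : ℂ) * Complex.I) :
    0 < z.re ∧ 1 ≤ ‖z‖ ∧ ‖z‖ ≤ 2 ∧ ss z ≠ 0 ∧
      ‖ww z - 2‖ ^ (2 * 16) * ‖ww z - 3‖ ^ 30 ≤ (979/400000) ^ 8 * ‖ss z‖ ^ (2 * 24) := by
  have hre : z.re = 1 := by rw [hz]; simp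
  have him : z.im = y := by rw [hz]; simp
  obtain ⟨t, ht⟩ : ∃ t : ℝ, t = y ^ 2 := ⟨_, rfl⟩
  have ht0 : 0 ≤ t := by rw [ht]; positivity
  have ht1 : t ≤ 1 := by rw [ht]; exact pow_le_one₀ hy0 hy1
  have hre2 : (z ^ 2).re = 1 - t := by rw [sq, Complex.mul_re, hre, him, ht]; ring
  have him2 : (z ^ 2).im = 2 * y := by rw [sq, Complex.mul_im, hre, him]; ring
  have hE : ‖z‖ ^ 2 = 1 + t := by rw [nsq, hre, him, ht]; ring
  have hF : ‖z ^ 2 - 2‖ ^ 2 = t ^ 2 + 6 * t + 1 := by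
    rw [nsq, Complex.sub_re, Complex.sub_im, hre2, him2]
    simp
    rw [ht]
    ring
  have hP : ‖z ^ 2 - 2 * z + 2‖ ^ 2 = (1 - t) ^ 2 := by
    have a1 : (z ^ 2 - 2 * z + 2).re = 1 - t := by
      rw [Complex.add_re, Complex.sub_re, hre2, Complex.mul_re, hre, him]
      simp
    have a2 : (z ^ 2 - 2 * z + 2).im = 0 := by
      rw [Complex.add_im, Complex.sub_im, him2, Complex.mul_im, hre, him]
      simp
    rw [nsq, a1, a2]
    ring
  have hQ : ‖z ^ 2 - 3 * z + 2‖ ^ 2 = t * (1 + t) := by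
    rw [nsq, Complex.add_re, Complex.add_im, Complex.sub_re, Complex.sub_im, hre2, him2]
    simp [hre, him]
    rw [ht]
    ring
  have hz1 : 1 ≤ ‖z‖ := by
    have := Complex.abs_re_le_norm z
    rw [hre] at this
    simpa using this
  have hz2 : ‖z‖ ≤ 2 := by
    have : ‖z‖ ^ 2 ≤ 2 ^ 2 := by rw [hE]; linarith
    exact le_of_sq_le_sq this (by norm_num)
  have hn0 : 0 < ‖z‖ := by linarith
  have hz0 : z ≠ 0 := norm_pos_iff.mp hn0
  have hd : z ^ 2 - 2 ≠ 0 := by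
    intro h0
    rw [h0] at hF
    simp at hF
    nlinarith
  have es : ss z = (z ^ 2 - 2) / z := by unfold ss; field_simp
  have e2 : ww z - 2 = (z ^ 2 - 2 * z + 2) / z := by unfold ww; field_simp; ring
  have e3 : ww z - 3 = (z ^ 2 - 3 * z + 2) / z := by unfold ww; field_simp; ring
  have ht1' : 0 < 1 + t := by linarith
  have n2 : ‖ww z - 2‖ ^ 2 = (1 - t) ^ 2 / (1 + t) := by
    rw [e2, norm_div, div_pow, hP, hE]
  have n3 : ‖ww z - 3‖ ^ 2 = t := by
    rw [e3, norm_div, div_pow, hQ, hE]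
    field_simp
  have ns : ‖ss z‖ ^ 2 = (t ^ 2 + 6 * t + 1) / (1 + t) := by
    rw [es, norm_div, div_pow, hF, hE]
  refine ⟨by rw [hre]; norm_num, hz1, hz2, ?_, ?_⟩
  · rw [es]
    exact div_ne_zero hd hz0
  · rw [pow_mul, pow_mul ‖ss z‖, show (30 : ℕ) = 2 * 15 by norm_num, pow_mul ‖ww z - 3‖, n2, n3, ns]
    have key := uni t ht0 ht1
    obtain ⟨r, hr⟩ : ∃ r : ℝ, r = (979/400000) ^ 8 := ⟨_, rfl⟩
    rw [← hr] at key ⊢
    rw [div_pow, div_pow, div_mul_eq_mul_div, ← mul_div_assoc,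
      div_le_div_iff₀ (by positivity) (by positivity)]
    generalize t ^ 2 + 6 * t + 1 = A at *
    calc ((1 - t) ^ 2) ^ 16 * t ^ 15 * (1 + t) ^ 24
        = ((1 - t) ^ 32 * (1 + t) ^ 8 * t ^ 15) * (1 + t) ^ 16 := by
          generalize 1 - t = B
          generalize 1 + t = D
          ring
      _ ≤ (r * A ^ 24) * (1 + t) ^ 16 :=
          mul_le_mul_of_nonneg_right key (by positivity)
      _ = _ := by ring

theorem line' (z : ℂ) (h : z ∈ segment ℝ (1 + Complex.I) 1 ∨ z ∈ segment ℝ (1 : ℂ) 1) :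
    0 < z.re ∧ 1 ≤ ‖z‖ ∧ ‖z‖ ≤ 2 ∧ ss z ≠ 0 ∧
      ‖ww z - 2‖ ^ (2 * 16) * ‖ww z - 3‖ ^ 30 ≤ (979/400000) ^ 8 * ‖ss z‖ ^ (2 * 24) := by
  rcases h with ⟨a, b, ha, hb, hab, rfl⟩ | h
  · apply line a ha (by linarith)
    have hb1 : (b : ℂ) = 1 - a := by
      have : b = 1 - a := by linarith
      rw [this]; push_cast; ring
    simp only [Complex.real_smul]
    rw [hb1]
    ring
  · rw [segment_same, Set.mem_singleton_iff] at h
    apply line 0 le_rfl (by norm_num)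
    rw [h]; simp

theorem rho_le : ((979/400000) ^ 8 : ℝ) ≤ Real.exp (-48.1) := by
  have h2 : Real.exp 6.0125 = Real.exp 1 ^ 6 * Real.exp 0.0125 := by
    rw [← Real.exp_nat_mul, ← Real.exp_add]
    congr 1
    norm_num
  have h3 : Real.exp 0.0125 ≤ 1 / (1 - 0.0125) :=
    Real.exp_bound_div_one_sub_of_interval (by norm_num) (by norm_num)
  have h4 : Real.exp 1 ^ 6 ≤ 2.7182818286 ^ 6 :=
    pow_le_pow_left₀ (Real.exp_pos _).le Real.exp_one_lt_d9.le 6
  have h6 : Real.exp 6.0125 ≤ 2.7182818286 ^ 6 * (1 / (1 - 0.0125)) := by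
    rw [h2]
    exact mul_le_mul h4 h3 (by positivity) (by norm_num)
  have h7 : (979/400000 : ℝ) ≤ Real.exp (-6.0125) := by
    rw [Real.exp_neg, le_inv_comm₀ (by norm_num) (Real.exp_pos _)]
    refine h6.trans ?_
    norm_num
  have h8 : Real.exp (-48.1) = Real.exp (-6.0125) ^ 8 := by
    rw [← Real.exp_nat_mul]
    congr 1
    norm_num
  rw [h8]
  exact pow_le_pow_left₀ (by norm_num) h7 8

theorem M_le : (565000000000000000000 : ℝ) ≤ Real.exp 47.8 := by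
  have h1 : Real.exp 47.8 = Real.exp 1 ^ 48 * Real.exp (-0.05) ^ 4 := by
    rw [← Real.exp_nat_mul, ← Real.exp_nat_mul, ← Real.exp_add]
    congr 1
    norm_num
  have h2 : (2.7182818283 : ℝ) ^ 48 ≤ Real.exp 1 ^ 48 :=
    pow_le_pow_left₀ (by norm_num) Real.exp_one_gt_d9.le 48
  have h3 : (0.95 : ℝ) ≤ Real.exp (-0.05) := by
    have := Real.one_sub_le_exp_neg 0.05
    norm_num at this ⊢
    linarith
  have h4 : (0.95 : ℝ) ^ 4 ≤ Real.exp (-0.05) ^ 4 := pow_le_pow_left₀ (by norm_num) h3 4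
  rw [h1]
  refine le_trans ?_ (mul_le_mul h2 h4 (by norm_num) (by positivity))
  norm_num

/-- the restricted exponent for `κ = 0.998` is below `2` -/
theorem mainLow : ∀ᶠ q : ℕ in atTop, Smooth 0.998 q → ∀ p : ℤ,
    (q : ℝ) ^ (-(1.994 : ℝ)) ≤ |Real.pi - p / q| := by
  refine finalg 16 30 24 (by norm_num) (by norm_num) (by norm_num) (by norm_num) 1 ?_ ?_
    ((979/400000) ^ 8) 565000000000000000000 (227/20) 48.1 47.8 0.998 1.994 (by norm_num) line'
    (by norm_num) (by norm_num) (by norm_num) rho_le M_le (by norm_num) (by norm_num)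
    (by norm_num) (by norm_num)
  · have : (1 : ℂ) - (1 + Complex.I) = -Complex.I := by ring
    rw [this, norm_neg, Complex.norm_I]
  · simp

end Pool.Agent.TH67.RP
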