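import Pool.Agent.TH67.RP.Fin
import Pool.Agent.TH67.RP.Cert

/-!
# The parameters `(2, 3, 3)`: the path `1 + i → (10 + 4i)/9 → 1`
-/

open Filter

namespace Pool.Agent.TH67.RP

/-- scaling by `9` -/
theorem conv3 (X Y : ℝ)
    (key : 10000000 * ((((X - 9) ^ 2 + (Y - 9) ^ 2) * ((X - 9) ^ 2 + (Y + 9) ^ 2)) ^ 2 *
      (((X - 9) ^ 2 + Y ^ 2) * ((X - 18) ^ 2 + Y ^ 2)) ^ 3) ≤
      2887 * ((X ^ 2 + Y ^ 2) ^ 2 * ((X ^ 2 + Y ^ 2 + 2 * 9 ^ 2) ^ 2 - 8 * (X ^ 2 * 9 ^ 2)) ^ 3 *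
        9 ^ 4)) :
    (((X / 9 - 1) ^ 2 + (Y / 9 - 1) ^ 2) * ((X / 9 - 1) ^ 2 + (Y / 9 + 1) ^ 2)) ^ 2 *
      (((X / 9 - 1) ^ 2 + (Y / 9) ^ 2) * ((X / 9 - 2) ^ 2 + (Y / 9) ^ 2)) ^ (2 + 1) ≤
      2887 / 10000000 * (((X / 9) ^ 2 + (Y / 9) ^ 2) ^ 2 *
        (((X / 9) ^ 2 + (Y / 9) ^ 2 + 2) ^ 2 - 8 * (X / 9) ^ 2) ^ 3) := by
  have e1 : (((X / 9 - 1) ^ 2 + (Y / 9 - 1) ^ 2) * ((X / 9 - 1) ^ 2 + (Y / 9 + 1) ^ 2)) ^ 2 *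
      (((X / 9 - 1) ^ 2 + (Y / 9) ^ 2) * ((X / 9 - 2) ^ 2 + (Y / 9) ^ 2)) ^ (2 + 1) =
      10000000 * ((((X - 9) ^ 2 + (Y - 9) ^ 2) * ((X - 9) ^ 2 + (Y + 9) ^ 2)) ^ 2 *
      (((X - 9) ^ 2 + Y ^ 2) * ((X - 18) ^ 2 + Y ^ 2)) ^ 3) / (10000000 * 9 ^ 20) := by
    have a1 : X / 9 - 1 = (X - 9) / 9 := by ring
    have a2 : Y / 9 - 1 = (Y - 9) / 9 := by ring
    have a3 : Y / 9 + 1 = (Y + 9) / 9 := by ring
    have a4 : X / 9 - 2 = (X - 18) / 9 := by ring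
    rw [a1, a2, a3, a4]
    generalize X - 9 = A
    generalize Y - 9 = B
    generalize Y + 9 = D
    generalize X - 18 = E
    have b1 : (A / 9) ^ 2 + (B / 9) ^ 2 = (A ^ 2 + B ^ 2) / 9 ^ 2 := by ring
    have b2 : (A / 9) ^ 2 + (D / 9) ^ 2 = (A ^ 2 + D ^ 2) / 9 ^ 2 := by ring
    have b3 : (A / 9) ^ 2 + (Y / 9) ^ 2 = (A ^ 2 + Y ^ 2) / 9 ^ 2 := by ring
    have b4 : (E / 9) ^ 2 + (Y / 9) ^ 2 = (E ^ 2 + Y ^ 2) / 9 ^ 2 := by ring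
    rw [b1, b2, b3, b4]
    generalize A ^ 2 + B ^ 2 = P1
    generalize A ^ 2 + D ^ 2 = P2
    generalize A ^ 2 + Y ^ 2 = P3
    generalize E ^ 2 + Y ^ 2 = P4
    ring
  have e2 : 2887 / 10000000 * (((X / 9) ^ 2 + (Y / 9) ^ 2) ^ 2 *
        (((X / 9) ^ 2 + (Y / 9) ^ 2 + 2) ^ 2 - 8 * (X / 9) ^ 2) ^ 3) =
      2887 * ((X ^ 2 + Y ^ 2) ^ 2 * ((X ^ 2 + Y ^ 2 + 2 * 9 ^ 2) ^ 2 - 8 * (X ^ 2 * 9 ^ 2)) ^ 3 *
        9 ^ 4) / (10000000 * 9 ^ 20) := by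
    have b1 : (X / 9) ^ 2 + (Y / 9) ^ 2 = (X ^ 2 + Y ^ 2) / 9 ^ 2 := by ring
    rw [b1]
    have b2 : ((X ^ 2 + Y ^ 2) / 9 ^ 2 + 2) ^ 2 - 8 * (X / 9) ^ 2 =
        ((X ^ 2 + Y ^ 2 + 2 * 9 ^ 2) ^ 2 - 8 * (X ^ 2 * 9 ^ 2)) / 9 ^ 4 := by ring
    rw [b2]
    generalize (X ^ 2 + Y ^ 2 + 2 * 9 ^ 2) ^ 2 - 8 * (X ^ 2 * 9 ^ 2) = P1
    generalize X ^ 2 + Y ^ 2 = P2
    ring
  rw [e1, e2]
  exact div_le_div_of_nonneg_right key (by positivity)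

/-- the norm from the coordinates -/
theorem norm_le_two (x y : ℝ) (h : x ^ 2 + y ^ 2 ≤ 4) (z : ℂ)
    (hz : z = (x : ℂ) + (y : ℂ) * Complex.I) : ‖z‖ ≤ 2 := by
  have hre : z.re = x := by rw [hz]; simp
  have him : z.im = y := by rw [hz]; simp
  have h1 : ‖z‖ ^ 2 ≤ 2 ^ 2 := by rw [nsq, hre, him]; linarith
  exact le_of_sq_le_sq h1 (by norm_num)

theorem sq_add_le (x y : ℝ) (hx : 1 ≤ x) (hx2 : x ≤ 10 / 9) (hy : 0 ≤ y) (hy2 : y ≤ 1) :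
    x ^ 2 + y ^ 2 ≤ 4 := by
  have h1 : x ^ 2 ≤ (10 / 9) ^ 2 := pow_le_pow_left₀ (by linarith) hx2 2
  have h2 : y ^ 2 ≤ 1 ^ 2 := pow_le_pow_left₀ hy hy2 2
  have e1 : ((10 : ℝ) / 9) ^ 2 ≤ 2 := by norm_num
  have e2 : (1 : ℝ) ^ 2 = 1 := by norm_num
  linarith

/-- the vertex of the path -/
noncomputable def v3 : ℂ := (((10 / 9 : ℝ)) : ℂ) + (((4 / 9 : ℝ)) : ℂ) * Complex.I

theorem path3 (z : ℂ) (h : z ∈ segment ℝ (1 + Complex.I) v3 ∨ z ∈ segment ℝ v3 1) :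
    0 < z.re ∧ 1 ≤ ‖z‖ ∧ ‖z‖ ≤ 2 ∧ ss z ≠ 0 ∧
      ‖ww z - 2‖ ^ 4 * ‖ww z - 3‖ ^ (2 * 3) ≤ (2887 / 10000000) * ‖ss z‖ ^ 6 := by
  rcases h with ⟨a, b, ha, hb, hab, rfl⟩ | ⟨a, b, ha, hb, hab, rfl⟩
  · have key := cert1 a b ha hb
    obtain ⟨X, hX⟩ : ∃ X : ℝ, X = 9 * a + 10 * b := ⟨_, rfl⟩
    obtain ⟨Y, hY⟩ : ∃ Y : ℝ, Y = 9 * a + 4 * b := ⟨_, rfl⟩
    have c1 : 0 * a + 1 * b = X - 9 := by rw [hX]; linarith
    have c2 : 0 * a - 5 * b = Y - 9 := by rw [hY]; linarith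
    have c3 : 18 * a + 13 * b = Y + 9 := by rw [hY]; linarith
    have c4 : -9 * a - 8 * b = X - 18 := by rw [hX]; linarith
    have c5 : 9 * a + 9 * b = 9 := by linarith
    rw [c1, c2, c3, c4, c5, ← hX, ← hY] at key
    have h1 := conv3 X Y key
    have hz : a • (1 + Complex.I) + b • v3 = ((X / 9 : ℝ) : ℂ) + ((Y / 9 : ℝ) : ℂ) * Complex.I := by
      unfold v3
      rw [hX, hY]
      simp only [Complex.real_smul]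
      push_cast
      ring
    have hx : 1 ≤ X / 9 := by rw [le_div_iff₀ (by norm_num), hX]; linarith
    have hy0 : 0 < Y / 9 := by
      apply div_pos _ (by norm_num)
      rw [hY]; linarith
    have hx2 : X / 9 ≤ 10 / 9 := by rw [hX]; linarith
    have hy2 : Y / 9 ≤ 1 := by rw [hY]; linarith
    obtain ⟨p1, p2, p3, p4⟩ := coord 2 (2887 / 10000000) (X / 9) (Y / 9) (by norm_num) hx
      (fun h => absurd h hy0.ne') h1 _ hz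
    exact ⟨p1, p2, norm_le_two _ _ (sq_add_le _ _ hx hx2 hy0.le hy2) _ hz, p3, p4⟩
  · have key := cert2 a b ha hb
    obtain ⟨X, hX⟩ : ∃ X : ℝ, X = 10 * a + 9 * b := ⟨_, rfl⟩
    obtain ⟨Y, hY⟩ : ∃ Y : ℝ, Y = 4 * a + 0 * b := ⟨_, rfl⟩
    have c1 : 1 * a + 0 * b = X - 9 := by rw [hX]; linarith
    have c2 : -5 * a - 9 * b = Y - 9 := by rw [hY]; linarith
    have c3 : 13 * a + 9 * b = Y + 9 := by rw [hY]; linarith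
    have c4 : -8 * a - 9 * b = X - 18 := by rw [hX]; linarith
    have c5 : 9 * a + 9 * b = 9 := by linarith
    rw [c1, c2, c3, c4, c5, ← hX, ← hY] at key
    have h1 := conv3 X Y key
    have hz : a • v3 + b • (1 : ℂ) = ((X / 9 : ℝ) : ℂ) + ((Y / 9 : ℝ) : ℂ) * Complex.I := by
      unfold v3
      rw [hX, hY]
      simp only [Complex.real_smul]
      push_cast
      ring
    have hx : 1 ≤ X / 9 := by rw [le_div_iff₀ (by norm_num), hX]; linarith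
    have hx2 : X / 9 ≤ 10 / 9 := by rw [hX]; linarith
    have hy1 : 0 ≤ Y / 9 := by rw [hY]; positivity
    have hy2 : Y / 9 ≤ 1 := by rw [hY]; linarith
    obtain ⟨p1, p2, p3, p4⟩ := coord 2 (2887 / 10000000) (X / 9) (Y / 9) (by norm_num) hx
      (fun h => by
        have h2 : Y = 0 := by linarith
        have h3 : a = 0 := by rw [hY] at h2; linarith
        rw [hX, h3, show b = 1 by linarith]; norm_num) h1 _ hz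
    exact ⟨p1, p2, norm_le_two _ _ (sq_add_le _ _ hx hx2 hy1 hy2) _ hz, p3, p4⟩

theorem d1_3 : ‖v3 - (1 + Complex.I)‖ ≤ 1 := by
  have h : v3 - (1 + Complex.I) = ((1 / 9 : ℝ) : ℂ) + ((-5 / 9 : ℝ) : ℂ) * Complex.I := by
    unfold v3; push_cast; ring
  have h1 : ‖v3 - (1 + Complex.I)‖ ^ 2 ≤ 1 ^ 2 := by
    rw [nsq, h]; simp; norm_num
  exact le_of_sq_le_sq h1 (by norm_num)

theorem d2_3 : ‖1 - v3‖ ≤ 1 := by
  have h : 1 - v3 = ((-1 / 9 : ℝ) : ℂ) + ((-4 / 9 : ℝ) : ℂ) * Complex.I := by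
    unfold v3; push_cast; ring
  have h1 : ‖1 - v3‖ ^ 2 ≤ 1 ^ 2 := by
    rw [nsq, h]; simp; norm_num
  exact le_of_sq_le_sq h1 (by norm_num)

theorem rho3_le : (2887 / 10000000 : ℝ) ≤ Real.exp (-8.14) := by
  have h2 : Real.exp 8.14 = Real.exp 1 ^ 8 * Real.exp 0.07 ^ 2 := by
    rw [← Real.exp_nat_mul, ← Real.exp_nat_mul, ← Real.exp_add]
    congr 1
    norm_num
  have h3 : Real.exp 0.07 ≤ 1 / (1 - 0.07) :=
    Real.exp_bound_div_one_sub_of_interval (by norm_num) (by norm_num)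
  have h4 : Real.exp 1 ^ 8 ≤ 2.7182818286 ^ 8 :=
    pow_le_pow_left₀ (Real.exp_pos _).le Real.exp_one_lt_d9.le 8
  have h5 : Real.exp 0.07 ^ 2 ≤ (1 / (1 - 0.07)) ^ 2 := pow_le_pow_left₀ (Real.exp_pos _).le h3 2
  have h6 : Real.exp 8.14 ≤ 2.7182818286 ^ 8 * (1 / (1 - 0.07)) ^ 2 := by
    rw [h2]
    exact mul_le_mul h4 h5 (by positivity) (by norm_num)
  rw [Real.exp_neg, le_inv_comm₀ (by norm_num) (Real.exp_pos _)]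
  refine h6.trans ?_
  norm_num

theorem M3_le : (98000 : ℝ) ≤ Real.exp 11.5 := by
  have h1 : Real.exp 11.5 ^ 2 = Real.exp 1 ^ 23 := by
    rw [← Real.exp_nat_mul, ← Real.exp_nat_mul]
    congr 1
    norm_num
  have h2 : (2.7182818283 : ℝ) ^ 23 ≤ Real.exp 1 ^ 23 :=
    pow_le_pow_left₀ (by norm_num) Real.exp_one_gt_d9.le 23
  refine le_of_sq_le_sq ?_ (Real.exp_pos _).le
  rw [h1]
  refine le_trans ?_ h2
  norm_num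

/-- the restricted exponent for `c = 0.74` -/
theorem main3 : ∀ᶠ q : ℕ in atTop, Smooth 0.74 q → ∀ p : ℤ,
    (q : ℝ) ^ (-(2.42 : ℝ)) ≤ |Real.pi - p / q| :=
  final 3 (by norm_num) le_rfl v3 d1_3 d2_3 (2887 / 10000000) 98000 (13 / 2) 8.14 11.5 0.74 2.42
    (by norm_num) path3 (by norm_num) (by norm_num) (by norm_num) rho3_le M3_le (by norm_num)
    (by norm_num) (by norm_num) (by norm_num)

end Pool.Agent.TH67.RP
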