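import Mathlib
set_option linter.style.longLine false

/-! # One-variable certificates, parameters `(16, 18, 24)` -/

namespace Pool.Agent.TH67.RP

lemma x1 (a b : ℝ) (ha : 0 ≤ a) (hb : 0 ≤ b) :
    ((a + b) - (0*a + 17/100*b))^4 * ((a + b) + (0*a + 17/100*b)) * (0*a + 17/100*b)^2 * (2409/5000*(a + b) + 9431/10000*(0*a + 17/100*b)) ≤
      12021/10000000 * (((0*a + 17/100*b)^2 + 6*((0*a + 17/100*b)*(a + b)) + (a + b)^2)^3 * (a + b)^2) := by
  rw [← sub_nonneg]
  have e : 12021/10000000 * (((0*a + 17/100*b)^2 + 6*((0*a + 17/100*b)*(a + b)) + (a + b)^2)^3 * (a + b)^2) -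
      ((a + b) - (0*a + 17/100*b))^4 * ((a + b) + (0*a + 17/100*b)) * (0*a + 17/100*b)^2 * (2409/5000*(a + b) + 9431/10000*(0*a + 17/100*b)) =
      12021/10000000*(a^8*b^0) + 6647613/500000000*(a^7*b^1) + 4933997859/100000000000*(a^6*b^2) + 220284541499/2500000000000*(a^5*b^3) + 83325010104451/1000000000000000*(a^4*b^4) + 2027228881606173/50000000000000000*(a^3*b^5) + 82524945910208749/10000000000000000000*(a^2*b^6) + 31552491535007/156250000000000000*(a^1*b^7) + 3531500839136919/100000000000000000000*(a^0*b^8) := by ring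
  rw [e]
  positivity

lemma x2 (a b : ℝ) (ha : 0 ≤ a) (hb : 0 ≤ b) :
    ((a + b) - (17/100*a + 1*b))^4 * ((a + b) + (17/100*a + 1*b)) * (17/100*a + 1*b)^2 * (2409/5000*(a + b) + 9431/10000*(17/100*a + 1*b)) ≤
      12021/10000000 * (((17/100*a + 1*b)^2 + 6*((17/100*a + 1*b)*(a + b)) + (a + b)^2)^3 * (a + b)^2) := by
  rw [← sub_nonneg]
  have e : 12021/10000000 * (((17/100*a + 1*b)^2 + 6*((17/100*a + 1*b)*(a + b)) + (a + b)^2)^3 * (a + b)^2) -
      ((a + b) - (17/100*a + 1*b))^4 * ((a + b) + (17/100*a + 1*b)) * (17/100*a + 1*b)^2 * (2409/5000*(a + b) + 9431/10000*(17/100*a + 1*b)) =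
      3531500839136919/100000000000000000000*(a^8*b^0) + 422475118003663/625000000000000000*(a^7*b^1) + 1903361907776788149/10000000000000000000*(a^6*b^2) + 746257987910763/390625000000000*(a^5*b^3) + 825137230977757/125000000000000*(a^4*b^4) + 801060098211/78125000000*(a^3*b^5) + 12400899663/1562500000*(a^2*b^6) + 6623571/1953125*(a^1*b^7) + 48084/78125*(a^0*b^8) := by ring
  rw [e]
  positivity

/-- weighted arithmetic and geometric means -/
theorem amgm4 (u v : ℝ) (hu : 0 ≤ u) (hv : 0 ≤ v) : 256 * (u ^ 3 * v) ≤ (3 * u + v) ^ 4 := by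
  have h : (3 * u + v) ^ 4 - 256 * (u ^ 3 * v) = (v - u) ^ 2 * (v ^ 2 + 14 * (u * v) + 81 * u ^ 2) := by
    ring
  have h2 : 0 ≤ (v - u) ^ 2 * (v ^ 2 + 14 * (u * v) + 81 * u ^ 2) := by positivity
  linarith

theorem lin4 (t : ℝ) (ht : 0 ≤ t) : t ≤ (2409/5000 + 9431/10000 * t) ^ 4 := by
  have h := amgm4 (803/5000) (9431/10000 * t) (by norm_num) (by positivity)
  have e : 3 * (803/5000) + 9431/10000 * t = 2409/5000 + 9431/10000 * t := by ring
  rw [e] at h
  refine le_trans ?_ h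
  have e2 : 256 * ((803/5000) ^ 3 * (9431/10000 * t)) = (256 * (803/5000) ^ 3 * (9431/10000)) * t := by ring
  rw [e2]
  have h3 : (1 : ℝ) ≤ 256 * (803/5000) ^ 3 * (9431/10000) := by norm_num
  nlinarith

theorem uniB0 (t : ℝ) (ht0 : 0 ≤ t) (ht1 : t ≤ 1) :
    (1 - t) ^ 4 * (1 + t) * t ^ 2 * (2409/5000 + 9431/10000 * t) ≤ 12021/10000000 * (t ^ 2 + 6 * t + 1) ^ 3 := by
  rcases le_total t (17/100) with c0 | c0
  · have key := x1 (1 - t * (100/17)) (t * (100/17)) (by linarith) (by linarith)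
    have e1 : (1 - t * (100/17)) + t * (100/17) = 1 := by ring
    have e2 : (0 * (1 - t * (100/17)) + 17/100 * (t * (100/17))) = t := by ring
    rw [e1, e2] at key
    simpa using key
  · have key := x2 ((1 - t) * (100/83)) ((t - 17/100) * (100/83)) (by linarith) (by linarith)
    have e1 : (1 - t) * (100/83) + (t - 17/100) * (100/83) = 1 := by ring
    have e2 : (17/100 * ((1 - t) * (100/83)) + 1 * ((t - 17/100) * (100/83))) = t := by ring
    rw [e1, e2] at key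
    simpa using key

theorem uniB (t : ℝ) (ht0 : 0 ≤ t) (ht1 : t ≤ 1) :
    (1 - t) ^ 16 * (1 + t) ^ 4 * t ^ 9 ≤ (12021/10000000) ^ 4 * (t ^ 2 + 6 * t + 1) ^ 12 := by
  have h := uniB0 t ht0 ht1
  have h1 : 0 ≤ 1 - t := by linarith
  have h0 : 0 ≤ (1 - t) ^ 4 * (1 + t) * t ^ 2 * (2409/5000 + 9431/10000 * t) := by positivity
  have h2 := pow_le_pow_left₀ h0 h 4
  have h3 := lin4 t ht0
  have h4 : 0 ≤ ((1 - t) ^ 4 * (1 + t) * t ^ 2) ^ 4 := by positivity
  generalize t ^ 2 + 6 * t + 1 = A at *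
  calc (1 - t) ^ 16 * (1 + t) ^ 4 * t ^ 9 = ((1 - t) ^ 4 * (1 + t) * t ^ 2) ^ 4 * t := by
        generalize 1 - t = B
        generalize 1 + t = D
        ring
    _ ≤ ((1 - t) ^ 4 * (1 + t) * t ^ 2) ^ 4 * (2409/5000 + 9431/10000 * t) ^ 4 := mul_le_mul_of_nonneg_left h3 h4
    _ = ((1 - t) ^ 4 * (1 + t) * t ^ 2 * (2409/5000 + 9431/10000 * t)) ^ 4 := (mul_pow _ _ 4).symm
    _ ≤ (12021/10000000 * A ^ 3) ^ 4 := h2
    _ = _ := by rw [mul_pow, ← pow_mul]

end Pool.Agent.TH67.RP
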