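import Pool.Agent.TH67.RP.FinR
import Pool.Agent.TH67.RP.Low
import Pool.Agent.TH67.RP.UniB
import Pool.Agent.TH67.RP.Par3

/-!
# Three sets of parameters
-/

open Filter

namespace Pool.Agent.TH67.RP

/-- the inequality on the segment from `1 + i` to `1` -/
theorem lineg (a b c : ℕ) (hac : a ≤ c) (ρ : ℝ)
    (huni : ∀ t : ℝ, 0 ≤ t → t ≤ 1 →
      (1 - t) ^ (2 * a) * (1 + t) ^ (c - a) * t ^ b ≤ ρ * (t ^ 2 + 6 * t + 1) ^ c)
    (y : ℝ) (hy0 : 0 ≤ y) (hy1 : y ≤ 1) (z : ℂ) (hz : z = 1 + (y : ℂ) * Complex.I) :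
    0 < z.re ∧ 1 ≤ ‖z‖ ∧ ‖z‖ ≤ 2 ∧ ss z ≠ 0 ∧
      ‖ww z - 2‖ ^ (2 * a) * ‖ww z - 3‖ ^ (2 * b) ≤ ρ * ‖ss z‖ ^ (2 * c) := by
  have hre : z.re = 1 := by rw [hz]; simp
  have him : z.im = y := by rw [hz]; simp
  obtain ⟨t, ht⟩ : ∃ t : ℝ, t = y ^ 2 := ⟨_, rfl⟩
  have ht0 : 0 ≤ t := by rw [ht]; positivity
  have ht1 : t ≤ 1 := by rw [ht]; exact pow_le_one₀ hy0 hy1
  have hre2 : (z ^ 2).re = 1 - t := by rw [sq, Complex.mul_re, hre, him, ht]; ring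
  have him2 : (z ^ 2).im = 2 * y := by rw [sq, Complex.mul_im, hre, him]; ring
  have hE : ‖z‖ ^ 2 = 1 + t := by rw [nsq, hre, him, ht]; ring
  have hF : ‖z ^ 2 - 2‖ ^ 2 = t ^ 2 + 6 * t + 1 := by
    rw [nsq, Complex.sub_re, Complex.sub_im, hre2, him2]
    simp
    rw [ht]
    ring
  have hP : ‖z ^ 2 - 2 * z + 2‖ ^ 2 = (1 - t) ^ 2 := by
    have a1 : (z ^ 2 - 2 * z + 2).re = 1 - t := by
      rw [Complex.add_re, Complex.sub_re, hre2, Complex.mul_re, hre, him]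
      simp
    have a2 : (z ^ 2 - 2 * z + 2).im = 0 := by
      rw [Complex.add_im, Complex.sub_im, him2, Complex.mul_im, hre, him]
      simp
    rw [nsq, a1, a2]
    ring
  have hQ : ‖z ^ 2 - 3 * z + 2‖ ^ 2 = t * (1 + t) := by
    rw [nsq, Complex.add_re, Complex.add_im, Complex.sub_re, Complex.sub_im, hre2, him2]
    simp [hre, him]
    rw [ht]
    ring
  have hz1 : 1 ≤ ‖z‖ := by
    have := Complex.abs_re_le_norm z
    rw [hre] at this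
    simpa using this
  have hz2 : ‖z‖ ≤ 2 := by
    have : ‖z‖ ^ 2 ≤ 2 ^ 2 := by rw [hE]; linarith
    exact le_of_sq_le_sq this (by norm_num)
  have hn0 : 0 < ‖z‖ := by linarith
  have hz0 : z ≠ 0 := norm_pos_iff.mp hn0
  have hd : z ^ 2 - 2 ≠ 0 := by
    intro h0
    rw [h0] at hF
    simp at hF
    nlinarith
  have es : ss z = (z ^ 2 - 2) / z := by unfold ss; field_simp
  have e2 : ww z - 2 = (z ^ 2 - 2 * z + 2) / z := by unfold ww; field_simp; ring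
  have e3 : ww z - 3 = (z ^ 2 - 3 * z + 2) / z := by unfold ww; field_simp; ring
  have ht1' : 0 < 1 + t := by linarith
  have n2 : ‖ww z - 2‖ ^ 2 = (1 - t) ^ 2 / (1 + t) := by
    rw [e2, norm_div, div_pow, hP, hE]
  have n3 : ‖ww z - 3‖ ^ 2 = t := by
    rw [e3, norm_div, div_pow, hQ, hE]
    field_simp
  have ns : ‖ss z‖ ^ 2 = (t ^ 2 + 6 * t + 1) / (1 + t) := by
    rw [es, norm_div, div_pow, hF, hE]
  refine ⟨by rw [hre]; norm_num, hz1, hz2, ?_, ?_⟩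
  · rw [es]
    exact div_ne_zero hd hz0
  · rw [pow_mul, pow_mul ‖ss z‖, pow_mul ‖ww z - 3‖, n2, n3, ns]
    have key := huni t ht0 ht1
    rw [div_pow, div_pow, div_mul_eq_mul_div, ← mul_div_assoc,
      div_le_div_iff₀ (by positivity) (by positivity)]
    generalize t ^ 2 + 6 * t + 1 = A at *
    obtain ⟨d, hd⟩ : ∃ d, c = a + d := ⟨c - a, by omega⟩
    rw [hd, Nat.add_sub_cancel_left] at key
    rw [hd]
    calc ((1 - t) ^ 2) ^ a * t ^ b * (1 + t) ^ (a + d)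
        = ((1 - t) ^ (2 * a) * (1 + t) ^ d * t ^ b) * (1 + t) ^ a := by
          rw [← pow_mul, pow_add]; ring
      _ ≤ (ρ * A ^ (a + d)) * (1 + t) ^ a :=
          mul_le_mul_of_nonneg_right key (by positivity)
      _ = _ := by ring

theorem lineg' (a b c : ℕ) (hac : a ≤ c) (ρ : ℝ)
    (huni : ∀ t : ℝ, 0 ≤ t → t ≤ 1 →
      (1 - t) ^ (2 * a) * (1 + t) ^ (c - a) * t ^ b ≤ ρ * (t ^ 2 + 6 * t + 1) ^ c)
    (z : ℂ) (h : z ∈ segment ℝ (1 + Complex.I) 1 ∨ z ∈ segment ℝ (1 : ℂ) 1) :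
    0 < z.re ∧ 1 ≤ ‖z‖ ∧ ‖z‖ ≤ 2 ∧ ss z ≠ 0 ∧
      ‖ww z - 2‖ ^ (2 * a) * ‖ww z - 3‖ ^ (2 * b) ≤ ρ * ‖ss z‖ ^ (2 * c) := by
  rcases h with ⟨s, r, hs, hr, hsr, rfl⟩ | h
  · apply lineg a b c hac ρ huni s hs (by linarith)
    have hb1 : (r : ℂ) = 1 - s := by
      have : r = 1 - s := by linarith
      rw [this]; push_cast; ring
    simp only [Complex.real_smul]
    rw [hb1]
    ring
  · rw [segment_same, Set.mem_singleton_iff] at h
    apply lineg a b c hac ρ huni 0 le_rfl (by norm_num)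
    rw [h]; simp

theorem rhoB_le : ((12021/10000000) ^ 4 : ℝ) ≤ Real.exp (-26.89) := by
  have h3 : 1.31981 ≤ Real.exp 0.2775 := by
    have h := Real.sum_le_exp_of_nonneg (x := 0.2775) (by norm_num) 5
    refine le_trans ?_ h
    simp only [Finset.sum_range_succ, Finset.sum_range_zero, Nat.factorial]
    norm_num
  have h4 : Real.exp 1 ^ 7 ≤ 2.7182818286 ^ 7 :=
    pow_le_pow_left₀ (Real.exp_pos _).le Real.exp_one_lt_d9.le 7
  have h2 : Real.exp 6.7225 * Real.exp 0.2775 = Real.exp 1 ^ 7 := by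
    rw [← Real.exp_nat_mul, ← Real.exp_add]
    congr 1
    norm_num
  have h6 : Real.exp 6.7225 ≤ 2.7182818286 ^ 7 / 1.31981 := by
    rw [le_div_iff₀ (by norm_num)]
    calc Real.exp 6.7225 * 1.31981 ≤ Real.exp 6.7225 * Real.exp 0.2775 :=
          mul_le_mul_of_nonneg_left h3 (Real.exp_pos _).le
      _ = Real.exp 1 ^ 7 := h2
      _ ≤ _ := h4
  have h7 : (12021/10000000 : ℝ) ≤ Real.exp (-6.7225) := by
    rw [Real.exp_neg, le_inv_comm₀ (by norm_num) (Real.exp_pos _)]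
    refine h6.trans ?_
    norm_num
  have h8 : Real.exp (-26.89) = Real.exp (-6.7225) ^ 4 := by
    rw [← Real.exp_nat_mul]
    congr 1
    norm_num
  rw [h8]
  exact pow_le_pow_left₀ (by norm_num) h7 4

theorem MB_le : (53500000000000 : ℝ) ≤ Real.exp 31.65 := by
  have h1 : Real.exp 31.65 = Real.exp 1 ^ 32 * Real.exp (-0.05) ^ 7 := by
    rw [← Real.exp_nat_mul, ← Real.exp_nat_mul, ← Real.exp_add]
    congr 1
    norm_num
  have h2 : (2.7182818283 : ℝ) ^ 32 ≤ Real.exp 1 ^ 32 :=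
    pow_le_pow_left₀ (by norm_num) Real.exp_one_gt_d9.le 32
  have h3 : (0.95 : ℝ) ≤ Real.exp (-0.05) := by
    have := Real.one_sub_le_exp_neg 0.05
    norm_num at this ⊢
    linarith
  have h4 : (0.95 : ℝ) ^ 7 ≤ Real.exp (-0.05) ^ 7 := pow_le_pow_left₀ (by norm_num) h3 7
  rw [h1]
  refine le_trans ?_ (mul_le_mul h2 h4 (by norm_num) (by positivity))
  norm_num

theorem one_sub : ‖(1 : ℂ) - (1 + Complex.I)‖ ≤ 1 := by
  have : (1 : ℂ) - (1 + Complex.I) = -Complex.I := by ring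
  rw [this, norm_neg, Complex.norm_I]

/-- parameters `(32, 30, 48)` -/
theorem mainA (κ δ μ : ℝ) (hκ : 0 < κ) (hδ : 0 ≤ δ) (h1 : 48 * (1 + δ) < 48.1 * κ)
    (h2 : 47.8 * κ / 48 + δ < μ - 1) :
    ∀ᶠ q : ℕ in atTop, (miss ⌊κ * Real.log q⌋₊ q : ℝ) ≤ (q : ℝ) ^ δ →
      ∀ p : ℤ, (q : ℝ) ^ (-μ) ≤ |Real.pi - p / q| :=
  finalr 16 30 24 (by norm_num) (by norm_num) (by norm_num) (by norm_num) 1 one_sub (by simp)
    ((979/400000) ^ 8) 565000000000000000000 (227/20) 48.1 47.8 κ δ μ (by norm_num) line'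
    (by norm_num) (by norm_num) (by norm_num) rho_le M_le (by norm_num) hκ hδ
    (by push_cast; linarith) (by push_cast; norm_num at h2 ⊢; linarith)

/-- parameters `(16, 18, 24)` -/
theorem mainB (κ δ μ : ℝ) (hκ : 0 < κ) (hδ : 0 ≤ δ) (h1 : 24 * (1 + δ) < 26.89 * κ)
    (h2 : 31.65 * κ / 24 + δ < μ - 1) :
    ∀ᶠ q : ℕ in atTop, (miss ⌊κ * Real.log q⌋₊ q : ℝ) ≤ (q : ℝ) ^ δ →
      ∀ p : ℤ, (q : ℝ) ^ (-μ) ≤ |Real.pi - p / q| :=
  finalr 8 18 12 (by norm_num) (by norm_num) (by norm_num) (by norm_num) 1 one_sub (by simp)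
    ((12021/10000000) ^ 4) 53500000000000 (35/4) 26.89 31.65 κ δ μ (by norm_num)
    (lineg' 8 9 12 (by norm_num) _ (fun t h0 h1 => uniB t h0 h1))
    (by norm_num) (by norm_num) (by norm_num) rhoB_le MB_le (by norm_num) hκ hδ
    (by push_cast; linarith) (by push_cast; norm_num at h2 ⊢; linarith)

/-- parameters `(4, 6, 6)` -/
theorem mainC (κ δ μ : ℝ) (hκ : 0 < κ) (hδ : 0 ≤ δ) (h1 : 6 * (1 + δ) < 8.14 * κ)
    (h2 : 11.5 * κ / 6 + δ < μ - 1) :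
    ∀ᶠ q : ℕ in atTop, (miss ⌊κ * Real.log q⌋₊ q : ℝ) ≤ (q : ℝ) ^ δ →
      ∀ p : ℤ, (q : ℝ) ^ (-μ) ≤ |Real.pi - p / q| :=
  finalr 2 6 3 (by norm_num) (by norm_num) (by norm_num) (by norm_num) v3 d1_3 d2_3
    (2887 / 10000000) 98000 (13 / 2) 8.14 11.5 κ δ μ (by norm_num) path3
    (by norm_num) (by norm_num) (by norm_num) rho3_le M3_le (by norm_num) hκ hδ
    (by push_cast; linarith) (by push_cast; norm_num at h2 ⊢; linarith)

end Pool.Agent.TH67.RP
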