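import Pool.Agent.TH67.RP.Conv
import Pool.Agent.TH67.RP.Low2

/-!
# Convergents of `π`: primes that do not divide the denominators
-/

open Filter Topology

namespace Pool.Agent.TH67.RP

/-- good approximations with such denominators are finite in number -/
theorem finite_close' (P : ℕ → Prop) (μ : ℝ) (hμ : μ < 2)
    (h : ∀ᶠ q : ℕ in atTop, P q → ∀ p : ℤ, (q : ℝ) ^ (-μ) ≤ |Real.pi - p / q|) :
    {r : ℚ | |Real.pi - (r : ℝ)| ≤ 1 / (r.den : ℝ) ^ 2 ∧ P r.den}.Finite := by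
  obtain ⟨N, hN⟩ := eventually_atTop.mp h
  refine (finite_bdd (max N 2)).subset ?_
  rintro r ⟨h1, h2⟩
  have hd0 : (0 : ℝ) < r.den := by exact_mod_cast r.den_pos
  have hd1 : (1 : ℝ) ≤ r.den := by exact_mod_cast r.den_pos
  refine ⟨?_, ?_⟩
  · by_contra hcon
    push Not at hcon
    have hd2 : (2 : ℝ) ≤ r.den := by
      have : 2 ≤ r.den := le_trans (le_max_right _ _) hcon
      exact_mod_cast this
    have h3 := hN r.den (le_trans (le_max_left _ _) hcon) h2 r.num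
    have hr : (r : ℝ) = (r.num : ℝ) / r.den := by exact_mod_cast (Rat.num_div_den r).symm
    rw [← hr] at h3
    have h4 : 1 / (r.den : ℝ) ^ 2 = (r.den : ℝ) ^ (-2 : ℝ) := by
      rw [Real.rpow_neg hd0.le, one_div]
      norm_num
    have h5 : (r.den : ℝ) ^ (-2 : ℝ) < (r.den : ℝ) ^ (-μ) :=
      Real.rpow_lt_rpow_of_exponent_lt (by linarith) (by linarith)
    rw [h4] at h1
    linarith
  · refine h1.trans ?_
    rw [div_le_one (by positivity)]
    exact one_le_pow₀ hd1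

/-- only finitely many convergents of `π` have such a denominator -/
theorem finite_conv' (P : ℕ → Prop) (μ : ℝ) (hμ : μ < 2)
    (h : ∀ᶠ q : ℕ in atTop, P q → ∀ p : ℤ, (q : ℝ) ^ (-μ) ≤ |Real.pi - p / q|) :
    {n : ℕ | P (Real.pi.convergent n).den}.Finite := by
  have hfin := finite_close' P μ hμ h
  obtain ⟨S, hS⟩ : ∃ S : Set ℚ, S =
    {r : ℚ | |Real.pi - (r : ℝ)| ≤ 1 / (r.den : ℝ) ^ 2 ∧ P r.den} := ⟨_, rfl⟩
  rw [← hS] at hfin
  have hcl : IsClosed ((fun r : ℚ => (r : ℝ)) '' S) := (hfin.image _).isClosed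
  have hpi : Real.pi ∈ ((fun r : ℚ => (r : ℝ)) '' S)ᶜ := by
    rintro ⟨r, -, hr⟩
    exact irrational_pi ⟨r, hr⟩
  have ht : Tendsto (fun n => (Real.pi.convergent n : ℝ)) atTop (𝓝 Real.pi) := by
    have h1 := GenContFract.of_convergence Real.pi
    refine h1.congr fun n => ?_
    exact Real.convs_eq_convergent Real.pi n
  have hev := ht.eventually (hcl.isOpen_compl.mem_nhds hpi)
  obtain ⟨N, hN⟩ := eventually_atTop.mp hev
  refine (Set.finite_Iio N).subset ?_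
  intro n hn
  by_contra hcon
  have hcon' : N ≤ n := by simpa using hcon
  apply hN n hcon'
  refine ⟨Real.pi.convergent n, ?_, rfl⟩
  rw [hS]
  exact ⟨convergent_close _ irrational_pi n, hn⟩

/-- every prime up to `κ log q` divides `q` -/
def PSmooth (κ : ℝ) (q : ℕ) : Prop := ∀ p : ℕ, p.Prime → (p : ℝ) ≤ κ * Real.log q → p ∣ q

theorem miss_eq_one (κ : ℝ) (q : ℕ) (hq : 1 ≤ q) (hκ : 0 < κ) (h : PSmooth κ q) :
    miss ⌊κ * Real.log q⌋₊ q = 1 := by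
  unfold miss
  apply Finset.prod_eq_one
  intro p hp
  exfalso
  obtain ⟨h1, h2, h3⟩ := Finset.mem_filter.mp hp
  have hp1 : p ≤ ⌊κ * Real.log q⌋₊ := by have := Finset.mem_range.mp h1; omega
  have h0 : 0 ≤ κ * Real.log q := mul_nonneg hκ.le (Real.log_nonneg (by exact_mod_cast hq))
  exact h3 (h p h2 ((Nat.le_floor_iff h0).mp hp1))

/-- from the product condition to the divisibility condition -/
theorem psmooth_of_miss (κ μ : ℝ) (hκ : 0 < κ)
    (h : ∀ᶠ q : ℕ in atTop, (miss ⌊κ * Real.log q⌋₊ q : ℝ) ≤ (q : ℝ) ^ (0 : ℝ) →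
      ∀ p : ℤ, (q : ℝ) ^ (-μ) ≤ |Real.pi - p / q|) :
    ∀ᶠ q : ℕ in atTop, PSmooth κ q → ∀ p : ℤ, (q : ℝ) ^ (-μ) ≤ |Real.pi - p / q| := by
  filter_upwards [h, eventually_ge_atTop 1] with q hq h1 hs p
  apply hq
  rw [miss_eq_one κ q h1 hκ hs, Real.rpow_zero]
  norm_num

theorem countP (c κ : ℝ) (hc : 0 < c) (hκ : κ < 1 - c) (hκ0 : 0 < κ) :
    ∀ᶠ X : ℕ in atTop, (X : ℝ) ^ κ ≤ ({q : ℕ | 1 ≤ q ∧ q ≤ X ∧ PSmooth c q}.ncard : ℝ) := by
  filter_upwards [count c κ hc hκ hκ0] with X hX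
  refine hX.trans ?_
  have hfin : {q : ℕ | 1 ≤ q ∧ q ≤ X ∧ PSmooth c q}.Finite :=
    (Set.finite_Iic X).subset fun q hq => hq.2.1
  have hsub : {q : ℕ | 1 ≤ q ∧ q ≤ X ∧ Smooth c q} ⊆ {q : ℕ | 1 ≤ q ∧ q ≤ X ∧ PSmooth c q} :=
    fun q hq => ⟨hq.1, hq.2.1, fun p hp hp2 => hq.2.2 p hp.one_lt.le hp2⟩
  exact_mod_cast Set.ncard_le_ncard hsub hfin

end Pool.Agent.TH67.RP
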