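import Pool.Agent.TH67.RP.Step
import Pool.Agent.Helper799.PNT

/-!
# From the main inequality to the restricted irrationality exponent
-/

open Filter Topology

namespace Pool.Agent.TH67.RP

/-- every positive integer up to `c log q` divides `q` -/
def Smooth (c : ℝ) (q : ℕ) : Prop := ∀ j : ℕ, 1 ≤ j → (j : ℝ) ≤ c * Real.log q → j ∣ q

theorem sq_le_exp (C ε : ℝ) (hε : 0 < ε) : ∀ᶠ x : ℝ in atTop, C * x ^ 2 ≤ Real.exp (ε * x) := by
  have h := isLittleO_pow_exp_pos_mul_atTop 2 hε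
  have h2 := h.bound (show (0 : ℝ) < 1 / (|C| + 1) by positivity)
  filter_upwards [h2] with x hx
  rw [Real.norm_of_nonneg (by positivity), Real.norm_of_nonneg (Real.exp_pos _).le,
    div_mul_eq_mul_div, one_mul, le_div_iff₀ (by positivity)] at hx
  have h3 : C ≤ |C| + 1 := by linarith [le_abs_self C]
  nlinarith [sq_nonneg x]

/-- the restricted exponent -/
theorem final (B : ℕ) (hB1 : 1 ≤ B) (hB3 : B ≤ 3) (v : ℂ)
    (d1 : ‖v - (1 + Complex.I)‖ ≤ 1) (d2 : ‖1 - v‖ ≤ 1) (ρ M R τ σ c μ : ℝ) (hρ : 0 ≤ ρ)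
    (hpath : ∀ z : ℂ, (z ∈ segment ℝ (1 + Complex.I) v ∨ z ∈ segment ℝ v 1) →
      0 < z.re ∧ 1 ≤ ‖z‖ ∧ ‖z‖ ≤ 2 ∧ ss z ≠ 0 ∧
        ‖ww z - 2‖ ^ 4 * ‖ww z - 3‖ ^ (2 * B) ≤ ρ * ‖ss z‖ ^ 6)
    (hR : 2 ≤ R) (hM : (R + 2 / R + 2) ^ 4 * (R + 2 / R + 3) ^ (2 * B) ≤ M * (R - 2 / R) ^ 6)
    (hM0 : 0 ≤ M) (hρτ : ρ ≤ Real.exp (-τ)) (hMσ : M ≤ Real.exp σ) (hσ : 0 ≤ σ) (hc : 0 < c)
    (hτ : 6 < τ * c) (hμ : σ * c / 6 < μ - 1) :
    ∀ᶠ q : ℕ in atTop, Smooth c q → ∀ p : ℤ, (q : ℝ) ^ (-μ) ≤ |Real.pi - p / q| := by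
  have hR0 : 0 < R := by linarith
  obtain ⟨ε, hε⟩ : ∃ ε : ℝ, ε = τ * c / 6 - 1 := ⟨_, rfl⟩
  obtain ⟨η, hη⟩ : ∃ η : ℝ, η = μ - 1 - σ * c / 6 := ⟨_, rfl⟩
  have hε0 : 0 < ε := by rw [hε]; linarith
  have hη0 : 0 < η := by rw [hη]; linarith
  have hτ0 : 0 < τ := by
    by_contra hneg
    push Not at hneg
    nlinarith
  obtain ⟨K1, hK1⟩ : ∃ K1 : ℝ, K1 = 2 * (900 * c ^ 2) * 512 * Real.exp τ := ⟨_, rfl⟩
  obtain ⟨K2, hK2⟩ : ∃ K2 : ℝ, K2 = 2 * (900 * c ^ 2) * (R + 2 / R) ^ 3 := ⟨_, rfl⟩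
  have hlog : Tendsto (fun q : ℕ => Real.log q) atTop atTop :=
    Real.tendsto_log_atTop.comp tendsto_natCast_atTop_atTop
  have e1 := hlog.eventually (sq_le_exp K1 ε hε0)
  have e2 := hlog.eventually (sq_le_exp K2 η hη0)
  have e3 := hlog.eventually (eventually_ge_atTop (18 / c))
  filter_upwards [e1, e2, e3, eventually_gt_atTop 0] with q h1 h2 h3 hq hs p
  obtain ⟨L, hL⟩ : ∃ L : ℝ, L = Real.log q := ⟨_, rfl⟩
  rw [← hL] at h1 h2 h3
  have hqR : (0 : ℝ) < q := by exact_mod_cast hq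
  have hqe : (q : ℝ) = Real.exp L := by rw [hL, Real.exp_log hqR]
  have hL0 : 0 < L := lt_of_lt_of_le (by positivity) h3
  have hcL : 18 ≤ c * L := by
    rw [div_le_iff₀ hc] at h3
    linarith
  obtain ⟨ν, hν⟩ : ∃ ν : ℕ, ν = ⌊c * L / 6⌋₊ := ⟨_, rfl⟩
  have hν1 : (ν : ℝ) ≤ c * L / 6 := by rw [hν]; exact Nat.floor_le (by positivity)
  have hν2 : c * L / 6 < ν + 1 := by rw [hν]; exact Nat.lt_floor_add_one _
  have hν3 : 2 ≤ ν := by
    have h4 : (3 : ℝ) < (ν : ℝ) + 1 := by linarith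
    have h5 : (2 : ℝ) < (ν : ℝ) := by linarith
    have h6 : 2 < ν := by exact_mod_cast h5
    omega
  have hdvd : Nat.lcmUpto (6 * ν) ∣ q := by
    apply lcmUpto_dvd
    intro j hj1 hj2
    apply hs j hj1
    rw [← hL]
    have : (j : ℝ) ≤ ((6 * ν : ℕ) : ℝ) := by exact_mod_cast hj2
    push_cast at this
    linarith
  have key := step B ν hB1 hB3 hν3 v d1 d2 ρ M R hρ hpath hR hM q hq hdvd p
  have hκ := kap'_le (3 * ν) (by omega)
  have hκ' : (2 : ℝ) ^ kap' (3 * ν) ≤ 900 * c ^ 2 * L ^ 2 := by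
    refine hκ.trans ?_
    push_cast
    have hν0 : (0 : ℝ) ≤ ν := Nat.cast_nonneg ν
    have : (ν : ℝ) ≤ c * L := by nlinarith
    have : (ν : ℝ) ^ 2 ≤ (c * L) ^ 2 := pow_le_pow_left₀ hν0 this 2
    nlinarith
  have hκ0 : (0 : ℝ) < (2 : ℝ) ^ kap' (3 * ν) := by positivity
  -- first term
  have t1 : (2 : ℝ) ^ kap' (3 * ν) * (q * (512 * ρ ^ ν)) ≤ 1 / 2 := by
    have a1 : ρ ^ ν ≤ Real.exp τ * Real.exp (-((1 + ε) * L)) := by
      calc ρ ^ ν ≤ Real.exp (-τ) ^ ν := pow_le_pow_left₀ hρ hρτ ν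
        _ = Real.exp (-(τ * ν)) := by rw [← Real.exp_nat_mul]; congr 1; ring
        _ ≤ Real.exp (τ + -((1 + ε) * L)) := by
            apply Real.exp_le_exp.mpr
            rw [hε]
            nlinarith
        _ = _ := Real.exp_add _ _
    have a2 : K1 * L ^ 2 * Real.exp (-(ε * L)) ≤ 1 := by
      rw [Real.exp_neg]
      rw [mul_inv_le_iff₀ (Real.exp_pos _), one_mul]
      exact h1
    have a3 : Real.exp L * Real.exp (-((1 + ε) * L)) = Real.exp (-(ε * L)) := by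
      rw [← Real.exp_add]; congr 1; ring
    calc (2 : ℝ) ^ kap' (3 * ν) * (q * (512 * ρ ^ ν))
        ≤ (900 * c ^ 2 * L ^ 2) * (Real.exp L * (512 * (Real.exp τ * Real.exp (-((1 + ε) * L))))) := by
          rw [hqe]; gcongr
      _ = (900 * c ^ 2 * L ^ 2) * 512 * Real.exp τ *
          (Real.exp L * Real.exp (-((1 + ε) * L))) := by ring
      _ = (K1 * L ^ 2 * Real.exp (-(ε * L))) / 2 := by rw [a3, hK1]; ring
      _ ≤ 1 / 2 := by linarith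
  -- second term
  have t2 : (2 : ℝ) ^ kap' (3 * ν) * ((R + 2 / R) ^ 3 * M ^ ν) ≤ Real.exp ((μ - 1) * L) / 2 := by
    have a1 : M ^ ν ≤ Real.exp ((σ * c / 6) * L) := by
      calc M ^ ν ≤ Real.exp σ ^ ν := pow_le_pow_left₀ hM0 hMσ ν
        _ = Real.exp (σ * ν) := by rw [← Real.exp_nat_mul]; congr 1; ring
        _ ≤ Real.exp ((σ * c / 6) * L) := by
            apply Real.exp_le_exp.mpr
            calc σ * (ν : ℝ) ≤ σ * (c * L / 6) := mul_le_mul_of_nonneg_left hν1 hσ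
              _ = _ := by ring
    calc (2 : ℝ) ^ kap' (3 * ν) * ((R + 2 / R) ^ 3 * M ^ ν)
        ≤ (900 * c ^ 2 * L ^ 2) * ((R + 2 / R) ^ 3 * Real.exp ((σ * c / 6) * L)) := by gcongr
      _ = (K2 * L ^ 2) * Real.exp ((σ * c / 6) * L) / 2 := by rw [hK2]; ring
      _ ≤ Real.exp (η * L) * Real.exp ((σ * c / 6) * L) / 2 := by gcongr
      _ = Real.exp ((μ - 1) * L) / 2 := by
          rw [← Real.exp_add, hη]; congr 2; ring
  have t3 : 1 / 2 ≤ Real.exp ((μ - 1) * L) / 2 * |q * Real.pi - p| := by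
    have e : (2 : ℝ) ^ kap' (3 * ν) *
        (q * (512 * ρ ^ ν) + (R + 2 / R) ^ 3 * M ^ ν * |q * Real.pi - p|) =
        (2 : ℝ) ^ kap' (3 * ν) * (q * (512 * ρ ^ ν)) +
          ((2 : ℝ) ^ kap' (3 * ν) * ((R + 2 / R) ^ 3 * M ^ ν)) * |q * Real.pi - p| := by ring
    rw [e] at key
    have h5 := mul_le_mul_of_nonneg_right t2 (abs_nonneg ((q : ℝ) * Real.pi - p))
    linarith
  have t4 : Real.exp (-((μ - 1) * L)) ≤ |q * Real.pi - p| := by
    rw [Real.exp_neg, inv_le_iff_one_le_mul₀ (Real.exp_pos _)]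
    linarith
  have e5 : |Real.pi - p / q| = |q * Real.pi - p| / q := by
    rw [eq_div_iff hqR.ne', ← abs_of_pos hqR, ← abs_mul, abs_of_pos hqR]
    congr 1
    field_simp
  rw [e5, le_div_iff₀ hqR]
  refine le_trans (le_of_eq ?_) t4
  rw [hqe, ← Real.exp_mul, ← Real.exp_add]
  congr 1
  ring

/-- there are many such denominators -/
theorem count (c κ : ℝ) (hc : 0 < c) (hκ : κ < 1 - c) (hκ0 : 0 < κ) :
    ∀ᶠ X : ℕ in atTop, (X : ℝ) ^ κ ≤ ({q : ℕ | 1 ≤ q ∧ q ≤ X ∧ Smooth c q}.ncard : ℝ) := by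
  -- choose the loss
  obtain ⟨δ, hδ⟩ : ∃ δ : ℝ, δ = (1 - c - κ) / (2 * c) := ⟨_, rfl⟩
  have hδ0 : 0 < δ := by rw [hδ]; apply div_pos <;> linarith
  obtain ⟨κ', hκ'⟩ : ∃ κ' : ℝ, κ' = 1 - (1 + δ) * c := ⟨_, rfl⟩
  have hκκ : κ < κ' := by
    have : δ * c = (1 - c - κ) / 2 := by rw [hδ]; field_simp
    rw [hκ']; linarith
  have hlog : Tendsto (fun q : ℕ => Real.log q) atTop atTop :=
    Real.tendsto_log_atTop.comp tendsto_natCast_atTop_atTop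
  have hN : Tendsto (fun X : ℕ => ((⌊c * Real.log X⌋₊ : ℕ) : ℝ)) atTop atTop :=
    tendsto_natCast_atTop_atTop.comp (tendsto_nat_floor_atTop.comp (hlog.const_mul_atTop hc))
  have hpsi : ∀ᶠ x : ℝ in atTop, Chebyshev.psi x ≤ (1 + δ) * x := by
    have h1 := Pool.Agent.Helper799.PNT.psi_div_tendsto
    have h2 := h1.eventually (gt_mem_nhds (show (1 : ℝ) < 1 + δ by linarith))
    filter_upwards [h2, eventually_gt_atTop 0] with x hx hx0
    rw [div_lt_iff₀ hx0] at hx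
    exact hx.le
  have e1 := hN.eventually hpsi
  have hbig : ∀ᶠ X : ℕ in atTop, (X : ℝ) ^ κ + 1 ≤ (X : ℝ) ^ κ' := by
    have h1 : Tendsto (fun X : ℕ => (X : ℝ) ^ (κ' - κ)) atTop atTop :=
      (tendsto_rpow_atTop (by linarith)).comp tendsto_natCast_atTop_atTop
    filter_upwards [h1.eventually (eventually_ge_atTop 2), eventually_ge_atTop 1] with X hX hX1
    have hX1' : (1 : ℝ) ≤ X := by exact_mod_cast hX1
    have h2 : (X : ℝ) ^ κ' = (X : ℝ) ^ κ * (X : ℝ) ^ (κ' - κ) := by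
      rw [← Real.rpow_add (by linarith)]; congr 1; ring
    have h3 : (1 : ℝ) ≤ (X : ℝ) ^ κ := Real.one_le_rpow hX1' hκ0.le
    rw [h2]
    nlinarith
  filter_upwards [e1, hbig, eventually_ge_atTop 2, hlog.eventually (eventually_ge_atTop 1)]
    with X h1 h2 h3 h4
  obtain ⟨N, hNd⟩ : ∃ N : ℕ, N = ⌊c * Real.log X⌋₊ := ⟨_, rfl⟩
  rw [← hNd] at h1
  obtain ⟨D, hD⟩ : ∃ D : ℕ, D = Nat.lcmUpto N := ⟨_, rfl⟩
  have hD0 : 0 < D := by rw [hD]; exact Nat.lcmUpto_pos N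
  have hXR : (0 : ℝ) < X := by
    have : 0 < X := by omega
    exact_mod_cast this
  have hNle : (N : ℝ) ≤ c * Real.log X := by
    rw [hNd]; exact Nat.floor_le (by positivity)
  have hDle : (D : ℝ) ≤ (X : ℝ) ^ ((1 + δ) * c) := by
    have h5 : Real.log D ≤ (1 + δ) * (c * Real.log X) := by
      rw [hD, ← Chebyshev.psi_eq_log_lcmUpto]
      exact h1.trans (mul_le_mul_of_nonneg_left hNle (by linarith))
    have hDR : (0 : ℝ) < D := by exact_mod_cast hD0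
    rw [Real.rpow_def_of_pos hXR, ← Real.exp_log hDR]
    apply Real.exp_le_exp.mpr
    calc Real.log D ≤ (1 + δ) * (c * Real.log X) := h5
      _ = Real.log X * ((1 + δ) * c) := by ring
  -- the multiples of D
  have hsub : (fun r : ℕ => D * r) '' (Set.Icc 1 (X / D)) ⊆
      {q : ℕ | 1 ≤ q ∧ q ≤ X ∧ Smooth c q} := by
    rintro q ⟨r, hr, rfl⟩
    have hr1 := hr.1
    have hr2 := hr.2
    have hqX : D * r ≤ X := by
      calc D * r ≤ D * (X / D) := Nat.mul_le_mul_left _ hr2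
        _ ≤ X := Nat.mul_div_le X D
    have hq1 : 1 ≤ D * r := Nat.mul_pos hD0 hr1
    refine ⟨hq1, hqX, ?_⟩
    intro j hj1 hj2
    have h5 : (j : ℝ) ≤ c * Real.log X := by
      refine hj2.trans ?_
      apply mul_le_mul_of_nonneg_left _ hc.le
      apply Real.log_le_log
      · exact_mod_cast hq1
      · exact_mod_cast hqX
    have h6 : j ≤ N := by rw [hNd]; exact Nat.le_floor h5
    exact dvd_mul_of_dvd_left (by rw [hD]; exact dvd_lcmUpto N j hj1 h6) r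
  have hfin : {q : ℕ | 1 ≤ q ∧ q ≤ X ∧ Smooth c q}.Finite :=
    (Set.finite_Iic X).subset fun q hq => hq.2.1
  have hcard : X / D ≤ {q : ℕ | 1 ≤ q ∧ q ≤ X ∧ Smooth c q}.ncard := by
    refine le_trans (le_of_eq ?_) (Set.ncard_le_ncard hsub hfin)
    rw [Set.ncard_image_of_injective _ (fun a b h => Nat.eq_of_mul_eq_mul_left hD0 h),
      ← Finset.coe_Icc, Set.ncard_coe_finset, Nat.card_Icc, Nat.add_sub_cancel]
  have hDR : (0 : ℝ) < D := by exact_mod_cast hD0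
  have h7 : (X : ℝ) / D - 1 ≤ ((X / D : ℕ) : ℝ) := by
    have := Nat.lt_div_mul_add hD0 (a := X)
    have h8 : (X : ℝ) < ((X / D : ℕ) : ℝ) * D + D := by exact_mod_cast this
    rw [sub_le_iff_le_add, div_le_iff₀ hDR]
    linarith
  have h9 : (X : ℝ) ^ κ' ≤ (X : ℝ) / D := by
    rw [le_div_iff₀ hDR]
    calc (X : ℝ) ^ κ' * D ≤ (X : ℝ) ^ κ' * (X : ℝ) ^ ((1 + δ) * c) := by gcongr
      _ = (X : ℝ) := by
          rw [← Real.rpow_add hXR, hκ']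
          have : 1 - (1 + δ) * c + (1 + δ) * c = 1 := by ring
          rw [this, Real.rpow_one]
  have h10 : ((X / D : ℕ) : ℝ) ≤ ({q : ℕ | 1 ≤ q ∧ q ≤ X ∧ Smooth c q}.ncard : ℝ) := by
    exact_mod_cast hcard
  linarith

end Pool.Agent.TH67.RP
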