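import Mathlib

/-!
# The small primes that do not divide a number
-/

namespace Pool.Agent.TH67.RP

/-- the product of the primes `p ≤ y` that do not divide `q` -/
def miss (y q : ℕ) : ℕ := ∏ p ∈ (Finset.range (y + 1)).filter (fun p => p.Prime ∧ ¬ p ∣ q), p

end Pool.Agent.TH67.RP
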