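import Pool.Agent.TH67.RP.StepH
import Pool.Agent.TH67.RP.Miss

/-!
# Denominators divisible by most primes

`miss y q` is the product of the primes `p ≤ y` that do not divide `q`.
-/

open Filter Topology

namespace Pool.Agent.TH67.RP

theorem miss_pos (y q : ℕ) : 0 < miss y q := by
  unfold miss
  apply Finset.prod_pos
  intro p hp
  exact (Finset.mem_filter.mp hp).2.1.pos

theorem primorial_dvd (n y q : ℕ) (h : n ≤ y) : primorial n ∣ miss y q * q := by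
  unfold primorial
  apply Finset.prod_primes_dvd
  · intro p hp
    exact (Finset.mem_filter.mp hp).2.prime
  · intro p hp
    obtain ⟨h1, h2⟩ := Finset.mem_filter.mp hp
    have h3 : p ≤ n := by have := Finset.mem_range.mp h1; omega
    by_cases hd : p ∣ q
    · exact dvd_mul_of_dvd_right hd _
    · refine dvd_mul_of_dvd_left ?_ _
      unfold miss
      apply Finset.dvd_prod_of_mem
      exact Finset.mem_filter.mpr ⟨Finset.mem_range.mpr (by omega), h2, hd⟩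

/-- the part of `lcm(1, …, n)` beyond the primorial -/
theorem beyond : ∃ C : ℝ, 0 ≤ C ∧ ∀ n : ℕ, ∃ H : ℕ, 0 < H ∧ Nat.lcmUpto n = primorial n * H ∧
    (H : ℝ) ≤ Real.exp (C * Real.sqrt n) := by
  obtain ⟨C, hC⟩ := Chebyshev.psi_sub_theta_le_mul_sqrt
  refine ⟨|C|, abs_nonneg C, fun n => ?_⟩
  obtain ⟨H, hH⟩ := Nat.primorial_dvd_lcmUpto n
  have hpos : 0 < Nat.lcmUpto n := Nat.lcmUpto_pos n
  have hH0 : 0 < H := by
    rcases Nat.eq_zero_or_pos H with h | h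
    · rw [h, mul_zero] at hH; omega
    · exact h
  refine ⟨H, hH0, hH, ?_⟩
  have hHR : (0 : ℝ) < H := by exact_mod_cast hH0
  have hP : (0 : ℝ) < primorial n := by exact_mod_cast primorial_pos n
  rw [← Real.log_le_iff_le_exp hHR]
  have h1 := hC n
  rw [Chebyshev.psi_eq_log_lcmUpto, Chebyshev.theta_eq_log_primorial, Nat.floor_natCast, hH] at h1
  push_cast at h1
  rw [Real.log_mul hP.ne' hHR.ne'] at h1
  have h2 : C * Real.sqrt n ≤ |C| * Real.sqrt n :=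
    mul_le_mul_of_nonneg_right (le_abs_self C) (Real.sqrt_nonneg _)
  linarith

theorem sqrt_le_lin (C ε : ℝ) (_hC : 0 ≤ C) (hε : 0 < ε) :
    ∀ᶠ x : ℝ in atTop, C * Real.sqrt x ≤ ε * x := by
  filter_upwards [eventually_ge_atTop ((C / ε) ^ 2), eventually_gt_atTop 0] with x hx hx0
  have h1 : C / ε ≤ Real.sqrt x := Real.le_sqrt_of_sq_le hx
  have h2 : C ≤ ε * Real.sqrt x := by
    rw [div_le_iff₀ hε] at h1; linarith
  calc C * Real.sqrt x ≤ (ε * Real.sqrt x) * Real.sqrt x :=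
        mul_le_mul_of_nonneg_right h2 (Real.sqrt_nonneg _)
    _ = ε * x := by rw [mul_assoc, Real.mul_self_sqrt hx0.le]

/-- the restricted exponent, general parameters, missing primes allowed -/
theorem finalr (a b c : ℕ) (hc1 : 1 ≤ c) (hac : 2 * c ≤ 3 * a) (hdeg : 2 * a + b + 2 ≤ 4 * c)
    (hlow : 2 * c ≤ 2 * a + b) (v : ℂ)
    (d1 : ‖v - (1 + Complex.I)‖ ≤ 1) (d2 : ‖1 - v‖ ≤ 1) (ρ M R τ σ κ δ μ : ℝ) (hρ : 0 ≤ ρ)
    (hpath : ∀ z : ℂ, (z ∈ segment ℝ (1 + Complex.I) v ∨ z ∈ segment ℝ v 1) →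
      0 < z.re ∧ 1 ≤ ‖z‖ ∧ ‖z‖ ≤ 2 ∧ ss z ≠ 0 ∧
        ‖ww z - 2‖ ^ (2 * a) * ‖ww z - 3‖ ^ b ≤ ρ * ‖ss z‖ ^ (2 * c))
    (hR : 2 ≤ R)
    (hM : (R + 2 / R + 2) ^ (2 * a) * (R + 2 / R + 3) ^ b ≤ M * (R - 2 / R) ^ (2 * c))
    (hM0 : 0 ≤ M) (hρτ : ρ ≤ Real.exp (-τ)) (hMσ : M ≤ Real.exp σ) (hσ : 0 ≤ σ) (hκ : 0 < κ)
    (hδ : 0 ≤ δ) (hτ : 2 * c * (1 + δ) < τ * κ) (hμ : σ * κ / (2 * c) + δ < μ - 1) :
    ∀ᶠ q : ℕ in atTop, (miss ⌊κ * Real.log q⌋₊ q : ℝ) ≤ (q : ℝ) ^ δ →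
      ∀ p : ℤ, (q : ℝ) ^ (-μ) ≤ |Real.pi - p / q| := by
  have hR0 : 0 < R := by linarith
  have hcR : (1 : ℝ) ≤ c := by exact_mod_cast hc1
  have hc0 : (0 : ℝ) < c := by linarith
  obtain ⟨C, hC0, hC⟩ := beyond
  obtain ⟨ε, hε⟩ : ∃ ε : ℝ, ε = (τ * κ / (2 * c) - 1 - δ) / 2 := ⟨_, rfl⟩
  obtain ⟨η, hη⟩ : ∃ η : ℝ, η = (μ - 1 - σ * κ / (2 * c) - δ) / 2 := ⟨_, rfl⟩
  have hε0 : 0 < ε := by
    have : 1 + δ < τ * κ / (2 * c) := by rw [lt_div_iff₀ (by positivity)]; linarith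
    rw [hε]; linarith
  have hη0 : 0 < η := by rw [hη]; linarith
  have hτ0 : 0 < τ := by
    by_contra hneg
    push Not at hneg
    have b1 : τ * κ ≤ 0 := mul_nonpos_of_nonpos_of_nonneg hneg hκ.le
    have b2 : 0 < 2 * c * (1 + δ) := by positivity
    linarith
  obtain ⟨K1, hK1⟩ : ∃ K1 : ℝ, K1 = 2 * (100 * κ ^ 2) * 512 * Real.exp τ := ⟨_, rfl⟩
  obtain ⟨K2, hK2⟩ : ∃ K2 : ℝ, K2 = 2 * (100 * κ ^ 2) * (R + 2 / R) ^ 3 := ⟨_, rfl⟩
  have hlog : Tendsto (fun q : ℕ => Real.log q) atTop atTop :=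
    Real.tendsto_log_atTop.comp tendsto_natCast_atTop_atTop
  have e1 := hlog.eventually (sq_le_exp K1 ε hε0)
  have e2 := hlog.eventually (sq_le_exp K2 η hη0)
  have e3 := hlog.eventually (eventually_ge_atTop (6 * c / κ))
  have e4 := hlog.eventually (sqrt_le_lin (C * Real.sqrt κ) ε (by positivity) hε0)
  have e5 := hlog.eventually (sqrt_le_lin (C * Real.sqrt κ) η (by positivity) hη0)
  filter_upwards [e1, e2, e3, e4, e5, eventually_gt_atTop 0] with q h1 h2 h3 h4 h5 hq hs p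
  obtain ⟨L, hL⟩ : ∃ L : ℝ, L = Real.log q := ⟨_, rfl⟩
  rw [← hL] at h1 h2 h3 h4 h5
  have hqR : (0 : ℝ) < q := by exact_mod_cast hq
  have hqe : (q : ℝ) = Real.exp L := by rw [hL, Real.exp_log hqR]
  have hL0 : 0 < L := lt_of_lt_of_le (by positivity) h3
  have hcL : 6 * c ≤ κ * L := by
    rw [div_le_iff₀ hκ] at h3
    linarith
  obtain ⟨x, hx⟩ : ∃ x : ℝ, x = κ * L / (2 * c) := ⟨_, rfl⟩
  have hx3 : 3 ≤ x := by rw [hx, le_div_iff₀ (by positivity)]; linarith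
  have hxc : x * (2 * c) = κ * L := by rw [hx]; field_simp
  obtain ⟨ν, hν⟩ : ∃ ν : ℕ, ν = ⌊x⌋₊ := ⟨_, rfl⟩
  have hν1 : (ν : ℝ) ≤ x := by rw [hν]; exact Nat.floor_le (by linarith)
  have hν2 : x < ν + 1 := by rw [hν]; exact Nat.lt_floor_add_one _
  have hν3 : 2 ≤ ν := by
    have h5 : (2 : ℝ) < (ν : ℝ) := by linarith
    have h6 : 2 < ν := by exact_mod_cast h5
    omega
  have hcν : (c : ℝ) * ν ≤ κ * L / 2 := by
    have : (c : ℝ) * ν ≤ c * x := mul_le_mul_of_nonneg_left hν1 hc0.le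
    linarith
  have hnle : ((2 * (c * ν) : ℕ) : ℝ) ≤ κ * L := by push_cast; linarith
  have hny : 2 * (c * ν) ≤ ⌊κ * Real.log q⌋₊ := by rw [← hL]; exact Nat.le_floor hnle
  -- the multiplier
  obtain ⟨H1, hH1, hH2, hH3⟩ := hC (2 * (c * ν))
  obtain ⟨W, hW⟩ : ∃ W : ℕ, W = miss ⌊κ * Real.log q⌋₊ q := ⟨_, rfl⟩
  have hW0 : 0 < W := by rw [hW]; exact miss_pos _ _
  rw [← hW] at hs
  have hWe : (W : ℝ) ≤ Real.exp (δ * L) := by
    refine hs.trans (le_of_eq ?_)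
    rw [hqe, ← Real.exp_mul]
    congr 1; ring
  have hdvd : Nat.lcmUpto (2 * (c * ν)) ∣ (H1 * W) * q := by
    rw [hH2, mul_comm (primorial _) H1, mul_assoc]
    exact mul_dvd_mul_left _ (by rw [hW]; exact primorial_dvd _ _ _ hny)
  have hH1e : (H1 : ℝ) ≤ Real.exp (C * Real.sqrt κ * Real.sqrt L) := by
    refine hH3.trans (Real.exp_le_exp.mpr ?_)
    rw [mul_assoc, ← Real.sqrt_mul hκ.le]
    exact mul_le_mul_of_nonneg_left (Real.sqrt_le_sqrt hnle) hC0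
  have key := stepH a b c ν hc1 hac hdeg hlow hν3 v d1 d2 ρ M R hρ hpath hR hM q hq (H1 * W)
    (Nat.mul_pos hH1 hW0) hdvd p
  obtain ⟨T, hT⟩ : ∃ T : ℝ, T = (2 : ℝ) ^ kap' (c * ν) * ((H1 * W : ℕ) : ℝ) := ⟨_, rfl⟩
  rw [← hT] at key
  have hkap := kap'_le (c * ν) (Nat.mul_pos hc1 (by omega))
  have hkap' : (2 : ℝ) ^ kap' (c * ν) ≤ 100 * κ ^ 2 * L ^ 2 := by
    refine hkap.trans ?_
    push_cast
    have h0 : (0 : ℝ) ≤ (c : ℝ) * ν := by positivity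
    have h5 : (c : ℝ) * ν ≤ κ * L := by linarith
    have h6 : ((c : ℝ) * ν) ^ 2 ≤ (κ * L) ^ 2 := pow_le_pow_left₀ h0 h5 2
    calc 100 * ((c : ℝ) * ν) ^ 2 ≤ 100 * (κ * L) ^ 2 := by linarith
      _ = 100 * κ ^ 2 * L ^ 2 := by ring
  have hkap0 : (0 : ℝ) < (2 : ℝ) ^ kap' (c * ν) := by positivity
  have hT0 : 0 ≤ T := by rw [hT]; positivity
  have hTle : T ≤ (100 * κ ^ 2 * L ^ 2) *
      (Real.exp (C * Real.sqrt κ * Real.sqrt L) * Real.exp (δ * L)) := by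
    rw [hT]
    push_cast
    gcongr
  have hTε : T ≤ (100 * κ ^ 2 * L ^ 2) * (Real.exp (ε * L) * Real.exp (δ * L)) := by
    refine hTle.trans ?_
    gcongr
  have hTη : T ≤ (100 * κ ^ 2 * L ^ 2) * (Real.exp (η * L) * Real.exp (δ * L)) := by
    refine hTle.trans ?_
    gcongr
  -- first term
  have t1 : T * (q * (512 * ρ ^ ν)) ≤ 1 / 2 := by
    have a1 : ρ ^ ν ≤ Real.exp τ * Real.exp (-((1 + δ + 2 * ε) * L)) := by
      calc ρ ^ ν ≤ Real.exp (-τ) ^ ν := pow_le_pow_left₀ hρ hρτ ν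
        _ = Real.exp (-(τ * ν)) := by rw [← Real.exp_nat_mul]; congr 1; ring
        _ ≤ Real.exp (τ + -((1 + δ + 2 * ε) * L)) := by
            apply Real.exp_le_exp.mpr
            have e5 : (1 + δ + 2 * ε) * L = τ * x := by rw [hε, hx]; ring
            rw [e5]
            have e6 := mul_le_mul_of_nonneg_left (show x - ν ≤ 1 by linarith) hτ0.le
            linarith
        _ = _ := Real.exp_add _ _
    have a2 : K1 * L ^ 2 * Real.exp (-(ε * L)) ≤ 1 := by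
      rw [Real.exp_neg]
      rw [mul_inv_le_iff₀ (Real.exp_pos _), one_mul]
      exact h1
    have a3 : (Real.exp (ε * L) * Real.exp (δ * L)) * (Real.exp L *
        Real.exp (-((1 + δ + 2 * ε) * L))) = Real.exp (-(ε * L)) := by
      rw [← Real.exp_add, ← Real.exp_add, ← Real.exp_add]; congr 1; ring
    calc T * (q * (512 * ρ ^ ν))
        ≤ ((100 * κ ^ 2 * L ^ 2) * (Real.exp (ε * L) * Real.exp (δ * L))) *
          (Real.exp L * (512 * (Real.exp τ * Real.exp (-((1 + δ + 2 * ε) * L))))) := by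
          rw [hqe]; gcongr
      _ = (100 * κ ^ 2 * L ^ 2) * 512 * Real.exp τ * ((Real.exp (ε * L) * Real.exp (δ * L)) *
          (Real.exp L * Real.exp (-((1 + δ + 2 * ε) * L)))) := by ring
      _ = (K1 * L ^ 2 * Real.exp (-(ε * L))) / 2 := by rw [a3, hK1]; ring
      _ ≤ 1 / 2 := by linarith
  -- second term
  have t2 : T * ((R + 2 / R) ^ 3 * M ^ ν) ≤ Real.exp ((μ - 1) * L) / 2 := by
    have a1 : M ^ ν ≤ Real.exp ((σ * κ / (2 * c)) * L) := by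
      calc M ^ ν ≤ Real.exp σ ^ ν := pow_le_pow_left₀ hM0 hMσ ν
        _ = Real.exp (σ * ν) := by rw [← Real.exp_nat_mul]; congr 1; ring
        _ ≤ Real.exp ((σ * κ / (2 * c)) * L) := by
            apply Real.exp_le_exp.mpr
            calc σ * (ν : ℝ) ≤ σ * x := mul_le_mul_of_nonneg_left hν1 hσ
              _ = _ := by rw [hx]; ring
    calc T * ((R + 2 / R) ^ 3 * M ^ ν)
        ≤ ((100 * κ ^ 2 * L ^ 2) * (Real.exp (η * L) * Real.exp (δ * L))) *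
          ((R + 2 / R) ^ 3 * Real.exp ((σ * κ / (2 * c)) * L)) := by
          gcongr
      _ = (K2 * L ^ 2) * ((Real.exp (η * L) * Real.exp (δ * L)) *
          Real.exp ((σ * κ / (2 * c)) * L)) / 2 := by rw [hK2]; ring
      _ ≤ Real.exp (η * L) * ((Real.exp (η * L) * Real.exp (δ * L)) *
          Real.exp ((σ * κ / (2 * c)) * L)) / 2 := by gcongr
      _ = Real.exp ((μ - 1) * L) / 2 := by
          rw [← Real.exp_add, ← Real.exp_add, ← Real.exp_add, hη]; congr 2; ring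
  have t3 : 1 / 2 ≤ Real.exp ((μ - 1) * L) / 2 * |q * Real.pi - p| := by
    have e : T * (q * (512 * ρ ^ ν) + (R + 2 / R) ^ 3 * M ^ ν * |q * Real.pi - p|) =
        T * (q * (512 * ρ ^ ν)) + (T * ((R + 2 / R) ^ 3 * M ^ ν)) * |q * Real.pi - p| := by ring
    rw [e] at key
    have h5 := mul_le_mul_of_nonneg_right t2 (abs_nonneg ((q : ℝ) * Real.pi - p))
    linarith
  have t4 : Real.exp (-((μ - 1) * L)) ≤ |q * Real.pi - p| := by
    rw [Real.exp_neg, inv_le_iff_one_le_mul₀ (Real.exp_pos _)]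
    linarith
  have e5 : |Real.pi - p / q| = |q * Real.pi - p| / q := by
    rw [eq_div_iff hqR.ne', ← abs_of_pos hqR, ← abs_mul, abs_of_pos hqR]
    congr 1
    field_simp
  rw [e5, le_div_iff₀ hqR]
  refine le_trans (le_of_eq ?_) t4
  rw [hqe, ← Real.exp_mul, ← Real.exp_add]
  congr 1
  ring

end Pool.Agent.TH67.RP
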