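import Pool.Agent.TH67.RP.Fin

/-!
# General parameters: the forms of level `ν` attached to `(X-2)^(2aν) (X-3)^(bν) X^e` and `m = cν`
-/

open Polynomial Filter Topology

namespace Pool.Agent.TH67.RP

open Pool.Agent.H326R2.Pi

/-- the numerator -/
noncomputable def Qg (a b ν e : ℕ) : ℚ[X] := (X - C 2) ^ (2 * a * ν) * (X - C 3) ^ (b * ν) * X ^ e

theorem aeval_Qg (a b ν e : ℕ) (w : ℂ) :
    aeval w (Qg a b ν e) = (w - 2) ^ (2 * a * ν) * (w - 3) ^ (b * ν) * w ^ e := by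
  unfold Qg
  simp only [map_mul, map_pow, map_sub, aeval_X, aeval_C]
  simp

/-- the integrand on the path -/
theorem Fg_bound (a b c ν e : ℕ) (z : ℂ) (h1 : 1 ≤ ‖z‖) (h2 : ‖z‖ ≤ 2) (hs : ss z ≠ 0) (ρ : ℝ)
    (h : ‖ww z - 2‖ ^ (2 * a) * ‖ww z - 3‖ ^ b ≤ ρ * ‖ss z‖ ^ (2 * c)) :
    ‖Fq (c * ν) (Qg a b ν e) z‖ ≤ 4 ^ e * ρ ^ ν := by
  have hs0 : 0 < ‖ss z‖ := norm_pos_iff.mpr hs
  have hw : ‖ww z‖ ≤ 4 := by
    refine ww_norm_le.trans ?_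
    have : 2 / ‖z‖ ≤ 2 := by rw [div_le_iff₀ (by linarith)]; linarith
    linarith
  have h3 : (‖ww z - 2‖ ^ (2 * a) * ‖ww z - 3‖ ^ b) ^ ν ≤ (ρ * ‖ss z‖ ^ (2 * c)) ^ ν :=
    pow_le_pow_left₀ (by positivity) h ν
  unfold Fq
  rw [aeval_Qg, norm_div, norm_mul, norm_mul, norm_mul, norm_pow, norm_pow, norm_pow, norm_pow,
    div_le_iff₀ (by positivity)]
  have h4 : ‖ww z‖ ^ e ≤ 4 ^ e := pow_le_pow_left₀ (norm_nonneg _) hw e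
  have e1 : ‖ww z - 2‖ ^ (2 * a * ν) * ‖ww z - 3‖ ^ (b * ν) =
      (‖ww z - 2‖ ^ (2 * a) * ‖ww z - 3‖ ^ b) ^ ν := by
    rw [mul_pow, ← pow_mul, ← pow_mul]
  have e2 : (ρ * ‖ss z‖ ^ (2 * c)) ^ ν = ρ ^ ν * ‖ss z‖ ^ (2 * (c * ν)) := by
    rw [mul_pow, ← pow_mul]
    congr 2; ring
  rw [e1]
  rw [e2] at h3
  have h5 : 0 ≤ ρ ^ ν * ‖ss z‖ ^ (2 * (c * ν)) := le_trans (by positivity) h3
  calc (‖ww z - 2‖ ^ (2 * a) * ‖ww z - 3‖ ^ b) ^ ν * ‖ww z‖ ^ e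
      ≤ (ρ ^ ν * ‖ss z‖ ^ (2 * (c * ν))) * 4 ^ e := mul_le_mul h3 h4 (by positivity) h5
    _ ≤ (ρ ^ ν * ‖ss z‖ ^ (2 * (c * ν))) * 4 ^ e * ‖z‖ :=
        le_mul_of_one_le_right (by positivity) h1
    _ = _ := by ring

/-- the integrand on the circle of radius `R` -/
theorem circg_bound (a b c ν e : ℕ) (R : ℝ) (hR : 2 ≤ R) (M : ℝ)
    (hM : (R + 2 / R + 2) ^ (2 * a) * (R + 2 / R + 3) ^ b ≤ M * (R - 2 / R) ^ (2 * c)) (z : ℂ)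
    (hz : ‖z‖ = R) :
    ss z ≠ 0 ∧ ‖aeval (ww z) (Qg a b ν e) / ss z ^ (2 * (c * ν))‖ ≤ (R + 2 / R) ^ e * M ^ ν := by
  have hR0 : 0 < R := by linarith
  have h2R : 2 / R ≤ 1 := by rw [div_le_iff₀ hR0]; linarith
  have hw : ‖ww z‖ ≤ R + 2 / R := by
    have := ww_norm_le (z := z)
    rwa [hz] at this
  have hw2 : ‖ww z - 2‖ ≤ R + 2 / R + 2 := by
    refine (norm_sub_le _ _).trans ?_
    rw [Complex.norm_ofNat]; linarith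
  have hw3 : ‖ww z - 3‖ ≤ R + 2 / R + 3 := by
    refine (norm_sub_le _ _).trans ?_
    rw [Complex.norm_ofNat]; linarith
  have hs : R - 2 / R ≤ ‖ss z‖ := by
    have h1 : ‖z‖ - ‖2 / z‖ ≤ ‖z - 2 / z‖ := norm_sub_norm_le _ _
    rw [norm_div, Complex.norm_ofNat, hz] at h1
    exact h1
  have hs1 : 0 < R - 2 / R := by linarith
  have hs0 : 0 < ‖ss z‖ := lt_of_lt_of_le hs1 hs
  refine ⟨norm_pos_iff.mp hs0, ?_⟩
  have hM0 : 0 ≤ M := by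
    by_contra hneg
    push Not at hneg
    have h1 : M * (R - 2 / R) ^ (2 * c) < 0 := mul_neg_of_neg_of_pos hneg (by positivity)
    have h2 : 0 ≤ (R + 2 / R + 2) ^ (2 * a) * (R + 2 / R + 3) ^ b := by positivity
    linarith
  rw [aeval_Qg, norm_div, norm_mul, norm_mul, norm_pow, norm_pow, norm_pow, norm_pow,
    div_le_iff₀ (by positivity)]
  have h3 : (‖ww z - 2‖ ^ (2 * a) * ‖ww z - 3‖ ^ b) ≤ M * ‖ss z‖ ^ (2 * c) := by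
    calc ‖ww z - 2‖ ^ (2 * a) * ‖ww z - 3‖ ^ b
        ≤ (R + 2 / R + 2) ^ (2 * a) * (R + 2 / R + 3) ^ b := by gcongr
      _ ≤ M * (R - 2 / R) ^ (2 * c) := hM
      _ ≤ M * ‖ss z‖ ^ (2 * c) := by gcongr
  have h4 : (‖ww z - 2‖ ^ (2 * a) * ‖ww z - 3‖ ^ b) ^ ν ≤ (M * ‖ss z‖ ^ (2 * c)) ^ ν :=
    pow_le_pow_left₀ (by positivity) h3 ν
  have e1 : ‖ww z - 2‖ ^ (2 * a * ν) * ‖ww z - 3‖ ^ (b * ν) =
      (‖ww z - 2‖ ^ (2 * a) * ‖ww z - 3‖ ^ b) ^ ν := by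
    rw [mul_pow, ← pow_mul, ← pow_mul]
  have e2 : (M * ‖ss z‖ ^ (2 * c)) ^ ν = M ^ ν * ‖ss z‖ ^ (2 * (c * ν)) := by
    rw [mul_pow, ← pow_mul]
    congr 2; ring
  have h5 : ‖ww z‖ ^ e ≤ (R + 2 / R) ^ e := pow_le_pow_left₀ (norm_nonneg _) hw e
  rw [e1]
  rw [e2] at h4
  calc (‖ww z - 2‖ ^ (2 * a) * ‖ww z - 3‖ ^ b) ^ ν * ‖ww z‖ ^ e
      ≤ (M ^ ν * ‖ss z‖ ^ (2 * (c * ν))) * (R + 2 / R) ^ e :=
        mul_le_mul h4 h5 (by positivity) (by positivity)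
    _ = _ := by ring

/-- the forms of level `ν`: coefficient, primitive, denominator -/
theorem formsg (a b c ν : ℕ) (hc1 : 1 ≤ c) (hac : 2 * c ≤ 3 * a) (hdeg : 2 * a + b + 2 ≤ 4 * c)
    (hν : 2 ≤ ν) : ∃ (k : Fin 4 → ℤ) (Ψ : Fin 4 → ℚ[X]),
    ∀ e : Fin 4, LL (c * ν) (Ψ e) = Qg a b ν e - C (k e : ℚ) * (X ^ 2 - 8) ^ (c * ν) ∧
      ∃ r : ℤ, ((2 : ℚ) ^ kap' (c * ν) * Nat.lcmUpto (2 * (c * ν))) *
        (4 * (Ψ e).eval 2 / 4 ^ (c * ν)) = r := by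
  have h : ∀ e : Fin 4, ∃ (k : ℤ) (Ψ : ℚ[X]),
      LL (c * ν) Ψ = Qg a b ν e - C (k : ℚ) * (X ^ 2 - 8) ^ (c * ν) ∧
      ∃ r : ℤ, ((2 : ℚ) ^ kap' (c * ν) * Nat.lcmUpto (2 * (c * ν))) *
        (4 * Ψ.eval 2 / 4 ^ (c * ν)) = r := by
    intro e
    have he : (e : ℕ) ≤ 3 := by have := e.isLt; omega
    have hT : (((X - C 3) ^ (b * ν) * X ^ (e : ℕ) : ℤ[X])).natDegree ≤ b * ν + 3 := by
      refine natDegree_mul_le.trans (Nat.add_le_add ?_ ?_)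
      · rw [natDegree_pow, natDegree_X_sub_C, mul_one]
      · rw [natDegree_X_pow]; exact he
    have hcν : 1 ≤ c * ν := Nat.mul_pos hc1 (by omega)
    have hA : 2 * (c * ν) ≤ 3 * (a * ν) := by
      have : 2 * c * ν ≤ 3 * a * ν := Nat.mul_le_mul_right ν hac
      nlinarith
    have hD : b * ν + 3 + 2 * (a * ν) ≤ 2 * (c * ν) + 2 * (c * ν) := by
      have : (2 * a + b + 2) * ν ≤ 4 * c * ν := Nat.mul_le_mul_right ν hdeg
      nlinarith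
    obtain ⟨k, Ψ, h1, h2⟩ := den (c * ν) (2 * (c * ν)) (a * ν) hcν (by omega) le_rfl hA
      ((X - C 3) ^ (b * ν) * X ^ (e : ℕ)) (by omega)
    refine ⟨k, Ψ, ?_, h2⟩
    rw [h1]
    congr 1
    unfold Qg
    simp only [Polynomial.map_mul, Polynomial.map_pow, Polynomial.map_sub, Polynomial.map_X,
      Polynomial.map_C]
    rw [show 2 * (a * ν) = 2 * a * ν by ring]
    norm_num
    ring
  choose k hk using h
  choose Ψ hΨ using hk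
  exact ⟨k, Ψ, hΨ⟩

/-- the main inequality -/
theorem stepg (a b c ν : ℕ) (hc1 : 1 ≤ c) (hac : 2 * c ≤ 3 * a) (hdeg : 2 * a + b + 2 ≤ 4 * c)
    (hlow : 2 * c ≤ 2 * a + b) (hν : 2 ≤ ν) (v : ℂ)
    (d1 : ‖v - (1 + Complex.I)‖ ≤ 1) (d2 : ‖1 - v‖ ≤ 1) (ρ M R : ℝ) (hρ : 0 ≤ ρ)
    (hpath : ∀ z : ℂ, (z ∈ segment ℝ (1 + Complex.I) v ∨ z ∈ segment ℝ v 1) →
      0 < z.re ∧ 1 ≤ ‖z‖ ∧ ‖z‖ ≤ 2 ∧ ss z ≠ 0 ∧
        ‖ww z - 2‖ ^ (2 * a) * ‖ww z - 3‖ ^ b ≤ ρ * ‖ss z‖ ^ (2 * c))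
    (hR : 2 ≤ R)
    (hM : (R + 2 / R + 2) ^ (2 * a) * (R + 2 / R + 3) ^ b ≤ M * (R - 2 / R) ^ (2 * c))
    (q : ℕ) (hq : 0 < q) (hdvd : Nat.lcmUpto (2 * (c * ν)) ∣ q) (p : ℤ) :
    1 ≤ (2 : ℝ) ^ kap' (c * ν) *
      (q * (512 * ρ ^ ν) + (R + 2 / R) ^ 3 * M ^ ν * |q * Real.pi - p|) := by
  obtain ⟨k, Ψ, hΨ⟩ := formsg a b c ν hc1 hac hdeg hν
  have hm1 : 1 ≤ c * ν := Nat.mul_pos hc1 (by omega)
  obtain ⟨m, hm⟩ : ∃ m, m = c * ν := ⟨_, rfl⟩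
  rw [← hm] at hΨ hm1 hdvd ⊢
  obtain ⟨κ, hκ⟩ : ∃ κ : ℚ, κ = 8 / (-4) ^ m := ⟨_, rfl⟩
  have hκ0 : κ ≠ 0 := by
    rw [hκ]
    exact div_ne_zero (by norm_num) (pow_ne_zero _ (by norm_num))
  have hqQ : (q : ℚ) ≠ 0 := by exact_mod_cast hq.ne'
  -- a non-vanishing form
  obtain ⟨e, he⟩ : ∃ e : Fin 4, (p : ℚ) * k e + ((q : ℚ) * κ) * (Ψ e).eval 2 ≠ 0 := by
    by_contra hcon
    push Not at hcon
    refine zero_estimate m (2 * a * ν) (b * ν) ?_ k Ψ ?_ (p : ℚ) ((q : ℚ) * κ)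
      (mul_ne_zero hqQ hκ0) hcon
    · have : 2 * c * ν ≤ (2 * a + b) * ν := Nat.mul_le_mul_right _ hlow
      rw [hm]
      nlinarith
    · intro e
      exact (hΨ e).1
  obtain ⟨h1, r, hr⟩ := hΨ e
  obtain ⟨y, hy⟩ : ∃ y : ℚ, y = (Ψ e).eval 2 := ⟨_, rfl⟩
  have he4 : (e : ℕ) ≤ 3 := by have := e.isLt; omega
  -- integrality
  obtain ⟨q1, hq1⟩ := hdvd
  obtain ⟨n, hn⟩ : ∃ n : ℤ, (2 : ℚ) ^ kap' m * ((p : ℚ) * k e + ((q : ℚ) * κ) * y) = n := by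
    refine ⟨2 ^ kap' m * (p * k e) + q1 * (2 * (-1) ^ m * r), ?_⟩
    have h2 : κ = 8 * (-1) ^ m / 4 ^ m := by
      rw [hκ, show (-4 : ℚ) = (-1) * 4 by norm_num, mul_pow]
      have : ((-1 : ℚ) ^ m) * ((-1 : ℚ) ^ m) = 1 := by
        rw [← mul_pow]; norm_num
      have h4 : (4 : ℚ) ^ m ≠ 0 := by positivity
      have h5 : ((-1 : ℚ) ^ m) ≠ 0 := pow_ne_zero _ (by norm_num)
      rw [div_eq_div_iff (mul_ne_zero h5 h4) h4]
      linear_combination (-8 * (4 : ℚ) ^ m) * this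
    rw [← hy] at hr
    rw [hq1, h2]
    push_cast
    linear_combination (2 * (-1 : ℚ) ^ m * (q1 : ℚ)) * hr
  have hn0 : n ≠ 0 := by
    intro h0
    rw [h0, Int.cast_zero] at hn
    rcases mul_eq_zero.mp hn with h3 | h3
    · exact absurd h3 (by positivity)
    · rw [hy] at h3
      exact he h3
  have hn1 : (1 : ℝ) ≤ |(n : ℝ)| := by
    have : (1 : ℤ) ≤ |n| := Int.one_le_abs hn0
    exact_mod_cast this
  have hnR : (n : ℝ) = (2 : ℝ) ^ kap' m *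
      (q * ((k e : ℝ) * Real.pi + 8 * (y : ℝ) / (-4) ^ m) -
        (k e : ℝ) * (q * Real.pi - p)) := by
    have h3 : (n : ℝ) = (2 : ℝ) ^ kap' m *
        ((p : ℝ) * k e + ((q : ℝ) * ((κ : ℚ) : ℝ)) * (y : ℝ)) := by
      have := congrArg (fun t : ℚ => (t : ℝ)) hn
      push_cast at this
      exact this.symm
    have h4 : ((κ : ℚ) : ℝ) = 8 / (-4) ^ m := by rw [hκ]; push_cast; rfl
    rw [h3, h4]
    ring
  -- the two bounds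
  have b1 : |(k e : ℝ) * Real.pi + 8 * (y : ℝ) / (-4) ^ m| ≤ 8 * (4 ^ (e : ℕ) * ρ ^ ν) := by
    rw [hy]
    apply form_bound m hm1 (k e) (Ψ e) (Qg a b ν e) h1 v _ (by positivity) d1 d2
    intro z hz
    obtain ⟨z1, z2, z3, z4, z5⟩ := hpath z hz
    refine ⟨z1, z4, ?_⟩
    rw [hm]
    exact Fg_bound a b c ν e z z2 z3 z4 ρ z5
  have b2 : |(k e : ℝ)| ≤ (R + 2 / R) ^ (e : ℕ) * M ^ ν :=
    coeff_bound m hm1 (k e) (Ψ e) (Qg a b ν e) h1 R _ (by linarith)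
      (fun z hz => by rw [hm]; exact circg_bound a b c ν e R hR M hM z hz)
  have hR0 : 0 < R := by linarith
  have hM0 : 0 ≤ M := by
    by_contra hneg
    push Not at hneg
    have hs1 : 0 < R - 2 / R := by
      have : 2 / R ≤ 1 := by rw [div_le_iff₀ hR0]; linarith
      linarith
    have h3 : M * (R - 2 / R) ^ (2 * c) < 0 := mul_neg_of_neg_of_pos hneg (by positivity)
    have h4 : 0 ≤ (R + 2 / R + 2) ^ (2 * a) * (R + 2 / R + 3) ^ b := by positivity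
    linarith
  have b1' : |(k e : ℝ) * Real.pi + 8 * (y : ℝ) / (-4) ^ m| ≤ 512 * ρ ^ ν := by
    refine b1.trans ?_
    have h3 : (4 : ℝ) ^ (e : ℕ) ≤ 4 ^ 3 := pow_le_pow_right₀ (by norm_num) he4
    have h4 : 0 ≤ ρ ^ ν := by positivity
    nlinarith
  have b2' : |(k e : ℝ)| ≤ (R + 2 / R) ^ 3 * M ^ ν := by
    refine b2.trans ?_
    have h3 : (R + 2 / R) ^ (e : ℕ) ≤ (R + 2 / R) ^ 3 := by
      apply pow_le_pow_right₀ _ he4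
      have : 0 ≤ 2 / R := by positivity
      linarith
    gcongr
  rw [hnR, abs_mul, abs_of_pos (by positivity)] at hn1
  refine hn1.trans ?_
  apply mul_le_mul_of_nonneg_left _ (by positivity)
  refine (abs_sub _ _).trans (add_le_add ?_ ?_)
  · rw [abs_mul, abs_of_nonneg (Nat.cast_nonneg q)]
    gcongr
  · rw [abs_mul]
    gcongr

/-- the restricted exponent, general parameters -/
theorem finalg (a b c : ℕ) (hc1 : 1 ≤ c) (hac : 2 * c ≤ 3 * a) (hdeg : 2 * a + b + 2 ≤ 4 * c)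
    (hlow : 2 * c ≤ 2 * a + b) (v : ℂ)
    (d1 : ‖v - (1 + Complex.I)‖ ≤ 1) (d2 : ‖1 - v‖ ≤ 1) (ρ M R τ σ κ μ : ℝ) (hρ : 0 ≤ ρ)
    (hpath : ∀ z : ℂ, (z ∈ segment ℝ (1 + Complex.I) v ∨ z ∈ segment ℝ v 1) →
      0 < z.re ∧ 1 ≤ ‖z‖ ∧ ‖z‖ ≤ 2 ∧ ss z ≠ 0 ∧
        ‖ww z - 2‖ ^ (2 * a) * ‖ww z - 3‖ ^ b ≤ ρ * ‖ss z‖ ^ (2 * c))
    (hR : 2 ≤ R)
    (hM : (R + 2 / R + 2) ^ (2 * a) * (R + 2 / R + 3) ^ b ≤ M * (R - 2 / R) ^ (2 * c))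
    (hM0 : 0 ≤ M) (hρτ : ρ ≤ Real.exp (-τ)) (hMσ : M ≤ Real.exp σ) (hσ : 0 ≤ σ) (hκ : 0 < κ)
    (hτ : 2 * c < τ * κ) (hμ : σ * κ / (2 * c) < μ - 1) :
    ∀ᶠ q : ℕ in atTop, Smooth κ q → ∀ p : ℤ, (q : ℝ) ^ (-μ) ≤ |Real.pi - p / q| := by
  have hR0 : 0 < R := by linarith
  have hcR : (1 : ℝ) ≤ c := by exact_mod_cast hc1
  have hc0 : (0 : ℝ) < c := by linarith
  obtain ⟨ε, hε⟩ : ∃ ε : ℝ, ε = τ * κ / (2 * c) - 1 := ⟨_, rfl⟩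
  obtain ⟨η, hη⟩ : ∃ η : ℝ, η = μ - 1 - σ * κ / (2 * c) := ⟨_, rfl⟩
  have hε0 : 0 < ε := by
    rw [hε, sub_pos, lt_div_iff₀ (by positivity)]; linarith
  have hη0 : 0 < η := by rw [hη]; linarith
  have hτ0 : 0 < τ := by
    by_contra hneg
    push Not at hneg
    nlinarith
  obtain ⟨K1, hK1⟩ : ∃ K1 : ℝ, K1 = 2 * (100 * κ ^ 2) * 512 * Real.exp τ := ⟨_, rfl⟩
  obtain ⟨K2, hK2⟩ : ∃ K2 : ℝ, K2 = 2 * (100 * κ ^ 2) * (R + 2 / R) ^ 3 := ⟨_, rfl⟩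
  have hlog : Tendsto (fun q : ℕ => Real.log q) atTop atTop :=
    Real.tendsto_log_atTop.comp tendsto_natCast_atTop_atTop
  have e1 := hlog.eventually (sq_le_exp K1 ε hε0)
  have e2 := hlog.eventually (sq_le_exp K2 η hη0)
  have e3 := hlog.eventually (eventually_ge_atTop (6 * c / κ))
  filter_upwards [e1, e2, e3, eventually_gt_atTop 0] with q h1 h2 h3 hq hs p
  obtain ⟨L, hL⟩ : ∃ L : ℝ, L = Real.log q := ⟨_, rfl⟩
  rw [← hL] at h1 h2 h3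
  have hqR : (0 : ℝ) < q := by exact_mod_cast hq
  have hqe : (q : ℝ) = Real.exp L := by rw [hL, Real.exp_log hqR]
  have hL0 : 0 < L := lt_of_lt_of_le (by positivity) h3
  have hcL : 6 * c ≤ κ * L := by
    rw [div_le_iff₀ hκ] at h3
    linarith
  obtain ⟨x, hx⟩ : ∃ x : ℝ, x = κ * L / (2 * c) := ⟨_, rfl⟩
  have hx3 : 3 ≤ x := by rw [hx, le_div_iff₀ (by positivity)]; linarith
  have hxc : x * (2 * c) = κ * L := by rw [hx]; field_simp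
  obtain ⟨ν, hν⟩ : ∃ ν : ℕ, ν = ⌊x⌋₊ := ⟨_, rfl⟩
  have hν1 : (ν : ℝ) ≤ x := by rw [hν]; exact Nat.floor_le (by linarith)
  have hν2 : x < ν + 1 := by rw [hν]; exact Nat.lt_floor_add_one _
  have hν3 : 2 ≤ ν := by
    have h5 : (2 : ℝ) < (ν : ℝ) := by linarith
    have h6 : 2 < ν := by exact_mod_cast h5
    omega
  have hcν : (c : ℝ) * ν ≤ κ * L / 2 := by
    have : (c : ℝ) * ν ≤ c * x := mul_le_mul_of_nonneg_left hν1 hc0.le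
    linarith
  have hdvd : Nat.lcmUpto (2 * (c * ν)) ∣ q := by
    apply lcmUpto_dvd
    intro j hj1 hj2
    apply hs j hj1
    rw [← hL]
    have : (j : ℝ) ≤ ((2 * (c * ν) : ℕ) : ℝ) := by exact_mod_cast hj2
    push_cast at this
    linarith
  have key := stepg a b c ν hc1 hac hdeg hlow hν3 v d1 d2 ρ M R hρ hpath hR hM q hq hdvd p
  have hkap := kap'_le (c * ν) (Nat.mul_pos hc1 (by omega))
  have hkap' : (2 : ℝ) ^ kap' (c * ν) ≤ 100 * κ ^ 2 * L ^ 2 := by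
    refine hkap.trans ?_
    push_cast
    have h0 : (0 : ℝ) ≤ (c : ℝ) * ν := by positivity
    have h5 : (c : ℝ) * ν ≤ κ * L := by nlinarith
    have h6 : ((c : ℝ) * ν) ^ 2 ≤ (κ * L) ^ 2 := pow_le_pow_left₀ h0 h5 2
    nlinarith
  have hkap0 : (0 : ℝ) < (2 : ℝ) ^ kap' (c * ν) := by positivity
  -- first term
  have t1 : (2 : ℝ) ^ kap' (c * ν) * (q * (512 * ρ ^ ν)) ≤ 1 / 2 := by
    have a1 : ρ ^ ν ≤ Real.exp τ * Real.exp (-((1 + ε) * L)) := by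
      calc ρ ^ ν ≤ Real.exp (-τ) ^ ν := pow_le_pow_left₀ hρ hρτ ν
        _ = Real.exp (-(τ * ν)) := by rw [← Real.exp_nat_mul]; congr 1; ring
        _ ≤ Real.exp (τ + -((1 + ε) * L)) := by
            apply Real.exp_le_exp.mpr
            have e5 : (1 + ε) * L = τ * x := by rw [hε, hx]; ring
            rw [e5]
            nlinarith
        _ = _ := Real.exp_add _ _
    have a2 : K1 * L ^ 2 * Real.exp (-(ε * L)) ≤ 1 := by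
      rw [Real.exp_neg]
      rw [mul_inv_le_iff₀ (Real.exp_pos _), one_mul]
      exact h1
    have a3 : Real.exp L * Real.exp (-((1 + ε) * L)) = Real.exp (-(ε * L)) := by
      rw [← Real.exp_add]; congr 1; ring
    calc (2 : ℝ) ^ kap' (c * ν) * (q * (512 * ρ ^ ν))
        ≤ (100 * κ ^ 2 * L ^ 2) *
          (Real.exp L * (512 * (Real.exp τ * Real.exp (-((1 + ε) * L))))) := by
          rw [hqe]; gcongr
      _ = (100 * κ ^ 2 * L ^ 2) * 512 * Real.exp τ *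
          (Real.exp L * Real.exp (-((1 + ε) * L))) := by ring
      _ = (K1 * L ^ 2 * Real.exp (-(ε * L))) / 2 := by rw [a3, hK1]; ring
      _ ≤ 1 / 2 := by linarith
  -- second term
  have t2 : (2 : ℝ) ^ kap' (c * ν) * ((R + 2 / R) ^ 3 * M ^ ν) ≤
      Real.exp ((μ - 1) * L) / 2 := by
    have a1 : M ^ ν ≤ Real.exp ((σ * κ / (2 * c)) * L) := by
      calc M ^ ν ≤ Real.exp σ ^ ν := pow_le_pow_left₀ hM0 hMσ ν
        _ = Real.exp (σ * ν) := by rw [← Real.exp_nat_mul]; congr 1; ring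
        _ ≤ Real.exp ((σ * κ / (2 * c)) * L) := by
            apply Real.exp_le_exp.mpr
            calc σ * (ν : ℝ) ≤ σ * x := mul_le_mul_of_nonneg_left hν1 hσ
              _ = _ := by rw [hx]; ring
    calc (2 : ℝ) ^ kap' (c * ν) * ((R + 2 / R) ^ 3 * M ^ ν)
        ≤ (100 * κ ^ 2 * L ^ 2) * ((R + 2 / R) ^ 3 * Real.exp ((σ * κ / (2 * c)) * L)) := by
          gcongr
      _ = (K2 * L ^ 2) * Real.exp ((σ * κ / (2 * c)) * L) / 2 := by rw [hK2]; ring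
      _ ≤ Real.exp (η * L) * Real.exp ((σ * κ / (2 * c)) * L) / 2 := by gcongr
      _ = Real.exp ((μ - 1) * L) / 2 := by
          rw [← Real.exp_add, hη]; congr 2; ring
  have t3 : 1 / 2 ≤ Real.exp ((μ - 1) * L) / 2 * |q * Real.pi - p| := by
    have e : (2 : ℝ) ^ kap' (c * ν) *
        (q * (512 * ρ ^ ν) + (R + 2 / R) ^ 3 * M ^ ν * |q * Real.pi - p|) =
        (2 : ℝ) ^ kap' (c * ν) * (q * (512 * ρ ^ ν)) +
          ((2 : ℝ) ^ kap' (c * ν) * ((R + 2 / R) ^ 3 * M ^ ν)) * |q * Real.pi - p| := by ring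
    rw [e] at key
    have h5 := mul_le_mul_of_nonneg_right t2 (abs_nonneg ((q : ℝ) * Real.pi - p))
    linarith
  have t4 : Real.exp (-((μ - 1) * L)) ≤ |q * Real.pi - p| := by
    rw [Real.exp_neg, inv_le_iff_one_le_mul₀ (Real.exp_pos _)]
    linarith
  have e5 : |Real.pi - p / q| = |q * Real.pi - p| / q := by
    rw [eq_div_iff hqR.ne', ← abs_of_pos hqR, ← abs_mul, abs_of_pos hqR]
    congr 1
    field_simp
  rw [e5, le_div_iff₀ hqR]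
  refine le_trans (le_of_eq ?_) t4
  rw [hqe, ← Real.exp_mul, ← Real.exp_add]
  congr 1
  ring

end Pool.Agent.TH67.RP
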