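import Pool.Agent.TH67.RP.Ana

/-!
# Bounds for the integrand `(w-2)^(4ν) (w-3)^(2Bν) w^e / (z s^(6ν))`
-/

open Polynomial

namespace Pool.Agent.TH67.RP

/-- the numerator -/
noncomputable def Qe (B ν e : ℕ) : ℚ[X] := (X - C 2) ^ (4 * ν) * (X - C 3) ^ (2 * B * ν) * X ^ e

theorem aeval_Qe (B ν e : ℕ) (w : ℂ) :
    aeval w (Qe B ν e) = (w - 2) ^ (4 * ν) * (w - 3) ^ (2 * B * ν) * w ^ e := by
  unfold Qe
  simp only [map_mul, map_pow, map_sub, aeval_X, aeval_C]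
  simp

theorem ww_norm_le {z : ℂ} : ‖ww z‖ ≤ ‖z‖ + 2 / ‖z‖ := by
  unfold ww
  refine (norm_add_le _ _).trans ?_
  rw [norm_div, Complex.norm_ofNat]

/-- the integrand on the path -/
theorem Fq_bound (B ν e : ℕ) (z : ℂ) (h1 : 1 ≤ ‖z‖) (h2 : ‖z‖ ≤ 2) (hs : ss z ≠ 0) (ρ : ℝ)
    (h : ‖ww z - 2‖ ^ 4 * ‖ww z - 3‖ ^ (2 * B) ≤ ρ * ‖ss z‖ ^ 6) :
    ‖Fq (3 * ν) (Qe B ν e) z‖ ≤ 4 ^ e * ρ ^ ν := by
  have hs0 : 0 < ‖ss z‖ := norm_pos_iff.mpr hs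
  have hw : ‖ww z‖ ≤ 4 := by
    refine ww_norm_le.trans ?_
    have : 2 / ‖z‖ ≤ 2 := by rw [div_le_iff₀ (by linarith)]; linarith
    linarith
  have h3 : (‖ww z - 2‖ ^ 4 * ‖ww z - 3‖ ^ (2 * B)) ^ ν ≤ (ρ * ‖ss z‖ ^ 6) ^ ν :=
    pow_le_pow_left₀ (by positivity) h ν
  unfold Fq
  rw [aeval_Qe, norm_div, norm_mul, norm_mul, norm_mul, norm_pow, norm_pow, norm_pow, norm_pow,
    div_le_iff₀ (by positivity)]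
  have h4 : ‖ww z‖ ^ e ≤ 4 ^ e := pow_le_pow_left₀ (norm_nonneg _) hw e
  have e1 : ‖ww z - 2‖ ^ (4 * ν) * ‖ww z - 3‖ ^ (2 * B * ν) =
      (‖ww z - 2‖ ^ 4 * ‖ww z - 3‖ ^ (2 * B)) ^ ν := by
    rw [mul_pow, ← pow_mul, ← pow_mul]
  have e2 : (ρ * ‖ss z‖ ^ 6) ^ ν = ρ ^ ν * ‖ss z‖ ^ (2 * (3 * ν)) := by
    rw [mul_pow, ← pow_mul]
    congr 2; ring
  rw [e1]
  rw [e2] at h3
  have h5 : 0 ≤ ρ ^ ν * ‖ss z‖ ^ (2 * (3 * ν)) := le_trans (by positivity) h3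
  calc (‖ww z - 2‖ ^ 4 * ‖ww z - 3‖ ^ (2 * B)) ^ ν * ‖ww z‖ ^ e
      ≤ (ρ ^ ν * ‖ss z‖ ^ (2 * (3 * ν))) * 4 ^ e := mul_le_mul h3 h4 (by positivity) h5
    _ ≤ (ρ ^ ν * ‖ss z‖ ^ (2 * (3 * ν))) * 4 ^ e * ‖z‖ :=
        le_mul_of_one_le_right (by positivity) h1
    _ = _ := by ring

/-- the integrand on the circle of radius `R` -/
theorem circ_bound (B ν e : ℕ) (R : ℝ) (hR : 2 ≤ R) (M : ℝ)
    (hM : (R + 2 / R + 2) ^ 4 * (R + 2 / R + 3) ^ (2 * B) ≤ M * (R - 2 / R) ^ 6) (z : ℂ)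
    (hz : ‖z‖ = R) :
    ss z ≠ 0 ∧ ‖aeval (ww z) (Qe B ν e) / ss z ^ (2 * (3 * ν))‖ ≤ (R + 2 / R) ^ e * M ^ ν := by
  have hR0 : 0 < R := by linarith
  have h2R : 2 / R ≤ 1 := by rw [div_le_iff₀ hR0]; linarith
  have hw : ‖ww z‖ ≤ R + 2 / R := by
    have := ww_norm_le (z := z)
    rwa [hz] at this
  have hw2 : ‖ww z - 2‖ ≤ R + 2 / R + 2 := by
    refine (norm_sub_le _ _).trans ?_
    rw [Complex.norm_ofNat]; linarith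
  have hw3 : ‖ww z - 3‖ ≤ R + 2 / R + 3 := by
    refine (norm_sub_le _ _).trans ?_
    rw [Complex.norm_ofNat]; linarith
  have hs : R - 2 / R ≤ ‖ss z‖ := by
    have h1 : ‖z‖ - ‖2 / z‖ ≤ ‖z - 2 / z‖ := norm_sub_norm_le _ _
    rw [norm_div, Complex.norm_ofNat, hz] at h1
    exact h1
  have hs1 : 0 < R - 2 / R := by linarith
  have hs0 : 0 < ‖ss z‖ := lt_of_lt_of_le hs1 hs
  refine ⟨norm_pos_iff.mp hs0, ?_⟩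
  have hM0 : 0 ≤ M := by
    by_contra hneg
    push Not at hneg
    have h1 : M * (R - 2 / R) ^ 6 < 0 := mul_neg_of_neg_of_pos hneg (by positivity)
    have h2 : 0 ≤ (R + 2 / R + 2) ^ 4 * (R + 2 / R + 3) ^ (2 * B) := by positivity
    linarith
  rw [aeval_Qe, norm_div, norm_mul, norm_mul, norm_pow, norm_pow, norm_pow, norm_pow,
    div_le_iff₀ (by positivity)]
  have h3 : (‖ww z - 2‖ ^ 4 * ‖ww z - 3‖ ^ (2 * B)) ≤ M * ‖ss z‖ ^ 6 := by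
    calc ‖ww z - 2‖ ^ 4 * ‖ww z - 3‖ ^ (2 * B)
        ≤ (R + 2 / R + 2) ^ 4 * (R + 2 / R + 3) ^ (2 * B) := by gcongr
      _ ≤ M * (R - 2 / R) ^ 6 := hM
      _ ≤ M * ‖ss z‖ ^ 6 := by gcongr
  have h4 : (‖ww z - 2‖ ^ 4 * ‖ww z - 3‖ ^ (2 * B)) ^ ν ≤ (M * ‖ss z‖ ^ 6) ^ ν :=
    pow_le_pow_left₀ (by positivity) h3 ν
  have e1 : ‖ww z - 2‖ ^ (4 * ν) * ‖ww z - 3‖ ^ (2 * B * ν) =
      (‖ww z - 2‖ ^ 4 * ‖ww z - 3‖ ^ (2 * B)) ^ ν := by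
    rw [mul_pow, ← pow_mul, ← pow_mul]
  have e2 : (M * ‖ss z‖ ^ 6) ^ ν = M ^ ν * ‖ss z‖ ^ (2 * (3 * ν)) := by
    rw [mul_pow, ← pow_mul]
    congr 2; ring
  have h5 : ‖ww z‖ ^ e ≤ (R + 2 / R) ^ e := pow_le_pow_left₀ (norm_nonneg _) hw e
  rw [e1]
  rw [e2] at h4
  calc (‖ww z - 2‖ ^ 4 * ‖ww z - 3‖ ^ (2 * B)) ^ ν * ‖ww z‖ ^ e
      ≤ (M ^ ν * ‖ss z‖ ^ (2 * (3 * ν))) * (R + 2 / R) ^ e :=
        mul_le_mul h4 h5 (by positivity) (by positivity)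
    _ = _ := by ring

theorem nsq (z : ℂ) : ‖z‖ ^ 2 = z.re ^ 2 + z.im ^ 2 := by
  rw [← Complex.normSq_eq_norm_sq, Complex.normSq_apply]
  ring

/-- from coordinates to norms -/
theorem coord (b : ℕ) (ρ x y : ℝ) (hρ : 0 ≤ ρ) (hx : 1 ≤ x) (hy : y = 0 → x = 1)
    (h : (((x - 1) ^ 2 + (y - 1) ^ 2) * ((x - 1) ^ 2 + (y + 1) ^ 2)) ^ 2 *
      (((x - 1) ^ 2 + y ^ 2) * ((x - 2) ^ 2 + y ^ 2)) ^ (b + 1) ≤
      ρ * ((x ^ 2 + y ^ 2) ^ b * ((x ^ 2 + y ^ 2 + 2) ^ 2 - 8 * x ^ 2) ^ 3))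
    (z : ℂ) (hz : z = (x : ℂ) + (y : ℂ) * Complex.I) :
    0 < z.re ∧ 1 ≤ ‖z‖ ∧ ss z ≠ 0 ∧
      ‖ww z - 2‖ ^ 4 * ‖ww z - 3‖ ^ (2 * (b + 1)) ≤ ρ * ‖ss z‖ ^ 6 := by
  have hre : z.re = x := by rw [hz]; simp
  have him : z.im = y := by rw [hz]; simp
  have hre2 : (z ^ 2).re = x ^ 2 - y ^ 2 := by rw [sq, Complex.mul_re, hre, him]; ring
  have him2 : (z ^ 2).im = 2 * x * y := by rw [sq, Complex.mul_im, hre, him]; ring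
  have hz2 : z ^ 2 ≠ 2 := by
    intro h0
    have h1 := congrArg Complex.im h0
    have h2 := congrArg Complex.re h0
    rw [him2] at h1
    rw [hre2] at h2
    simp at h1 h2
    have hx0 : x ≠ 0 := by linarith
    have hy0 : y = 0 := h1.resolve_left hx0
    have hx1 := hy hy0
    rw [hy0, hx1] at h2
    norm_num at h2
  have hE : ‖z‖ ^ 2 = x ^ 2 + y ^ 2 := by rw [nsq, hre, him]
  have hF : ‖z ^ 2 - 2‖ ^ 2 = (x ^ 2 + y ^ 2 + 2) ^ 2 - 8 * x ^ 2 := by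
    rw [nsq, Complex.sub_re, Complex.sub_im, hre2, him2]
    simp
    ring
  have hP : ‖z ^ 2 - 2 * z + 2‖ ^ 2 = ((x - 1) ^ 2 + (y - 1) ^ 2) * ((x - 1) ^ 2 + (y + 1) ^ 2) := by
    rw [nsq, Complex.add_re, Complex.add_im, Complex.sub_re, Complex.sub_im, hre2, him2]
    simp [hre, him]
    ring
  have hQ : ‖z ^ 2 - 3 * z + 2‖ ^ 2 = ((x - 1) ^ 2 + y ^ 2) * ((x - 2) ^ 2 + y ^ 2) := by
    rw [nsq, Complex.add_re, Complex.add_im, Complex.sub_re, Complex.sub_im, hre2, him2]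
    simp [hre, him]
    ring
  have hz1 : 1 ≤ ‖z‖ := by
    have := Complex.abs_re_le_norm z
    rw [hre, abs_of_nonneg (by linarith)] at this
    linarith
  have hn0 : 0 < ‖z‖ := by linarith
  have hz0 : z ≠ 0 := norm_pos_iff.mp hn0
  have hd0 : 0 < ‖z ^ 2 - 2‖ := norm_pos_iff.2 (sub_ne_zero.2 hz2)
  have es : ss z = (z ^ 2 - 2) / z := by unfold ss; field_simp
  have e2 : ww z - 2 = (z ^ 2 - 2 * z + 2) / z := by unfold ww; field_simp; ring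
  have e3 : ww z - 3 = (z ^ 2 - 3 * z + 2) / z := by unfold ww; field_simp; ring
  refine ⟨by rw [hre]; linarith, hz1, ?_, ?_⟩
  · rw [es]
    exact div_ne_zero (sub_ne_zero.2 hz2) hz0
  · rw [← hF, ← hE, ← hP, ← hQ] at h
    rw [es, e2, e3, norm_div, norm_div, norm_div, div_pow, div_pow, div_pow,
      div_mul_div_comm, ← mul_div_assoc, div_le_div_iff₀ (by positivity) (by positivity)]
    have p1 : ‖z ^ 2 - 2 * z + 2‖ ^ 4 * ‖z ^ 2 - 3 * z + 2‖ ^ (2 * (b + 1)) =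
        (‖z ^ 2 - 2 * z + 2‖ ^ 2) ^ 2 * (‖z ^ 2 - 3 * z + 2‖ ^ 2) ^ (b + 1) := by
      rw [← pow_mul, ← pow_mul]
    have p2 : ‖z‖ ^ 4 * ‖z‖ ^ (2 * (b + 1)) = (‖z‖ ^ 2) ^ b * ‖z‖ ^ 6 := by
      rw [← pow_mul, ← pow_add, ← pow_add]
      congr 1; ring
    rw [p1, p2]
    calc (‖z ^ 2 - 2 * z + 2‖ ^ 2) ^ 2 * (‖z ^ 2 - 3 * z + 2‖ ^ 2) ^ (b + 1) * ‖z‖ ^ 6
        ≤ (ρ * ((‖z‖ ^ 2) ^ b * (‖z ^ 2 - 2‖ ^ 2) ^ 3)) * ‖z‖ ^ 6 := by gcongr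
      _ = ρ * ‖z ^ 2 - 2‖ ^ 6 * ((‖z‖ ^ 2) ^ b * ‖z‖ ^ 6) := by ring

end Pool.Agent.TH67.RP
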