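import Pool.Agent.TH67.RP.Two
import Pool.Agent.TH67.RP.Path

/-!
# The main inequality for denominators divisible by `lcm(1, …, 6ν)`
-/

open Polynomial

namespace Pool.Agent.TH67.RP

open Pool.Agent.H326R2.Pi

theorem kap'_le (m : ℕ) (hm : 1 ≤ m) : (2 : ℝ) ^ kap' m ≤ 100 * (m : ℝ) ^ 2 := by
  have h : 2 ^ kap' m ≤ 100 * m ^ 2 := Nat.pow_log_le_self 2 (by positivity)
  exact_mod_cast h

/-- the forms of level `ν`: coefficient, primitive, denominator -/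
theorem forms (B ν : ℕ) (hB3 : B ≤ 3) (hν : 2 ≤ ν) : ∃ (k : Fin 4 → ℤ) (Ψ : Fin 4 → ℚ[X]),
    ∀ e : Fin 4, LL (3 * ν) (Ψ e) = Qe B ν e - C (k e : ℚ) * (X ^ 2 - 8) ^ (3 * ν) ∧
      ∃ r : ℤ, ((2 : ℚ) ^ kap' (3 * ν) * Nat.lcmUpto (6 * ν)) *
        (4 * (Ψ e).eval 2 / 4 ^ (3 * ν)) = r := by
  have h : ∀ e : Fin 4, ∃ (k : ℤ) (Ψ : ℚ[X]),
      LL (3 * ν) Ψ = Qe B ν e - C (k : ℚ) * (X ^ 2 - 8) ^ (3 * ν) ∧
      ∃ r : ℤ, ((2 : ℚ) ^ kap' (3 * ν) * Nat.lcmUpto (6 * ν)) *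
        (4 * Ψ.eval 2 / 4 ^ (3 * ν)) = r := by
    intro e
    have he : (e : ℕ) ≤ 3 := by have := e.isLt; omega
    have hdeg : (((X - C 3) ^ (2 * B * ν) * X ^ (e : ℕ) : ℤ[X])).natDegree ≤ 2 * B * ν + 3 := by
      refine natDegree_mul_le.trans (Nat.add_le_add ?_ ?_)
      · rw [natDegree_pow, natDegree_X_sub_C, mul_one]
      · rw [natDegree_X_pow]; exact he
    have hBν : 2 * B * ν ≤ 6 * ν := Nat.mul_le_mul_right _ (by omega)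
    obtain ⟨k, Ψ, h1, h2⟩ := den (3 * ν) (6 * ν) (2 * ν) (by omega) (by omega) (by omega) (by omega)
      ((X - C 3) ^ (2 * B * ν) * X ^ (e : ℕ)) (by omega)
    refine ⟨k, Ψ, ?_, h2⟩
    rw [h1]
    congr 1
    unfold Qe
    simp only [Polynomial.map_mul, Polynomial.map_pow, Polynomial.map_sub, Polynomial.map_X,
      Polynomial.map_C]
    rw [show 2 * (2 * ν) = 4 * ν by ring]
    norm_num
    ring
  choose k hk using h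
  choose Ψ hΨ using hk
  exact ⟨k, Ψ, hΨ⟩

/-- the main inequality -/
theorem step (B ν : ℕ) (hB1 : 1 ≤ B) (hB3 : B ≤ 3) (hν : 2 ≤ ν) (v : ℂ)
    (d1 : ‖v - (1 + Complex.I)‖ ≤ 1) (d2 : ‖1 - v‖ ≤ 1) (ρ M R : ℝ) (hρ : 0 ≤ ρ)
    (hpath : ∀ z : ℂ, (z ∈ segment ℝ (1 + Complex.I) v ∨ z ∈ segment ℝ v 1) →
      0 < z.re ∧ 1 ≤ ‖z‖ ∧ ‖z‖ ≤ 2 ∧ ss z ≠ 0 ∧
        ‖ww z - 2‖ ^ 4 * ‖ww z - 3‖ ^ (2 * B) ≤ ρ * ‖ss z‖ ^ 6)
    (hR : 2 ≤ R) (hM : (R + 2 / R + 2) ^ 4 * (R + 2 / R + 3) ^ (2 * B) ≤ M * (R - 2 / R) ^ 6)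
    (q : ℕ) (hq : 0 < q) (hdvd : Nat.lcmUpto (6 * ν) ∣ q) (p : ℤ) :
    1 ≤ (2 : ℝ) ^ kap' (3 * ν) *
      (q * (512 * ρ ^ ν) + (R + 2 / R) ^ 3 * M ^ ν * |q * Real.pi - p|) := by
  obtain ⟨k, Ψ, hΨ⟩ := forms B ν hB3 hν
  obtain ⟨c, hc⟩ : ∃ c : ℚ, c = 8 / (-4) ^ (3 * ν) := ⟨_, rfl⟩
  have hc0 : c ≠ 0 := by
    rw [hc]
    exact div_ne_zero (by norm_num) (pow_ne_zero _ (by norm_num))
  have hqQ : (q : ℚ) ≠ 0 := by exact_mod_cast hq.ne'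
  -- a non-vanishing form
  obtain ⟨e, he⟩ : ∃ e : Fin 4, (p : ℚ) * k e + ((q : ℚ) * c) * (Ψ e).eval 2 ≠ 0 := by
    by_contra hcon
    push Not at hcon
    refine zero_estimate (3 * ν) (4 * ν) (2 * B * ν) ?_ k Ψ ?_ (p : ℚ) ((q : ℚ) * c)
      (mul_ne_zero hqQ hc0) hcon
    · have : 1 * ν ≤ B * ν := Nat.mul_le_mul_right _ hB1
      have h2 : 2 * B * ν = 2 * (B * ν) := by ring
      omega
    · intro e
      exact (hΨ e).1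
  obtain ⟨h1, r, hr⟩ := hΨ e
  obtain ⟨y, hy⟩ : ∃ y : ℚ, y = (Ψ e).eval 2 := ⟨_, rfl⟩
  have he4 : (e : ℕ) ≤ 3 := by have := e.isLt; omega
  -- integrality
  obtain ⟨q1, hq1⟩ := hdvd
  obtain ⟨n, hn⟩ : ∃ n : ℤ, (2 : ℚ) ^ kap' (3 * ν) * ((p : ℚ) * k e + ((q : ℚ) * c) * y) = n := by
    refine ⟨2 ^ kap' (3 * ν) * (p * k e) + q1 * (2 * (-1) ^ (3 * ν) * r), ?_⟩
    have h2 : c = 8 * (-1) ^ (3 * ν) / 4 ^ (3 * ν) := by
      rw [hc, show (-4 : ℚ) = (-1) * 4 by norm_num, mul_pow]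
      have : ((-1 : ℚ) ^ (3 * ν)) * ((-1 : ℚ) ^ (3 * ν)) = 1 := by
        rw [← mul_pow]; norm_num
      have h4 : (4 : ℚ) ^ (3 * ν) ≠ 0 := by positivity
      have h5 : ((-1 : ℚ) ^ (3 * ν)) ≠ 0 := pow_ne_zero _ (by norm_num)
      rw [div_eq_div_iff (mul_ne_zero h5 h4) h4]
      linear_combination (-8 * (4 : ℚ) ^ (3 * ν)) * this
    rw [← hy] at hr
    rw [hq1, h2]
    push_cast
    linear_combination (2 * (-1 : ℚ) ^ (3 * ν) * (q1 : ℚ)) * hr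
  have hn0 : n ≠ 0 := by
    intro h0
    rw [h0, Int.cast_zero] at hn
    rcases mul_eq_zero.mp hn with h3 | h3
    · exact absurd h3 (by positivity)
    · rw [hy] at h3
      exact he h3
  have hn1 : (1 : ℝ) ≤ |(n : ℝ)| := by
    have : (1 : ℤ) ≤ |n| := Int.one_le_abs hn0
    exact_mod_cast this
  have hnR : (n : ℝ) = (2 : ℝ) ^ kap' (3 * ν) *
      (q * ((k e : ℝ) * Real.pi + 8 * (y : ℝ) / (-4) ^ (3 * ν)) -
        (k e : ℝ) * (q * Real.pi - p)) := by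
    have h3 : (n : ℝ) = (2 : ℝ) ^ kap' (3 * ν) *
        ((p : ℝ) * k e + ((q : ℝ) * ((c : ℚ) : ℝ)) * (y : ℝ)) := by
      have := congrArg (fun t : ℚ => (t : ℝ)) hn
      push_cast at this
      exact this.symm
    have h4 : ((c : ℚ) : ℝ) = 8 / (-4) ^ (3 * ν) := by rw [hc]; push_cast; rfl
    rw [h3, h4]
    ring
  -- the two bounds
  have b1 : |(k e : ℝ) * Real.pi + 8 * (y : ℝ) / (-4) ^ (3 * ν)| ≤ 8 * (4 ^ (e : ℕ) * ρ ^ ν) := by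
    rw [hy]
    apply form_bound (3 * ν) (by omega) (k e) (Ψ e) (Qe B ν e) h1 v _ (by positivity) d1 d2
    intro z hz
    obtain ⟨z1, z2, z3, z4, z5⟩ := hpath z hz
    exact ⟨z1, z4, Fq_bound B ν e z z2 z3 z4 ρ z5⟩
  have b2 : |(k e : ℝ)| ≤ (R + 2 / R) ^ (e : ℕ) * M ^ ν :=
    coeff_bound (3 * ν) (by omega) (k e) (Ψ e) (Qe B ν e) h1 R _ (by linarith)
      (fun z hz => circ_bound B ν e R hR M hM z hz)
  have hR0 : 0 < R := by linarith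
  have hM0 : 0 ≤ M := by
    by_contra hneg
    push Not at hneg
    have hs1 : 0 < R - 2 / R := by
      have : 2 / R ≤ 1 := by rw [div_le_iff₀ hR0]; linarith
      linarith
    have h3 : M * (R - 2 / R) ^ 6 < 0 := mul_neg_of_neg_of_pos hneg (by positivity)
    have h4 : 0 ≤ (R + 2 / R + 2) ^ 4 * (R + 2 / R + 3) ^ (2 * B) := by positivity
    linarith
  have b1' : |(k e : ℝ) * Real.pi + 8 * (y : ℝ) / (-4) ^ (3 * ν)| ≤ 512 * ρ ^ ν := by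
    refine b1.trans ?_
    have h3 : (4 : ℝ) ^ (e : ℕ) ≤ 4 ^ 3 := pow_le_pow_right₀ (by norm_num) he4
    have h4 : 0 ≤ ρ ^ ν := by positivity
    nlinarith
  have b2' : |(k e : ℝ)| ≤ (R + 2 / R) ^ 3 * M ^ ν := by
    refine b2.trans ?_
    have h3 : (R + 2 / R) ^ (e : ℕ) ≤ (R + 2 / R) ^ 3 := by
      apply pow_le_pow_right₀ _ he4
      have : 0 ≤ 2 / R := by positivity
      linarith
    gcongr
  rw [hnR, abs_mul, abs_of_pos (by positivity)] at hn1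
  refine hn1.trans ?_
  apply mul_le_mul_of_nonneg_left _ (by positivity)
  refine (abs_sub _ _).trans (add_le_add ?_ ?_)
  · rw [abs_mul, abs_of_nonneg (Nat.cast_nonneg q)]
    gcongr
  · rw [abs_mul]
    gcongr

end Pool.Agent.TH67.RP
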