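import Pool.Agent.TH67.RP.Gen

/-!
# The main inequality with a multiplier
-/

open Polynomial Filter Topology

namespace Pool.Agent.TH67.RP

open Pool.Agent.H326R2.Pi

/-- the main inequality -/
theorem stepH (a b c ν : ℕ) (hc1 : 1 ≤ c) (hac : 2 * c ≤ 3 * a) (hdeg : 2 * a + b + 2 ≤ 4 * c)
    (hlow : 2 * c ≤ 2 * a + b) (hν : 2 ≤ ν) (v : ℂ)
    (d1 : ‖v - (1 + Complex.I)‖ ≤ 1) (d2 : ‖1 - v‖ ≤ 1) (ρ M R : ℝ) (hρ : 0 ≤ ρ)
    (hpath : ∀ z : ℂ, (z ∈ segment ℝ (1 + Complex.I) v ∨ z ∈ segment ℝ v 1) →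
      0 < z.re ∧ 1 ≤ ‖z‖ ∧ ‖z‖ ≤ 2 ∧ ss z ≠ 0 ∧
        ‖ww z - 2‖ ^ (2 * a) * ‖ww z - 3‖ ^ b ≤ ρ * ‖ss z‖ ^ (2 * c))
    (hR : 2 ≤ R)
    (hM : (R + 2 / R + 2) ^ (2 * a) * (R + 2 / R + 3) ^ b ≤ M * (R - 2 / R) ^ (2 * c))
    (q : ℕ) (hq : 0 < q) (H : ℕ) (hH : 0 < H) (hdvd : Nat.lcmUpto (2 * (c * ν)) ∣ H * q) (p : ℤ) :
    1 ≤ ((2 : ℝ) ^ kap' (c * ν) * H) *
      (q * (512 * ρ ^ ν) + (R + 2 / R) ^ 3 * M ^ ν * |q * Real.pi - p|) := by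
  obtain ⟨k, Ψ, hΨ⟩ := formsg a b c ν hc1 hac hdeg hν
  have hm1 : 1 ≤ c * ν := Nat.mul_pos hc1 (by omega)
  obtain ⟨m, hm⟩ : ∃ m, m = c * ν := ⟨_, rfl⟩
  rw [← hm] at hΨ hm1 hdvd ⊢
  obtain ⟨κ, hκ⟩ : ∃ κ : ℚ, κ = 8 / (-4) ^ m := ⟨_, rfl⟩
  have hκ0 : κ ≠ 0 := by
    rw [hκ]
    exact div_ne_zero (by norm_num) (pow_ne_zero _ (by norm_num))
  have hqQ : (q : ℚ) ≠ 0 := by exact_mod_cast hq.ne'
  -- a non-vanishing form
  obtain ⟨e, he⟩ : ∃ e : Fin 4, (p : ℚ) * k e + ((q : ℚ) * κ) * (Ψ e).eval 2 ≠ 0 := by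
    by_contra hcon
    push Not at hcon
    refine zero_estimate m (2 * a * ν) (b * ν) ?_ k Ψ ?_ (p : ℚ) ((q : ℚ) * κ)
      (mul_ne_zero hqQ hκ0) hcon
    · have : 2 * c * ν ≤ (2 * a + b) * ν := Nat.mul_le_mul_right _ hlow
      rw [hm]
      nlinarith
    · intro e
      exact (hΨ e).1
  obtain ⟨h1, r, hr⟩ := hΨ e
  obtain ⟨y, hy⟩ : ∃ y : ℚ, y = (Ψ e).eval 2 := ⟨_, rfl⟩
  have he4 : (e : ℕ) ≤ 3 := by have := e.isLt; omega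
  -- integrality
  obtain ⟨q1, hq1⟩ := hdvd
  have hHR : (0 : ℝ) < H := by exact_mod_cast hH
  have hHQ : (0 : ℚ) < H := by exact_mod_cast hH
  have hq1' : (H : ℚ) * q = (Nat.lcmUpto (2 * m) : ℚ) * q1 := by exact_mod_cast hq1
  obtain ⟨n, hn⟩ : ∃ n : ℤ, ((2 : ℚ) ^ kap' m * H) * ((p : ℚ) * k e + ((q : ℚ) * κ) * y) = n := by
    refine ⟨2 ^ kap' m * H * (p * k e) + q1 * (2 * (-1) ^ m * r), ?_⟩
    have h2 : κ = 8 * (-1) ^ m / 4 ^ m := by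
      rw [hκ, show (-4 : ℚ) = (-1) * 4 by norm_num, mul_pow]
      have : ((-1 : ℚ) ^ m) * ((-1 : ℚ) ^ m) = 1 := by
        rw [← mul_pow]; norm_num
      have h4 : (4 : ℚ) ^ m ≠ 0 := by positivity
      have h5 : ((-1 : ℚ) ^ m) ≠ 0 := pow_ne_zero _ (by norm_num)
      rw [div_eq_div_iff (mul_ne_zero h5 h4) h4]
      linear_combination (-8 * (4 : ℚ) ^ m) * this
    rw [← hy] at hr
    rw [h2]
    push_cast
    linear_combination (2 * (-1 : ℚ) ^ m * (q1 : ℚ)) * hr +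
      ((2 : ℚ) ^ kap' m * (8 * (-1) ^ m / 4 ^ m) * y) * hq1'
  have hn0 : n ≠ 0 := by
    intro h0
    rw [h0, Int.cast_zero] at hn
    rcases mul_eq_zero.mp hn with h3 | h3
    · exact absurd h3 (by positivity)
    · rw [hy] at h3
      exact he h3
  have hn1 : (1 : ℝ) ≤ |(n : ℝ)| := by
    have : (1 : ℤ) ≤ |n| := Int.one_le_abs hn0
    exact_mod_cast this
  have hnR : (n : ℝ) = ((2 : ℝ) ^ kap' m * H) *
      (q * ((k e : ℝ) * Real.pi + 8 * (y : ℝ) / (-4) ^ m) -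
        (k e : ℝ) * (q * Real.pi - p)) := by
    have h3 : (n : ℝ) = ((2 : ℝ) ^ kap' m * H) *
        ((p : ℝ) * k e + ((q : ℝ) * ((κ : ℚ) : ℝ)) * (y : ℝ)) := by
      have := congrArg (fun t : ℚ => (t : ℝ)) hn
      push_cast at this
      exact this.symm
    have h4 : ((κ : ℚ) : ℝ) = 8 / (-4) ^ m := by rw [hκ]; push_cast; rfl
    rw [h3, h4]
    ring
  -- the two bounds
  have b1 : |(k e : ℝ) * Real.pi + 8 * (y : ℝ) / (-4) ^ m| ≤ 8 * (4 ^ (e : ℕ) * ρ ^ ν) := by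
    rw [hy]
    apply form_bound m hm1 (k e) (Ψ e) (Qg a b ν e) h1 v _ (by positivity) d1 d2
    intro z hz
    obtain ⟨z1, z2, z3, z4, z5⟩ := hpath z hz
    refine ⟨z1, z4, ?_⟩
    rw [hm]
    exact Fg_bound a b c ν e z z2 z3 z4 ρ z5
  have b2 : |(k e : ℝ)| ≤ (R + 2 / R) ^ (e : ℕ) * M ^ ν :=
    coeff_bound m hm1 (k e) (Ψ e) (Qg a b ν e) h1 R _ (by linarith)
      (fun z hz => by rw [hm]; exact circg_bound a b c ν e R hR M hM z hz)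
  have hR0 : 0 < R := by linarith
  have hM0 : 0 ≤ M := by
    by_contra hneg
    push Not at hneg
    have hs1 : 0 < R - 2 / R := by
      have : 2 / R ≤ 1 := by rw [div_le_iff₀ hR0]; linarith
      linarith
    have h3 : M * (R - 2 / R) ^ (2 * c) < 0 := mul_neg_of_neg_of_pos hneg (by positivity)
    have h4 : 0 ≤ (R + 2 / R + 2) ^ (2 * a) * (R + 2 / R + 3) ^ b := by positivity
    linarith
  have b1' : |(k e : ℝ) * Real.pi + 8 * (y : ℝ) / (-4) ^ m| ≤ 512 * ρ ^ ν := by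
    refine b1.trans ?_
    have h3 : (4 : ℝ) ^ (e : ℕ) ≤ 4 ^ 3 := pow_le_pow_right₀ (by norm_num) he4
    have h4 : 0 ≤ ρ ^ ν := by positivity
    nlinarith
  have b2' : |(k e : ℝ)| ≤ (R + 2 / R) ^ 3 * M ^ ν := by
    refine b2.trans ?_
    have h3 : (R + 2 / R) ^ (e : ℕ) ≤ (R + 2 / R) ^ 3 := by
      apply pow_le_pow_right₀ _ he4
      have : 0 ≤ 2 / R := by positivity
      linarith
    gcongr
  rw [hnR, abs_mul, abs_of_pos (by positivity)] at hn1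
  refine hn1.trans ?_
  apply mul_le_mul_of_nonneg_left _ (by positivity)
  refine (abs_sub _ _).trans (add_le_add ?_ ?_)
  · rw [abs_mul, abs_of_nonneg (Nat.cast_nonneg q)]
    gcongr
  · rw [abs_mul]
    gcongr

end Pool.Agent.TH67.RP
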