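import Pool.Agent.H326R2.Pi.Stmts

/-!
# A zero estimate for the linear forms in `1` and `π`

`LL m Ψ = (X² - 8) Ψ' - (2m-1) X Ψ`.
-/

open Polynomial

namespace Pool.Agent.TH67.RP

open Pool.Agent.H326R2.Pi

/-- degree of a solution -/
theorem natDegree_le_of_LL (m g : ℕ) (hg : 2 * m ≤ g + 1) (Ψ : ℚ[X])
    (h : (LL m Ψ).natDegree ≤ g + 1) : Ψ.natDegree ≤ g := by
  by_contra hcon
  push Not at hcon
  obtain ⟨d, hd⟩ : ∃ d, Ψ.natDegree = d + 1 := ⟨Ψ.natDegree - 1, by omega⟩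
  have h1 : (LL m Ψ).coeff (d + 2) = 0 := coeff_eq_zero_of_natDegree_lt (by omega)
  have h2 : (LL m Ψ).coeff (d + 2) =
      ((d : ℚ) + 1) * Ψ.coeff (d + 1) - (2 * (m : ℚ) - 1) * Ψ.coeff (d + 1) := by
    have e8 : ((8 : ℚ[X])) = C 8 := rfl
    have e1 : LL m Ψ = X ^ 2 * derivative Ψ - C 8 * derivative Ψ -
        C (2 * (m : ℚ) - 1) * (X * Ψ) := by
      unfold LL
      rw [← e8]
      simp only [map_sub, map_mul, map_natCast, map_one, map_ofNat]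
      ring
    rw [e1, coeff_sub, coeff_sub, coeff_C_mul, coeff_C_mul, coeff_X_mul,
      coeff_X_pow_mul', if_pos (by omega), coeff_derivative, coeff_derivative]
    have h3 : Ψ.coeff (d + 2 + 1) = 0 := coeff_eq_zero_of_natDegree_lt (by omega)
    rw [h3, show d + 2 - 2 = d by omega]
    ring
  rw [h2] at h1
  have h4 : Ψ.coeff (d + 1) ≠ 0 := by
    rw [← hd, coeff_natDegree]
    intro h0
    rw [leadingCoeff_eq_zero] at h0
    rw [h0] at hd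
    simp at hd
  have h5 : ((d : ℚ) + 1 - (2 * (m : ℚ) - 1)) * Ψ.coeff (d + 1) = 0 := by linarith
  rcases mul_eq_zero.mp h5 with h6 | h6
  · have h7 : (2 * m : ℕ) < d + 2 := by omega
    have h8 : ((2 * m : ℕ) : ℚ) < ((d + 2 : ℕ) : ℚ) := by exact_mod_cast h7
    push_cast at h8
    linarith
  · exact h4 h6

/-- multiplicity of a solution at a point where it vanishes -/
theorem pow_dvd_of_LL (m : ℕ) (a : ℚ) (ha : a ^ 2 ≠ 8) (n : ℕ) (Ψ : ℚ[X])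
    (h : (X - C a) ^ n ∣ LL m Ψ) (h0 : Ψ.eval a = 0) : (X - C a) ^ (n + 1) ∣ Ψ := by
  induction n with
  | zero =>
    rw [zero_add, pow_one]
    exact dvd_iff_isRoot.mpr h0
  | succ n ih =>
    obtain ⟨Θ, hΘ⟩ := ih (dvd_trans (pow_dvd_pow _ (Nat.le_succ n)) h)
    obtain ⟨G, hG⟩ := h
    have hne : (X - C a : ℚ[X]) ^ n ≠ 0 := pow_ne_zero _ (X_sub_C_ne_zero a)
    have h1 : (X - C a : ℚ[X]) ^ n * ((X ^ 2 - 8) * ((n + 1 : ℕ) : ℚ[X]) * Θ) =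
        (X - C a : ℚ[X]) ^ n * ((X - C a) * (G - (X ^ 2 - 8) * derivative Θ +
          (2 * (m : ℚ[X]) - 1) * X * Θ)) := by
      rw [hΘ] at hG
      unfold LL at hG
      rw [derivative_mul, derivative_X_sub_C_pow] at hG
      rw [Nat.add_sub_cancel] at hG
      simp only [map_natCast] at hG
      linear_combination hG
    have h2 := mul_left_cancel₀ hne h1
    have h3 := congrArg (fun P : ℚ[X] => P.eval a) h2
    simp only [eval_mul, eval_sub, eval_pow, eval_X, eval_ofNat, eval_natCast, eval_C, sub_self,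
      zero_mul] at h3
    have h4 : Θ.eval a = 0 := by
      rcases mul_eq_zero.mp h3 with h5 | h5
      · rcases mul_eq_zero.mp h5 with h6 | h6
        · exact absurd (by linarith) ha
        · exfalso
          have : ((n + 1 : ℕ) : ℚ) ≠ 0 := by positivity
          exact this h6
      · exact h5
    obtain ⟨Θ', hΘ'⟩ := dvd_iff_isRoot.mpr h4
    exact ⟨Θ', by rw [hΘ, hΘ']; ring⟩

theorem LL_sub (m : ℕ) (P Q : ℚ[X]) : LL m (P - Q) = LL m P - LL m Q := by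
  unfold LL
  rw [derivative_sub]
  ring

theorem LL_add (m : ℕ) (P Q : ℚ[X]) : LL m (P + Q) = LL m P + LL m Q := by
  unfold LL
  rw [derivative_add]
  ring

theorem LL_C_mul (m : ℕ) (c : ℚ) (P : ℚ[X]) : LL m (C c * P) = C c * LL m P := by
  unfold LL
  rw [derivative_C_mul]
  ring

/-- a polynomial of small degree divisible by a big product is zero -/
theorem eq_zero_of_dvd (a b : ℕ) (D : ℚ[X]) (h2 : (X - C 2) ^ a ∣ D) (h3 : (X - C 3) ^ b ∣ D)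
    (hd : D.natDegree < a + b) : D = 0 := by
  have hc : IsCoprime ((X - C 2 : ℚ[X]) ^ a) ((X - C 3) ^ b) := by
    apply IsCoprime.pow
    refine ⟨1, -1, ?_⟩
    have : (C 3 : ℚ[X]) = C 2 + 1 := by rw [← C_1, ← C_add]; norm_num
    rw [this]; ring
  obtain ⟨E, hE⟩ := hc.mul_dvd h2 h3
  by_contra hne
  have hE0 : E ≠ 0 := by rintro rfl; exact hne (by rw [hE, mul_zero])
  have h5 : D.natDegree = a + b + E.natDegree := by
    rw [hE, natDegree_mul (mul_ne_zero (pow_ne_zero _ (X_sub_C_ne_zero 2))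
      (pow_ne_zero _ (X_sub_C_ne_zero 3))) hE0, natDegree_mul (pow_ne_zero _ (X_sub_C_ne_zero 2))
      (pow_ne_zero _ (X_sub_C_ne_zero 3)), natDegree_pow, natDegree_pow, natDegree_X_sub_C,
      natDegree_X_sub_C]
    ring
  omega

/-- the kernel elements cannot exist simultaneously -/
theorem kernel (m A B : ℕ) (h2m : 2 * m ≤ A + B + 1) (Ψ0 Ψ1 Ψ2 ρ0 ρ1 ρ2 : ℚ[X])
    (n0 : ρ0 ≠ 0) (n1 : ρ1 ≠ 0) (n2 : ρ2 ≠ 0)
    (d0 : ρ0.natDegree ≤ 1) (d1 : ρ1.natDegree ≤ 1) (d2 : ρ2.natDegree ≤ 1)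
    (e0 : LL m Ψ0 = (X - C 2) ^ A * (X - C 3) ^ B * ρ0)
    (e1 : LL m Ψ1 = (X - C 2) ^ A * (X - C 3) ^ (B + 1) * ρ1)
    (e2 : LL m Ψ2 = (X - C 2) ^ A * (X - C 3) ^ (B + 2) * ρ2)
    (v0 : Ψ0.eval 2 = 0) (v1 : Ψ1.eval 2 = 0) (v2 : Ψ2.eval 2 = 0) : False := by
  have degP : ∀ (b : ℕ) (ρ : ℚ[X]), ρ.natDegree ≤ 1 →
      ((X - C 2 : ℚ[X]) ^ A * (X - C 3) ^ b * ρ).natDegree ≤ A + b + 1 := by
    intro b ρ hρ
    refine natDegree_mul_le.trans (Nat.add_le_add ?_ hρ)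
    refine natDegree_mul_le.trans ?_
    rw [natDegree_pow, natDegree_pow, natDegree_X_sub_C, natDegree_X_sub_C, mul_one, mul_one]
  have neP : ∀ (b : ℕ) (ρ : ℚ[X]), ρ ≠ 0 → (X - C 2 : ℚ[X]) ^ A * (X - C 3) ^ b * ρ ≠ 0 := by
    intro b ρ hρ
    exact mul_ne_zero (mul_ne_zero (pow_ne_zero _ (X_sub_C_ne_zero 2))
      (pow_ne_zero _ (X_sub_C_ne_zero 3))) hρ
  have hLL0 : LL m (0 : ℚ[X]) = 0 := by unfold LL; simp
  -- degrees
  have g0 : Ψ0.natDegree ≤ A + B := natDegree_le_of_LL m _ h2m Ψ0 (by rw [e0]; exact degP B ρ0 d0)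
  have g1 : Ψ1.natDegree ≤ A + B + 1 := natDegree_le_of_LL m _ (by omega) Ψ1
    (by rw [e1]; have := degP (B + 1) ρ1 d1; omega)
  have g2 : Ψ2.natDegree ≤ A + B + 2 := natDegree_le_of_LL m _ (by omega) Ψ2
    (by rw [e2]; have := degP (B + 2) ρ2 d2; omega)
  -- divisibility at 2
  have m2 : ∀ Ψ : ℚ[X], (X - C 2) ^ A ∣ LL m Ψ → Ψ.eval 2 = 0 → (X - C 2) ^ (A + 1) ∣ Ψ :=
    fun Ψ h h' => pow_dvd_of_LL m 2 (by norm_num) A Ψ h h'
  have m3 : ∀ (b : ℕ) (Ψ : ℚ[X]), (X - C 3) ^ b ∣ LL m Ψ → Ψ.eval 3 = 0 →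
      (X - C 3) ^ (b + 1) ∣ Ψ :=
    fun b Ψ h h' => pow_dvd_of_LL m 3 (by norm_num) b Ψ h h'
  -- values at 3
  have c0 : Ψ0.eval 3 ≠ 0 := by
    intro h
    have h1 : Ψ0 = 0 := eq_zero_of_dvd (A + 1) (B + 1) Ψ0
      (m2 Ψ0 (by rw [e0, mul_assoc]; exact dvd_mul_right _ _) v0)
      (m3 B Ψ0 (by rw [e0, mul_comm ((X - C 2 : ℚ[X]) ^ A), mul_assoc]; exact dvd_mul_right _ _) h)
      (by omega)
    rw [h1, hLL0] at e0
    exact neP B ρ0 n0 e0.symm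
  have c2 : Ψ2.eval 3 ≠ 0 := by
    intro h
    have h1 : Ψ2 = 0 := eq_zero_of_dvd (A + 1) (B + 2 + 1) Ψ2
      (m2 Ψ2 (by rw [e2, mul_assoc]; exact dvd_mul_right _ _) v2)
      (m3 (B + 2) Ψ2 (by
        rw [e2, mul_comm ((X - C 2 : ℚ[X]) ^ A), mul_assoc]; exact dvd_mul_right _ _) h)
      (by omega)
    rw [h1, hLL0] at e2
    exact neP (B + 2) ρ2 n2 e2.symm
  have c1 : Ψ1.eval 3 ≠ 0 := by
    intro h
    have h1 : Ψ1 = 0 := eq_zero_of_dvd (A + 1) (B + 1 + 1) Ψ1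
      (m2 Ψ1 (by rw [e1, mul_assoc]; exact dvd_mul_right _ _) v1)
      (m3 (B + 1) Ψ1 (by
        rw [e1, mul_comm ((X - C 2 : ℚ[X]) ^ A), mul_assoc]; exact dvd_mul_right _ _) h)
      (by omega)
    rw [h1, hLL0] at e1
    exact neP (B + 1) ρ1 n1 e1.symm
  -- first combination
  obtain ⟨D1, hD1⟩ : ∃ D, D = C (Ψ1.eval 3) * Ψ0 - C (Ψ0.eval 3) * Ψ1 := ⟨_, rfl⟩
  have L1 : LL m D1 = (X - C 2) ^ A * (X - C 3) ^ B *
      (C (Ψ1.eval 3) * ρ0 - C (Ψ0.eval 3) * ((X - C 3) * ρ1)) := by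
    rw [hD1, LL_sub, LL_C_mul, LL_C_mul, e0, e1]; ring
  have D10 : D1 = 0 := eq_zero_of_dvd (A + 1) (B + 1) D1
    (m2 D1 (by rw [L1, mul_assoc]; exact dvd_mul_right _ _) (by rw [hD1]; simp [v0, v1]))
    (m3 B D1 (by rw [L1, mul_comm ((X - C 2 : ℚ[X]) ^ A), mul_assoc]; exact dvd_mul_right _ _)
      (by rw [hD1]; simp; ring))
    (by
      have : D1.natDegree ≤ A + B + 1 := by
        rw [hD1]
        refine (natDegree_sub_le _ _).trans (max_le ?_ ?_)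
        · exact (natDegree_C_mul_le _ _).trans (by omega)
        · exact (natDegree_C_mul_le _ _).trans g1
      omega)
  have R1 : C (Ψ1.eval 3) * ρ0 = C (Ψ0.eval 3) * ((X - C 3) * ρ1) := by
    rw [D10, hLL0] at L1
    by_contra hne
    exact neP B _ (sub_ne_zero.mpr hne) L1.symm
  have R1' : (X - C 3) ∣ ρ0 := by
    have h1 : (X - C 3) ∣ C (Ψ1.eval 3) * ρ0 := by rw [R1]; exact ⟨C (Ψ0.eval 3) * ρ1, by ring⟩
    have hu : IsUnit (C (Ψ1.eval 3) : ℚ[X]) := isUnit_C.mpr (IsUnit.mk0 _ c1)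
    exact (hu.dvd_mul_left).mp h1
  obtain ⟨σ, hσ⟩ := R1'
  -- second combination
  obtain ⟨D2, hD2⟩ : ∃ D, D = C (Ψ2.eval 3) * Ψ0 - C (Ψ0.eval 3) * Ψ2 := ⟨_, rfl⟩
  have L2 : LL m D2 = (X - C 2) ^ A * (X - C 3) ^ (B + 1) *
      (C (Ψ2.eval 3) * σ - C (Ψ0.eval 3) * ((X - C 3) * ρ2)) := by
    rw [hD2, LL_sub, LL_C_mul, LL_C_mul, e0, e2, hσ]; ring
  have D20 : D2 = 0 := eq_zero_of_dvd (A + 1) (B + 1 + 1) D2
    (m2 D2 (by rw [L2, mul_assoc]; exact dvd_mul_right _ _) (by rw [hD2]; simp [v0, v2]))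
    (m3 (B + 1) D2 (by
      rw [L2, mul_comm ((X - C 2 : ℚ[X]) ^ A), mul_assoc]; exact dvd_mul_right _ _)
      (by rw [hD2]; simp; ring))
    (by
      have : D2.natDegree ≤ A + B + 2 := by
        rw [hD2]
        refine (natDegree_sub_le _ _).trans (max_le ?_ ?_)
        · exact (natDegree_C_mul_le _ _).trans (by omega)
        · exact (natDegree_C_mul_le _ _).trans g2
      omega)
  have R2 : C (Ψ2.eval 3) * σ = C (Ψ0.eval 3) * ((X - C 3) * ρ2) := by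
    rw [D20, hLL0] at L2
    by_contra hne
    exact neP (B + 1) _ (sub_ne_zero.mpr hne) L2.symm
  have h1 : (C (Ψ0.eval 3) * ((X - C 3) * ρ2)).natDegree = 1 + ρ2.natDegree := by
    rw [natDegree_C_mul c0, natDegree_mul (X_sub_C_ne_zero 3) n2, natDegree_X_sub_C]
  rw [← R2, natDegree_C_mul c2] at h1
  have h2 : ρ0.natDegree = 1 + σ.natDegree := by
    rw [hσ, natDegree_mul (X_sub_C_ne_zero 3) (by
      rintro rfl
      rw [mul_zero] at hσ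
      exact n0 hσ), natDegree_X_sub_C]
  omega

/-- from four vanishing values: the zero estimate -/
theorem zero_estimate (m A B : ℕ) (h2m : 2 * m ≤ A + B + 1) (k : Fin 4 → ℤ) (Ψ : Fin 4 → ℚ[X])
    (hΨ : ∀ e : Fin 4, LL m (Ψ e) = (X - C 2) ^ A * (X - C 3) ^ B * X ^ (e : ℕ) -
      C (k e : ℚ) * (X ^ 2 - 8) ^ m) (p q : ℚ) (hq : q ≠ 0)
    (h0 : ∀ e : Fin 4, p * k e + q * (Ψ e).eval 2 = 0) : False := by
  -- linear combinations
  have comb : ∀ r : Fin 4 → ℚ, ∃ (κ : ℚ) (Φ : ℚ[X]), LL m Φ = (X - C 2) ^ A * (X - C 3) ^ B *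
      (∑ e, C (r e) * X ^ (e : ℕ)) - C κ * (X ^ 2 - 8) ^ m ∧ p * κ + q * Φ.eval 2 = 0 ∧
      κ = ∑ e, r e * k e := by
    intro r
    refine ⟨∑ e, r e * k e, ∑ e, C (r e) * Ψ e, ?_, ?_, rfl⟩
    · simp only [Fin.sum_univ_four]
      rw [LL_add, LL_add, LL_add, LL_C_mul, LL_C_mul, LL_C_mul, LL_C_mul, hΨ 0, hΨ 1, hΨ 2, hΨ 3]
      simp only [map_add, map_mul]
      ring
    · have e0 := h0 0
      have e1 := h0 1
      have e2 := h0 2
      have e3 := h0 3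
      simp only [Fin.sum_univ_four, eval_add, eval_mul, eval_C]
      linear_combination r 0 * e0 + r 1 * e1 + r 2 * e2 + r 3 * e3
  -- a kernel element for each pair
  have pair : ∀ r s : Fin 4 → ℚ, ∀ R S : ℚ[X], (∑ e, C (r e) * X ^ (e : ℕ)) = R →
      (∑ e, C (s e) * X ^ (e : ℕ)) = S →
      ∃ (α β : ℚ) (Φ : ℚ[X]), (α ≠ 0 ∨ β ≠ 0) ∧
        LL m Φ = (X - C 2) ^ A * (X - C 3) ^ B * (C α * R + C β * S) ∧ Φ.eval 2 = 0 := by
    intro r s R S hR hS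
    obtain ⟨κ1, Φ1, a1, a2, -⟩ := comb r
    obtain ⟨κ2, Φ2, b1, b2, -⟩ := comb s
    rw [hR] at a1
    rw [hS] at b1
    by_cases hκ : κ1 = 0
    · refine ⟨1, 0, Φ1, Or.inl one_ne_zero, ?_, ?_⟩
      · rw [a1, hκ]; simp
      · rw [hκ, mul_zero, zero_add] at a2
        exact (mul_eq_zero.mp a2).resolve_left hq
    · refine ⟨κ2, -κ1, C κ2 * Φ1 - C κ1 * Φ2, Or.inr (neg_ne_zero.mpr hκ), ?_, ?_⟩
      · rw [LL_sub, LL_C_mul, LL_C_mul, a1, b1, C_neg]; ring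
      · have h1 : q * (C κ2 * Φ1 - C κ1 * Φ2).eval 2 = 0 := by
          simp only [eval_sub, eval_mul, eval_C]
          linear_combination κ2 * a2 - κ1 * b2
        exact (mul_eq_zero.mp h1).resolve_left hq
  have hρ : ∀ α β : ℚ, (α ≠ 0 ∨ β ≠ 0) → (C α + C β * X : ℚ[X]) ≠ 0 := by
    intro α β h h'
    have h1 := congrArg (fun P : ℚ[X] => P.coeff 0) h'
    have h2 := congrArg (fun P : ℚ[X] => P.coeff 1) h'
    simp at h1 h2
    rcases h with h | h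
    · exact h h1
    · exact h h2
  have hdeg : ∀ α β : ℚ, (C α + C β * X : ℚ[X]).natDegree ≤ 1 := by
    intro α β
    compute_degree
  obtain ⟨α0, β0, Φ0, x0, y0, z0⟩ := pair ![1, 0, 0, 0] ![0, 1, 0, 0] 1 X
    (by simp [Fin.sum_univ_four]) (by simp [Fin.sum_univ_four])
  obtain ⟨α1, β1, Φ1, x1, y1, z1⟩ := pair ![-3, 1, 0, 0] ![0, -3, 1, 0] (X - C 3) ((X - C 3) * X)
    (by simp [Fin.sum_univ_four]; ring) (by simp [Fin.sum_univ_four]; ring)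
  obtain ⟨α2, β2, Φ2, x2, y2, z2⟩ := pair ![9, -6, 1, 0] ![0, 9, -6, 1] ((X - C 3) ^ 2)
    ((X - C 3) ^ 2 * X)
    (by
      simp [Fin.sum_univ_four]
      have e9 : (C 9 : ℚ[X]) = C 3 * C 3 := by rw [← C_mul]; norm_num
      have e6 : (C 6 : ℚ[X]) = 2 * C 3 := by
        rw [show (2 : ℚ[X]) = C 2 from rfl, ← C_mul]; norm_num
      rw [e9, e6]; ring)
    (by
      simp [Fin.sum_univ_four]
      have e9 : (C 9 : ℚ[X]) = C 3 * C 3 := by rw [← C_mul]; norm_num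
      have e6 : (C 6 : ℚ[X]) = 2 * C 3 := by
        rw [show (2 : ℚ[X]) = C 2 from rfl, ← C_mul]; norm_num
      rw [e9, e6]; ring)
  refine kernel m A B h2m Φ0 Φ1 Φ2 (C α0 + C β0 * X) (C α1 + C β1 * X) (C α2 + C β2 * X)
    (hρ _ _ x0) (hρ _ _ x1) (hρ _ _ x2) (hdeg _ _) (hdeg _ _) (hdeg _ _) ?_ ?_ ?_ z0 z1 z2
  · rw [y0]; ring
  · rw [y1]; ring
  · rw [y2]; ring

end Pool.Agent.TH67.RP
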