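import Pool.Agent.H326R2.Pi.T2
import Pool.Agent.TH67.RP.Zero
import Pool.Agent.H89R2.PiT1
import Pool.Agent.H837R2.PI.T3
import Pool.Agent.H52R2.PiT6
import Pool.Agent.H409R2.Pi.Disc
import Pool.Agent.H726R2.PiA.T8

/-!
# Denominators of the linear forms, general parameters

For `Q = (X - 2) ^ (2A) T` with `2m ≤ 3A` the linear form of level `m` attached to `Q` becomes
integral after multiplication by `lcm(1, …, N)` and a power of two at most `100 m²`.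
-/

open Polynomial

namespace Pool.Agent.TH67.RP

open Pool.Agent.H326R2.Pi
open Pool.Agent.H726R2.PiA (Hom_sub Hom_C_mul Hom_lin_pow Hom_quad_pow Hom_one natDegree_Hom
  LL_map ig Ig Ig_sq ig_sq py pz pa pD pb pab pd1 pd2 d2 dIg Hom_at_zero Hom_at_one Ig_at py_one
  pD_one V_mod natDegree_py natDegree_pa natDegree_pD lcm_two)

/-- the solvability statement of the library -/
theorem term : S_term := Pool.Agent.H837R2.PI.term Pool.Agent.H326R2.Pi.T1.odd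
  Pool.Agent.H326R2.Pi.T1.low Pool.Agent.H326R2.Pi.T2

theorem pa_sq : (pa - 2 * py) ^ 2 = 8 * (Ig * pz ^ 2) := by
  unfold pa
  linear_combination (4 * pz ^ 2) * Ig_sq

theorem pb_sq : pb ^ 2 = 4 * pD ^ 2 * (-1) := by
  unfold pb
  linear_combination (4 * pD ^ 2) * Ig_sq

/-- the key identity -/
theorem core' {S : Type*} [CommRing S] (y y' D D' a H H' I W : S) (u v : ℕ)
    (h1 : (-2 * I * D') * y - (-2 * I * D) * y' = a * y')
    (E : (-2 * I * D) * (y * H' - (u + v + 2 : ℕ) * y' * H) = y' * (W + (v + 1) * a * H)) :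
    (-2 * I * H') * (y ^ (u + 1) * D ^ (v + 1)) -
      (-2 * I * H) * ((u + 1) * y ^ u * y' * D ^ (v + 1) +
        y ^ (u + 1) * ((v + 1) * D ^ v * D')) = y ^ u * D ^ v * y' * W := by
  push_cast at E
  linear_combination (y ^ u * D ^ v) * E - (y ^ u * D ^ v) * ((v : S) + 1) * H * h1

/-- the exponent of two lost -/
def kap' (m : ℕ) : ℕ := Nat.log 2 (100 * m ^ 2)

/-- the 2-adic statement, general parameters -/
theorem two_gen (m N A : ℕ) (hm : 1 ≤ m) (hN1 : 1 ≤ N) (hN2 : N ≤ 2 * m) (hA : 2 * m ≤ 3 * A)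
    (T : ℤ[X]) (hT : T.natDegree + 2 * A ≤ 2 * m + N) (k : ℤ) (Φ : ℤ[X])
    (hdeg : Φ.natDegree ≤ 2 * m + N - 1)
    (hΦ : LL m Φ = 8 ^ m * (Nat.lcmUpto N : ℤ[X]) *
      ((X - C 2) ^ (2 * A) * T - C k * (X ^ 2 - 8) ^ m)) :
    ∃ (e L' o : ℕ), Nat.lcmUpto N = 2 ^ e * L' ∧ Odd L' ∧ Odd o ∧
      ((2 : ℤ) ^ (5 * m + e)) ∣ 4 * (o : ℤ) * 2 ^ kap' m * Φ.eval 2 := by
  obtain ⟨f, hf⟩ : ∃ f, f = Int.castRingHom GaussianInt := ⟨_, rfl⟩
  obtain ⟨ΦG, hΦG⟩ : ∃ F, F = Φ.map f := ⟨_, rfl⟩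
  obtain ⟨TG, hTG⟩ : ∃ F, F = T.map f := ⟨_, rfl⟩
  have hG : LL m ΦG = C ((8 ^ m * Nat.lcmUpto N : ℕ) : GaussianInt) *
      ((X - C 2) ^ (2 * A) * TG - C (k : GaussianInt) * (X ^ 2 - 8) ^ m) := by
    rw [hΦG, ← LL_map, hΦ, hTG]
    have e8 : (C ((8 ^ m * Nat.lcmUpto N : ℕ) : GaussianInt) : GaussianInt[X]) =
        8 ^ m * (Nat.lcmUpto N : GaussianInt[X]) := by
      push_cast
      simp only [map_mul, map_pow, map_natCast, map_ofNat]
    rw [e8]
    simp only [Polynomial.map_mul, Polynomial.map_sub, Polynomial.map_pow, Polynomial.map_X,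
      Polynomial.map_ofNat, Polynomial.map_C, Polynomial.map_natCast]
    rw [hf]
    simp
  have hdegG : ΦG.natDegree ≤ 2 * m + N - 1 := by
    rw [hΦG]; exact natDegree_map_le.trans hdeg
  have hdegT : TG.natDegree ≤ 2 * m + N - 2 * A := by
    rw [hTG]; exact natDegree_map_le.trans (by omega)
  have hevG : ΦG.eval 2 = ((Φ.eval 2 : ℤ) : GaussianInt) := by
    rw [hΦG, hf]
    have := Polynomial.eval_map_apply (f := Int.castRingHom GaussianInt) (p := Φ) (x := 2)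
    simpa using this
  obtain ⟨u, hu⟩ : ∃ u, N = u + 1 := ⟨N - 1, by omega⟩
  obtain ⟨v, hv⟩ : ∃ v, 2 * m = v + 2 := ⟨2 * m - 2, by omega⟩
  have hd : 2 * m + N - 1 = u + v + 2 := by omega
  obtain ⟨e, L', hL, hL'odd, he⟩ := lcm_two N hN1
  -- the right hand side
  obtain ⟨Z, hZ⟩ : ∃ Z : GaussianInt[X], Hom pa py (2 * m + N) (LL m ΦG) =
      C ((2 ^ (5 * m + e) * L' : ℕ) : GaussianInt) * Z := by
    obtain ⟨j, hj⟩ : ∃ j, 3 * A = 2 * m + j := ⟨3 * A - 2 * m, by omega⟩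
    refine ⟨2 ^ j * Ig ^ A * pz ^ (2 * A) * Hom pa py (2 * m + N - 2 * A) TG -
      C (k : GaussianInt) * ((-1) ^ m * (pD ^ (2 * m) * py ^ N)), ?_⟩
    have h1 : Hom pa py (2 * m + N) ((X - C 2) ^ (2 * A) * TG) =
        (pa - C 2 * py) ^ (2 * A) * Hom pa py (2 * m + N - 2 * A) TG := by
      have := Hom_lin_pow pa py (2 * m + N - 2 * A) (2 * A) 2 TG hdegT
      rwa [show 2 * m + N - 2 * A + 2 * A = 2 * m + N by omega] at this
    have h2 : Hom pa py (2 * m + N) ((X ^ 2 - 8) ^ m) = (pa ^ 2 - 8 * py ^ 2) ^ m * py ^ N := by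
      have := Hom_quad_pow pa py N m 1 (by simp)
      rw [mul_one, Hom_one, show N + 2 * m = 2 * m + N by ring] at this
      exact this
    have h3 : (C 2 : GaussianInt[X]) = 2 := rfl
    rw [hG, Hom_C_mul, Hom_sub, Hom_C_mul, h1, h2, pab, h3, pow_mul (pa - 2 * py) 2 A, pa_sq,
      pb_sq]
    have h8 : (8 : GaussianInt[X]) ^ A = 4 ^ m * 2 ^ j := by
      rw [show (8 : GaussianInt[X]) = 2 ^ 3 by norm_num, show (4 : GaussianInt[X]) = 2 ^ 2 by norm_num,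
        ← pow_mul, ← pow_mul, ← pow_add, hj]
    have hc : (C ((2 ^ (5 * m + e) * L' : ℕ) : GaussianInt) : GaussianInt[X]) =
        C ((8 ^ m * Nat.lcmUpto N : ℕ) : GaussianInt) * 4 ^ m := by
      rw [hL]
      have : (4 : GaussianInt[X]) ^ m = C (4 ^ m) := by rw [C_pow]; rfl
      rw [this, ← C_mul]
      congr 1
      push_cast
      rw [show (8 : GaussianInt) = 2 ^ 3 by norm_num, show (4 : GaussianInt) = 2 ^ 2 by norm_num,
        ← pow_mul, ← pow_mul, pow_add, show 5 * m = 3 * m + 2 * m by ring, pow_add]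
      ring
    rw [hc, mul_pow, h8, mul_pow, mul_pow, mul_pow, ← pow_mul, ← pow_mul]
    ring
  have E := Pool.Agent.H52R2.PiT6.S_hom_proof GaussianInt pa py pb pab pd1 m (2 * m + N - 1) ΦG hdegG
  rw [show 2 * m + N - 1 + 1 = 2 * m + N by omega, hZ, hd] at E
  obtain ⟨H, hH⟩ : ∃ H, H = Hom pa py (u + v + 2) ΦG := ⟨_, rfl⟩
  rw [← hH] at E
  obtain ⟨W, hW⟩ : ∃ W, W = C ((2 ^ (5 * m + e) * L' : ℕ) : GaussianInt) * Z := ⟨_, rfl⟩
  rw [← hW] at E
  have hcast : (2 * ((m : ℕ) : GaussianInt[X]) - 1) = (v : GaussianInt[X]) + 1 := by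
    have : ((2 * m : ℕ) : GaussianInt[X]) = ((v + 2 : ℕ) : GaussianInt[X]) := by rw [hv]
    push_cast at this ⊢
    linear_combination this
  rw [hcast] at E
  obtain ⟨N0, hN0d⟩ : ∃ N0 : GaussianInt[X], N0 = -2 * Ig * H := ⟨_, rfl⟩
  obtain ⟨V, hV⟩ : ∃ V : GaussianInt[X], V = py ^ (u + 1) * pD ^ (v + 1) := ⟨_, rfl⟩
  have hN' : derivative N0 = -2 * Ig * derivative H := by
    rw [hN0d, derivative_mul, derivative_mul, derivative_neg, d2, dIg]
    ring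
  have hV' : derivative V = ((u : GaussianInt[X]) + 1) * py ^ u * derivative py *
      pD ^ (v + 1) + py ^ (u + 1) * (((v : GaussianInt[X]) + 1) * pD ^ v * derivative pD) := by
    rw [hV, derivative_mul, derivative_pow_succ, derivative_pow_succ]
    simp only [map_add, map_natCast, map_one]
  have key : derivative N0 * V - N0 * derivative V = py ^ u * pD ^ v * derivative py * W := by
    rw [hN', hV', hN0d, hV]
    exact core' py (derivative py) pD (derivative pD) pa H (derivative H) Ig W u v pd2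
      (by rw [pb] at E; exact E)
  have hdvd : C (2 ^ (5 * m + e) : GaussianInt) ∣ derivative N0 * V - N0 * derivative V := by
    rw [key, hW]
    refine ⟨py ^ u * pD ^ v * derivative py * (C (L' : GaussianInt) * Z), ?_⟩
    push_cast
    rw [C_mul]
    ring
  obtain ⟨U, hU⟩ := V_mod (u + 1) (v + 1)
  rw [← hV] at hU
  have hV0 : V.eval 0 * 1 = 1 := by
    rw [hV, eval_mul, eval_pow, eval_pow]
    have h3 : py.eval 0 = 1 := by simp [py]
    have h4 : pD.eval 0 = 1 := by simp [pD]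
    rw [h3, h4]; simp
  have hIn : ∀ n : ℕ, (-ig) ^ n * ig ^ n = 1 := by
    intro n
    rw [← mul_pow]
    have : -ig * ig = 1 := by linear_combination (-1 : GaussianInt) * ig_sq
    rw [this, one_pow]
  have hV1 : V.eval 1 * ((-ig) ^ (u + 1) * ig ^ (v + 1)) = 1 := by
    rw [hV, eval_mul, eval_pow, eval_pow, py_one, pD_one]
    linear_combination ((-ig) ^ (v + 1) * ig ^ (v + 1)) * hIn (u + 1) + hIn (v + 1)
  have hdN : N0.natDegree ≤ 2 * (u + v + 2) := by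
    have h3 : N0 = C (-2 * ig) * H := by
      rw [hN0d, C_mul, C_neg]
      simp only [map_ofNat]
      rfl
    rw [h3, hH]
    exact (natDegree_C_mul_le _ _).trans (natDegree_Hom pa py _ _ natDegree_pa natDegree_py)
  have hdV : V.natDegree ≤ (u + 1) * 1 + (v + 1) * 2 := by
    rw [hV]
    refine natDegree_mul_le.trans (Nat.add_le_add ?_ ?_)
    · exact natDegree_pow_le.trans (Nat.mul_le_mul_left _ natDegree_py)
    · exact natDegree_pow_le.trans (Nat.mul_le_mul_left _ natDegree_pD)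
  have hsize : N0.natDegree + 2 * (5 * m + e) * V.natDegree < 2 ^ (kap' m + 1) := by
    have h3 : 100 * m ^ 2 < 2 ^ (kap' m + 1) := Nat.lt_pow_succ_log_self (by norm_num) _
    refine lt_of_le_of_lt ?_ h3
    have h4 : V.natDegree ≤ 6 * m := by omega
    have h5 : N0.natDegree ≤ 8 * m := by omega
    have h6 : 2 * (5 * m + e) ≤ 14 * m := by omega
    calc N0.natDegree + 2 * (5 * m + e) * V.natDegree ≤ 8 * m + (14 * m) * (6 * m) :=
          Nat.add_le_add h5 (Nat.mul_le_mul h6 h4)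
      _ ≤ 100 * m ^ 2 := by nlinarith
  obtain ⟨o, hoodd, w, hw⟩ := Pool.Agent.H409R2.Pi.s_disc N0 V U (5 * m + e) (kap' m) 1
    ((-ig) ^ (u + 1) * ig ^ (v + 1)) hU hdvd hV0 hV1 hsize
  have hN0 : N0.eval 0 * 1 = -2 * ig * ((Φ.eval 2 : ℤ) : GaussianInt) := by
    rw [hN0d, eval_mul, eval_mul, Ig_at, hH, Hom_at_zero _ _ (by rw [← hd]; exact hdegG), hevG]
    simp
  have hv1 : ig ^ (v + 1) * ig ^ (v + 1) = -1 := by
    rw [← mul_pow, ig_sq]
    apply Odd.neg_one_pow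
    exact ⟨m - 1, by omega⟩
  have hN1 : N0.eval 1 * ((-ig) ^ (u + 1) * ig ^ (v + 1)) =
      2 * ig * ((Φ.eval 2 : ℤ) : GaussianInt) := by
    rw [hN0d, eval_mul, eval_mul, Ig_at, hH, Hom_at_one _ _ (by rw [← hd]; exact hdegG), hevG]
    simp only [eval_neg, eval_ofNat]
    have e2 : ig ^ (u + v + 2) = ig ^ (u + 1) * ig ^ (v + 1) := by rw [← pow_add]; congr 1; ring
    rw [e2]
    linear_combination (-2 * ig * ((Φ.eval 2 : ℤ) : GaussianInt) * (ig ^ (v + 1) * ig ^ (v + 1))) *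
      hIn (u + 1) + (-2 * ig * ((Φ.eval 2 : ℤ) : GaussianInt)) * hv1
  rw [hN0, hN1] at hw
  refine ⟨e, L', o, hL, hL'odd, hoodd, w.im, ?_⟩
  have h3 : ((4 * (o : ℤ) * 2 ^ kap' m * Φ.eval 2 : ℤ) : GaussianInt) * ig =
      ((2 ^ (5 * m + e) : ℤ) : GaussianInt) * w := by
    push_cast
    linear_combination hw
  generalize (4 * (o : ℤ) * 2 ^ kap' m * Φ.eval 2 : ℤ) = P at h3 ⊢
  generalize (2 ^ (5 * m + e) : ℤ) = B at h3 ⊢
  have h4 := congrArg Zsqrtd.im h3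
  simpa [Zsqrtd.im_mul, ig] using h4

theorem dvd_lcmUpto (N j : ℕ) (h1 : 1 ≤ j) (h2 : j ≤ N) : j ∣ Nat.lcmUpto N := by
  unfold Nat.lcmUpto
  exact Finset.dvd_lcm (f := id) (Finset.mem_Icc.mpr ⟨h1, h2⟩)

theorem lcmUpto_dvd (N q : ℕ) (h : ∀ j : ℕ, 1 ≤ j → j ≤ N → j ∣ q) : Nat.lcmUpto N ∣ q := by
  unfold Nat.lcmUpto
  apply Finset.lcm_dvd
  intro j hj
  have := Finset.mem_Icc.mp hj
  exact h j this.1 this.2

/-- denominators, general parameters -/
theorem den (m N A : ℕ) (hm : 1 ≤ m) (hN1 : 2 * m ≤ N + 1) (hN2 : N ≤ 2 * m) (hA : 2 * m ≤ 3 * A)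
    (T : ℤ[X]) (hT : T.natDegree + 2 * A ≤ 2 * m + N) :
    ∃ (k : ℤ) (Ψ : ℚ[X]),
      LL m Ψ = ((X - C 2) ^ (2 * A) * T).map (Int.castRingHom ℚ) - C (k : ℚ) * (X ^ 2 - 8) ^ m ∧
      ∃ r : ℤ, ((2 : ℚ) ^ kap' m * Nat.lcmUpto N) * (4 * Ψ.eval 2 / 4 ^ m) = r := by
  have hN : 1 ≤ N := by omega
  obtain ⟨k, Φ, hdeg, hΦ⟩ := term m N (Nat.lcmUpto N) hm hN1
    (fun j h1 h2 => dvd_lcmUpto N j h1 h2) ((X - C 2) ^ (2 * A) * T) (by
      refine natDegree_mul_le.trans ?_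
      rw [natDegree_pow, natDegree_X_sub_C]
      omega)
  obtain ⟨e, L', o, hL, hL', ho, hdvd⟩ := two_gen m N A hm hN hN2 hA T hT k Φ hdeg hΦ
  have hL0 : Nat.lcmUpto N ≠ 0 := Nat.lcmUpto_ne_zero N
  have h8 : (8 : ℚ) ^ m * (Nat.lcmUpto N : ℚ) ≠ 0 := by
    have : (Nat.lcmUpto N : ℚ) ≠ 0 := by exact_mod_cast hL0
    positivity
  refine ⟨k, C (((8 : ℚ) ^ m * (Nat.lcmUpto N : ℚ))⁻¹) * Φ.map (Int.castRingHom ℚ), ?_, ?_⟩
  · rw [LL_C_mul, ← LL_map, hΦ]
    have h1 : (C (((8 : ℚ) ^ m * (Nat.lcmUpto N : ℚ))⁻¹) : ℚ[X]) *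
        (8 ^ m * (Nat.lcmUpto N : ℚ[X])) = 1 := by
      have : (8 ^ m * (Nat.lcmUpto N : ℚ[X]) : ℚ[X]) = C ((8 : ℚ) ^ m * (Nat.lcmUpto N : ℚ)) := by
        simp only [map_mul, map_pow, map_natCast, map_ofNat]
      rw [this, ← C_mul, inv_mul_cancel₀ h8, C_1]
    simp only [Polynomial.map_mul, Polynomial.map_sub, Polynomial.map_pow, Polynomial.map_X,
      Polynomial.map_ofNat, Polynomial.map_C, Polynomial.map_natCast]
    rw [← mul_assoc, h1, one_mul]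
    simp
  · -- the value
    obtain ⟨c, hc⟩ : ∃ c : ℤ, c = Φ.eval 2 := ⟨_, rfl⟩
    have hev : (Φ.map (Int.castRingHom ℚ)).eval 2 = (c : ℚ) := by
      rw [hc]
      have := Polynomial.eval_map_apply (f := Int.castRingHom ℚ) (p := Φ) (x := 2)
      simpa using this
    rw [← hc] at hdvd
    -- remove the odd factor
    have h2 : ((2 : ℤ) ^ (5 * m + e)) ∣ 4 * 2 ^ kap' m * c := by
      have hcop : IsCoprime ((2 : ℤ) ^ (5 * m + e)) (o : ℤ) := by
        apply IsCoprime.pow_left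
        rw [Int.isCoprime_iff_gcd_eq_one]
        have : Nat.Coprime 2 o := (Nat.coprime_two_left).mpr ho
        exact_mod_cast this
      have h3 : ((2 : ℤ) ^ (5 * m + e)) ∣ (o : ℤ) * (4 * 2 ^ kap' m * c) := by
        have e1 : (o : ℤ) * (4 * 2 ^ kap' m * c) = 4 * (o : ℤ) * 2 ^ kap' m * c := by ring
        rw [e1]; exact hdvd
      exact hcop.dvd_of_dvd_mul_left h3
    obtain ⟨r, hr⟩ := h2
    refine ⟨2 ^ e * r, ?_⟩
    rw [eval_mul, eval_C, hev]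
    have hr' : (4 * 2 ^ kap' m * c : ℚ) = 2 ^ (5 * m + e) * r := by exact_mod_cast hr
    have hLq : (Nat.lcmUpto N : ℚ) ≠ 0 := by exact_mod_cast hL0
    have e5 : (2 : ℚ) ^ (5 * m + e) = 8 ^ m * 4 ^ m * 2 ^ e := by
      rw [show (8 : ℚ) = 2 ^ 3 by norm_num, show (4 : ℚ) = 2 ^ 2 by norm_num, ← pow_mul, ← pow_mul,
        ← pow_add, ← pow_add]
      congr 1; ring
    rw [e5] at hr'
    push_cast
    have p8 : (8 : ℚ) ^ m ≠ 0 := by positivity
    have p4 : (4 : ℚ) ^ m ≠ 0 := by positivity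
    field_simp
    linear_combination hr'

end Pool.Agent.TH67.RP
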